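import Mathlib

/-!
Roots in power series rings, and embeddings of a rational function field into a field of
Laurent series.
-/

set_option autoImplicit false

namespace MP7fT

open Polynomial

/-- Hensel's lemma for a power series ring. -/
theorem hensel_root {k : Type*} [Field k] (q : (PowerSeries k)[X]) (hq : q.Monic) (a : k)
    (h0 : (q.map (PowerSeries.constantCoeff (R := k))).eval a = 0)
    (h1 : (derivative (q.map (PowerSeries.constantCoeff (R := k)))).eval a ≠ 0) :
    ∃ r : PowerSeries k, q.eval r = 0 ∧ PowerSeries.constantCoeff r = a := by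
  have hmem : ∀ x : PowerSeries k, x ∈ (Ideal.span {PowerSeries.X} : Ideal (PowerSeries k)) ↔
      PowerSeries.constantCoeff x = 0 := by
    intro x
    rw [Ideal.mem_span_singleton, PowerSeries.X_dvd_iff]
  have hH : HenselianRing (PowerSeries k) (Ideal.span {PowerSeries.X}) := inferInstance
  have hc : PowerSeries.constantCoeff (PowerSeries.C a) = a := PowerSeries.constantCoeff_C a
  have e0 : PowerSeries.constantCoeff (q.eval (PowerSeries.C a)) = 0 := by
    rw [← eval₂_at_apply, hc, ← eval_map]
    exact h0
  have e1 : PowerSeries.constantCoeff ((derivative q).eval (PowerSeries.C a)) ≠ 0 := by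
    rw [← eval₂_at_apply, hc, ← eval_map, ← derivative_map]
    exact h1
  obtain ⟨r, hr, hr'⟩ := hH.is_henselian q hq (PowerSeries.C a) ((hmem _).mpr e0) (by
    apply IsUnit.map
    exact PowerSeries.isUnit_iff_constantCoeff.mpr (isUnit_iff_ne_zero.mpr e1))
  refine ⟨r, hr, ?_⟩
  rw [hmem, map_sub, hc] at hr'
  exact sub_eq_zero.mp hr'

/-- If a monic polynomial over the power series ring splits over the field of Laurent series, then
every root of its reduction lifts to a root. -/
theorem lift_of_splits {k : Type*} [Field k] (q : (PowerSeries k)[X]) (hq : q.Monic)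
    (hs : (q.map (algebraMap (PowerSeries k) (LaurentSeries k))).Splits) (b : k)
    (hb : (q.map (PowerSeries.constantCoeff (R := k))).eval b = 0) :
    ∃ r : PowerSeries k, q.eval r = 0 ∧ PowerSeries.constantCoeff r = b := by
  by_contra hcon
  push Not at hcon
  set i := algebraMap (PowerSeries k) (LaurentSeries k) with hi
  have hinj : Function.Injective i := IsFractionRing.injective _ _
  have hunit : ∀ x : LaurentSeries k, x ∈ (q.map i).roots →
      ∃ u : PowerSeries k, IsUnit u ∧ i u = i (PowerSeries.C b) - x := by
    intro x hx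
    rw [mem_roots', IsRoot.def] at hx
    have hint : IsIntegral (PowerSeries k) x := ⟨q, hq, by rw [← eval_map]; exact hx.2⟩
    obtain ⟨r, hr⟩ := IsIntegrallyClosed.isIntegral_iff.mp hint
    have hr0 : q.eval r = 0 := by
      apply hinj
      rw [← eval₂_at_apply, ← eval_map, map_zero]
      change eval (algebraMap (PowerSeries k) (LaurentSeries k) r) _ = 0
      rw [hr]
      exact hx.2
    refine ⟨PowerSeries.C b - r, ?_, ?_⟩
    · rw [PowerSeries.isUnit_iff_constantCoeff, isUnit_iff_ne_zero, map_sub,
        PowerSeries.constantCoeff_C, sub_ne_zero]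
      exact (hcon r hr0).symm
    · rw [map_sub, hi, hr]
  have hprod : ∀ s : Multiset (LaurentSeries k), (∀ x ∈ s, ∃ u : PowerSeries k, IsUnit u ∧
      i u = i (PowerSeries.C b) - x) →
      ∃ u : PowerSeries k, IsUnit u ∧ i u = (s.map (i (PowerSeries.C b) - ·)).prod := by
    intro s
    induction s using Multiset.induction with
    | empty => intro _; exact ⟨1, isUnit_one, by simp⟩
    | cons a s ih =>
      intro h
      obtain ⟨u, hu, hu'⟩ := ih (fun x hx => h x (Multiset.mem_cons_of_mem hx))
      obtain ⟨w, hw, hw'⟩ := h a (Multiset.mem_cons_self a s)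
      refine ⟨w * u, hw.mul hu, ?_⟩
      rw [map_mul, hu', hw', Multiset.map_cons, Multiset.prod_cons]
  obtain ⟨u, hu, hu'⟩ := hprod _ hunit
  have h1 := hs.eval_eq_prod_roots_of_monic (hq.map i) (i (PowerSeries.C b))
  rw [← hu', eval_map, eval₂_at_apply] at h1
  have h2 := hinj h1
  have h3 : PowerSeries.constantCoeff (q.eval (PowerSeries.C b)) = 0 := by
    rw [← eval₂_at_apply, PowerSeries.constantCoeff_C, ← eval_map]
    exact hb
  rw [h2] at h3
  rw [PowerSeries.isUnit_iff_constantCoeff, isUnit_iff_ne_zero] at hu
  exact hu h3

/-- The substitution of a nonconstant polynomial. -/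
noncomputable def subF {F k : Type*} [Field F] [Field k] [Algebra F k] (p : k[X]) :
    F[X] →+* LaurentSeries k :=
  (algebraMap (PowerSeries k) (LaurentSeries k)).comp
    ((Polynomial.coeToPowerSeries.ringHom).comp
      ((compRingHom p).comp (mapRingHom (algebraMap F k))))

theorem subF_injective {F k : Type*} [Field F] [Field k] [Algebra F k] (p : k[X])
    (hp : p.natDegree ≠ 0) : Function.Injective (subF (F := F) p) := by
  refine (IsFractionRing.injective (PowerSeries k) (LaurentSeries k)).comp ?_
  refine (Polynomial.coe_injective k).comp ?_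
  have h1 : Function.Injective (mapRingHom (algebraMap F k)) :=
    Polynomial.map_injective _ (algebraMap F k).injective
  refine Function.Injective.comp (g := compRingHom p) ?_ h1
  rw [injective_iff_map_eq_zero]
  intro a ha
  change a.comp p = 0 at ha
  rw [comp_eq_zero_iff] at ha
  rcases ha with h | ⟨h, h'⟩
  · exact h
  · exfalso; apply hp; rw [h', natDegree_C]

/-- The embedding of a rational function field into the field of Laurent series that substitutes
a nonconstant polynomial. -/
noncomputable def subK {F k : Type*} [Field F] [Field k] [Algebra F k] (p : k[X])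
    (hp : p.natDegree ≠ 0) : RatFunc F →+* LaurentSeries k :=
  IsFractionRing.lift (A := F[X]) (K := RatFunc F) (subF_injective (F := F) p hp)

theorem subK_poly {F k : Type*} [Field F] [Field k] [Algebra F k] (p : k[X])
    (hp : p.natDegree ≠ 0) (a : F[X]) :
    subK p hp (algebraMap F[X] (RatFunc F) a) = subF p a :=
  IsFractionRing.lift_algebraMap _ a

theorem subK_X {F k : Type*} [Field F] [Field k] [Algebra F k] (p : k[X])
    (hp : p.natDegree ≠ 0) :
    subK (F := F) p hp RatFunc.X = algebraMap (PowerSeries k) (LaurentSeries k) (p : PowerSeries k) := by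
  rw [← RatFunc.algebraMap_X, subK_poly]
  simp [subF]

theorem subK_C {F k : Type*} [Field F] [Field k] [Algebra F k] (p : k[X])
    (hp : p.natDegree ≠ 0) (c : F) :
    subK (F := F) p hp (RatFunc.C c) = algebraMap (PowerSeries k) (LaurentSeries k)
      (PowerSeries.C (algebraMap F k c)) := by
  rw [← RatFunc.algebraMap_C, subK_poly]
  simp [subF]

end MP7fT
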