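import Pool.Agent.Lib.MP_7f581e_ntT.Gen

/-!
Base change of the data.
-/

set_option autoImplicit false

universe u

namespace MP7fT

open Polynomial Equiv

/-- The Galois group of `P + v (X - 1)` over `F(v)` for all extensions `F` of `K`, from data over
`K`. -/
theorem pen_gal_all {K : Type u} [Field K] (P : K[X]) (hP : P.Monic) (hd : 3 ≤ P.natDegree)
    (h1P : P.eval 1 ≠ 0) (ρ v1 : K) (q1 : K[X])
    (hq : derivative P * (X - 1) - P * derivative (X - 1) = (X - C ρ) * q1)
    (hv : P.eval ρ + v1 * (ρ - 1) = 0) (hρ : ρ ≠ 1)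
    (hc : IsCoprime (P + C v1 * (X - 1)) q1)
    (hsep : ∀ (F : Type u) [Field F] [Algebra K F],
      (MP7fA.pen (P.map (algebraMap K F)) (X - 1)).Separable)
    {n : ℕ} (F : Type u) [Field F] [Algebra K F] (L : Type u) [Field L] [Algebra (RatFunc F) L]
    (y : Fin n → L)
    (hy : (MP7fA.pen (P.map (algebraMap K F)) ((X - 1 : K[X]).map (algebraMap K F))).map
      (algebraMap (RatFunc F) L) = ∏ i, (X - C (y i)))
    (htop : Algebra.adjoin (RatFunc F) (Set.range y) = ⊤) (σ : Perm (Fin n)) :
    ∃ τ : L ≃ₐ[RatFunc F] L, ∀ i, τ (y i) = y (σ i) := by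
  have hX1 : (X - 1 : K[X]).map (algebraMap K F) = X - 1 := by
    rw [Polynomial.map_sub, map_X, Polynomial.map_one]
  rw [hX1] at hy
  set a := algebraMap K F with ha
  refine pen_gal_one (P.map a) (hP.map _) (by rw [natDegree_map]; exact hd) ?_ (a ρ) (a v1)
    (q1.map a) ?_ ?_ ?_ ?_ (hsep F) y hy htop σ
  · have : eval 1 (P.map a) = a (P.eval 1) := by
      rw [← map_one a, eval_map, eval₂_at_apply]
    rw [this, Ne, map_eq_zero_iff _ a.injective]
    exact h1P
  · have := congrArg (Polynomial.map a) hq
    rw [Polynomial.map_sub, Polynomial.map_mul, Polynomial.map_mul, Polynomial.map_mul,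
      ← derivative_map, ← derivative_map, hX1, Polynomial.map_sub, map_X, map_C] at this
    exact this
  · have := congrArg a hv
    rw [map_add, map_mul, map_sub, map_one, map_zero, ← eval₂_at_apply, ← eval_map] at this
    exact this
  · rw [Ne, map_eq_one_iff _ a.injective]; exact hρ
  · have := hc.map (mapRingHom a)
    rw [coe_mapRingHom, Polynomial.map_add, Polynomial.map_mul, map_C, hX1] at this
    exact this

/-- Separability of `P + v (X - 1)` when all critical points are rational and different from
`1`. -/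
theorem pen_sep_of {F : Type u} [Field F] (P : F[X]) (c : F) (hc0 : c ≠ 0) (s : Multiset F)
    (hs : ∀ ρ ∈ s, ρ ≠ 1)
    (hq : derivative P * (X - 1) - P * derivative (X - 1) = C c * (s.map fun ρ => X - C ρ).prod) :
    (MP7fA.pen P (X - 1)).Separable := by
  apply pen_separable
  rw [hq, Polynomial.map_mul, map_C]
  have hu : IsUnit (C (algebraMap F (RatFunc F) c)) := by
    apply isUnit_C.mpr
    rw [isUnit_iff_ne_zero, Ne, map_eq_zero_iff _ (algebraMap F (RatFunc F)).injective]
    exact hc0
  rw [isCoprime_mul_unit_left_right hu]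
  clear hq
  induction s using Multiset.induction with
  | empty => simp [isCoprime_one_right]
  | cons a s ih =>
    rw [Multiset.map_cons, Multiset.prod_cons, Polynomial.map_mul]
    refine IsCoprime.mul_right ?_ (ih fun ρ hρ => hs ρ (Multiset.mem_cons_of_mem hρ))
    apply pen_coprime_X_sub_C
    have := hs a (Multiset.mem_cons_self a s)
    simpa using sub_ne_zero.mpr this

end MP7fT
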