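import Pool.Agent.Lib.MP_7f581e_ntA.GadgetO
import Pool.Agent.Lib.MP_7f581e_ntT.Gen2

/-!
The pencil `X ^ n + v * (X - 1)` when the characteristic does not divide `n (n - 1)`.
-/

set_option autoImplicit false

universe u

namespace MP7fT

open Polynomial Equiv MP7f

section data

variable {F : Type*} [Field F]

theorem pa_q {n : ℕ} (hn : 2 ≤ n) (hn1 : ((n - 1 : ℕ) : F) ≠ 0) :
    derivative (X ^ n : F[X]) * (X - 1) - X ^ n * derivative (X - 1) =
      (X - C ((n : F) / ((n - 1 : ℕ) : F))) * (C ((n - 1 : ℕ) : F) * X ^ (n - 1)) := by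
  obtain ⟨j, rfl⟩ : ∃ j, n = j + 1 := ⟨n - 1, by omega⟩
  rw [Nat.add_sub_cancel] at *
  have h1 : C (((j + 1 : ℕ) : F) / (j : F)) * C (j : F) = C (((j + 1 : ℕ) : F)) := by
    rw [← C_mul, div_mul_cancel₀ _ hn1]
  have h2 : (C (((j + 1 : ℕ) : F)) : F[X]) = C (j : F) + 1 := by
    push_cast; rw [C_add, C_1]
  rw [derivative_X_pow, Nat.add_sub_cancel]
  simp only [derivative_sub, derivative_X, derivative_one, sub_zero, mul_one]
  linear_combination X ^ j * h1 + X ^ (j + 1) * h2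

theorem pa_rho {n : ℕ} (hn : 2 ≤ n) (hn1 : ((n - 1 : ℕ) : F) ≠ 0) :
    (n : F) / ((n - 1 : ℕ) : F) - 1 = 1 / ((n - 1 : ℕ) : F) := by
  have : (n : F) = ((n - 1 : ℕ) : F) + 1 := by
    rw [Nat.cast_sub (by omega)]; push_cast; ring
  rw [this]
  field_simp
  ring

theorem pa_sep {F : Type u} [Field F] {n : ℕ} (hn : 2 ≤ n) (hn1 : ((n - 1 : ℕ) : F) ≠ 0) :
    (MP7fA.pen (X ^ n : F[X]) (X - 1)).Separable := by
  refine pen_sep_of _ ((n - 1 : ℕ) : F) hn1
    (((n : F) / ((n - 1 : ℕ) : F)) ::ₘ Multiset.replicate (n - 1) 0) ?_ ?_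
  · intro ρ hρ
    rw [Multiset.mem_cons, Multiset.mem_replicate] at hρ
    rcases hρ with rfl | ⟨-, rfl⟩
    · intro h
      have := pa_rho hn hn1
      rw [h, sub_self] at this
      exact one_div_ne_zero hn1 this.symm
    · exact zero_ne_one
  · rw [pa_q hn hn1, Multiset.map_cons, Multiset.prod_cons, Multiset.map_replicate,
      Multiset.prod_replicate, C_0, sub_zero]
    ring

/-- The discriminant. -/
theorem disc_pa {Ω : Type*} [Field Ω] (v : Ω) {n : ℕ} (hn : 2 ≤ n)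
    (hn1 : ((n - 1 : ℕ) : Ω) ≠ 0) (y : Fin n → Ω)
    (hy : X ^ n + C v * (X - 1) = ∏ i, (X - C (y i))) :
    vV y ^ 2 = (-1) ^ (∑ i : Fin n, (Finset.Ioi i).card) * ((-1) ^ ((n + 1) * (n - 1)) *
      ((n - 1 : ℕ) : Ω) ^ (n - 1)) * (v ^ (n - 1) *
        (v + ((n - 1 : ℕ) : Ω) * ((n : Ω) / ((n - 1 : ℕ) : Ω)) ^ n)) := by
  obtain ⟨j, rfl⟩ : ∃ j, n = j + 1 := ⟨n - 1, by omega⟩
  rw [Nat.add_sub_cancel] at *
  have hρ := pa_rho hn (by rw [Nat.add_sub_cancel]; exact hn1)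
  rw [Nat.add_sub_cancel] at hρ
  obtain ⟨ρ, hr⟩ : ∃ ρ : Ω, ρ = ((j + 1 : ℕ) : Ω) / (j : Ω) := ⟨_, rfl⟩
  rw [← hr] at hρ ⊢
  have hJρ : (j : Ω) * ρ = (j : Ω) + 1 := by
    rw [hr]; field_simp; push_cast; ring
  have hdet := prod_deriv _ y hy
  set G : Polynomial Ω := X ^ (j + 1) + C v * (X - 1) with hG
  have hGY : ∀ Y : Ω, G.eval Y = Y ^ (j + 1) + v * (Y - 1) := by
    intro Y
    rw [hG]
    simp only [eval_add, eval_mul, eval_sub, eval_one, eval_pow, eval_X, eval_C]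
  have hroot : ∀ i, y i ^ (j + 1) + v * (y i - 1) = 0 := by
    intro i
    rw [← hGY, hy, eval_prod, Finset.prod_eq_zero (Finset.mem_univ i) (by simp)]
  have hder : ∀ i, (y i - 1) * (derivative G).eval (y i) =
      y i ^ j * ((j : Ω) * (y i - ρ)) := by
    intro i
    have h1 : (derivative G).eval (y i) = ((j + 1 : ℕ) : Ω) * y i ^ j + v := by
      rw [hG]
      simp only [derivative_add, derivative_mul, derivative_X_pow, derivative_C, derivative_X,
        derivative_sub, derivative_one, eval_add, eval_mul, eval_sub, eval_C, eval_pow, eval_X,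
        eval_one, eval_zero]
      rw [Nat.add_sub_cancel]
      ring
    rw [h1]
    push_cast
    linear_combination hroot i - (y i ^ j) * hJρ * (-1)
  have hprodall : (∏ i, (y i - 1)) * ∏ i, (derivative G).eval (y i) =
      (∏ i, y i) ^ j * ((j : Ω) ^ (j + 1) * ∏ i, (y i - ρ)) := by
    rw [← Finset.prod_mul_distrib, Finset.prod_congr rfl (fun i _ => hder i),
      Finset.prod_mul_distrib, Finset.prod_mul_distrib, Finset.prod_pow, Finset.prod_const,
      Finset.card_univ, Fintype.card_fin]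
  rw [prod_eval_neg _ y hy, prod_eval_neg _ y hy, hGY, hGY] at hprodall
  have h0 : ∏ i, y i = (-1) ^ (j + 2) * v := by
    have h1 := prod_eval_neg _ y hy 0
    simp only [sub_zero] at h1
    rw [h1, hGY, zero_pow (by omega)]; ring
  rw [h0] at hprodall
  have hfρ : (j : Ω) * (ρ ^ (j + 1) + v * (ρ - 1)) = v + j * ρ ^ (j + 1) := by
    rw [hρ]; field_simp; ring
  have hne : (-1 : Ω) ^ (j + 1) ≠ 0 := pow_ne_zero _ (neg_ne_zero.mpr one_ne_zero)
  have hkey : ∏ i, (derivative G).eval (y i) =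
      (-1) ^ ((j + 1 + 1) * j) * (j : Ω) ^ j * (v ^ j * (v + j * ρ ^ (j + 1))) := by
    apply mul_left_cancel₀ hne
    have h3 : (-1 : Ω) ^ (j + 1) * ((1 : Ω) ^ (j + 1) + v * (1 - 1)) = (-1) ^ (j + 1) := by
      rw [one_pow, sub_self, mul_zero, add_zero, mul_one]
    rw [h3] at hprodall
    rw [hprodall, mul_pow, ← pow_mul, ← hfρ, show (j + 1 + 1) * j = (j + 2) * j by ring]
    ring
  have hs2 : (-1 : Ω) ^ (∑ i : Fin (j + 1), (Finset.Ioi i).card) *
      (-1 : Ω) ^ (∑ i : Fin (j + 1), (Finset.Ioi i).card) = 1 := by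
    rw [← mul_pow]; simp
  rw [hkey] at hdet
  linear_combination -(-1) ^ (∑ i : Fin (j + 1), (Finset.Ioi i).card) * hdet - vV y ^ 2 * hs2

end data

theorem nonempty_gaoA (n : ℕ) (hn : 3 ≤ n) (K : Type u) [Field K] (h2 : (2 : K) ≠ 0)
    (hn0 : (n : K) ≠ 0) (hn1 : ((n - 1 : ℕ) : K) ≠ 0) : Nonempty (MP7fA.GAo n K) := by
  have hρ := pa_rho (F := K) (n := n) (by omega) hn1
  have hcast : ∀ (F : Type u) [Field F] (g : K →+* F), ((n - 1 : ℕ) : F) ≠ 0 := by
    intro F _ g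
    rw [← map_natCast g, Ne, map_eq_zero_iff _ g.injective]; exact hn1
  obtain ⟨ρ, hr⟩ : ∃ ρ : K, ρ = (n : K) / ((n - 1 : ℕ) : K) := ⟨_, rfl⟩
  have hρ0 : ρ ≠ 0 := by rw [hr]; exact div_ne_zero hn0 hn1
  obtain ⟨v1, hv1⟩ : ∃ v1 : K, v1 = -(((n - 1 : ℕ) : K) * ρ ^ n) := ⟨_, rfl⟩
  have hv10 : v1 ≠ 0 := by
    rw [hv1]; exact neg_ne_zero.mpr (mul_ne_zero hn1 (pow_ne_zero _ hρ0))
  obtain ⟨c, hc⟩ : ∃ c : K, c = (-1) ^ (∑ i : Fin n, (Finset.Ioi i).card) *
    ((-1) ^ ((n + 1) * (n - 1)) * ((n - 1 : ℕ) : K) ^ (n - 1)) := ⟨_, rfl⟩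
  have hm1 : (-1 : K) ≠ 0 := neg_ne_zero.mpr one_ne_zero
  have hc0 : c ≠ 0 := by
    rw [hc]
    exact mul_ne_zero (pow_ne_zero _ hm1) (mul_ne_zero (pow_ne_zero _ hm1) (pow_ne_zero _ hn1))
  have hXdeg : (X - 1 : K[X]).degree = 1 := by
    have := degree_X_sub_C (1 : K)
    rwa [C_1] at this
  have hdisc : ∀ (L : Type u) [Field L] (φ : RatFunc K →+* L) (y : Fin n → L),
      (MP7fA.pen (X ^ n) (X - 1)).map φ = ∏ i, (X - C (y i)) →
      vV y ^ 2 = φ (algebraMap K (RatFunc K) c) * (φ RatFunc.X ^ (n - 1) *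
        (φ RatFunc.X - φ (algebraMap K (RatFunc K) v1))) := by
    intro L _ φ y hy
    obtain ⟨g, hg⟩ : ∃ g : K →+* L, g = φ.comp (algebraMap K (RatFunc K)) := ⟨_, rfl⟩
    have hgC : ∀ c : K, φ (algebraMap K (RatFunc K) c) = g c := by
      intro c; rw [hg]; rfl
    rw [pen_map, ← hg, Polynomial.map_pow, Polynomial.map_sub, map_X, Polynomial.map_one] at hy
    rw [disc_pa _ (by omega) (hcast L g) y hy, hgC, hgC, hc, hv1, hr]
    simp only [map_mul, map_pow, map_neg, map_one, map_natCast, map_div₀, sub_neg_eq_add]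
  obtain ⟨a1, a0, b1, b0, r, hab, hr', hsign⟩ : ∃ (a1 a0 b1 b0 : K) (r : RatFunc K),
      a1 * b0 - a0 * b1 ≠ 0 ∧ r ≠ 0 ∧ ∀ (L : Type u) [Field L] (φ : RatFunc K →+* L)
      (y : Fin n → L), (MP7fA.pen (X ^ n) (X - 1)).map φ = ∏ i, (X - C (y i)) →
      (MP7f.vV y * φ r) ^ 2 *
      φ (algebraMap K (RatFunc K) b1 * RatFunc.X + algebraMap K (RatFunc K) b0) =
      φ (algebraMap K (RatFunc K) a1 * RatFunc.X + algebraMap K (RatFunc K) a0) := by
    rcases Nat.even_or_odd' n with ⟨m, hm | hm⟩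
    · refine ⟨c, -(c * v1), 1, 0, 1 / RatFunc.X ^ m, ?_, ?_, ?_⟩
      · rw [mul_zero, mul_one, zero_sub, neg_neg]; exact mul_ne_zero hc0 hv10
      · exact one_div_ne_zero (pow_ne_zero _ RatFunc.X_ne_zero)
      · intro L _ φ y hy
        have h := hdisc L φ y hy
        have hX : φ RatFunc.X ≠ 0 := by
          rw [Ne, map_eq_zero_iff _ φ.injective]; exact RatFunc.X_ne_zero
        simp only [map_one, one_mul, map_zero, add_zero, map_div₀, map_pow, map_mul, map_neg,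
          map_add]
        obtain ⟨x, hx⟩ : ∃ x, x = φ RatFunc.X := ⟨_, rfl⟩
        rw [← hx] at hX h ⊢
        rw [mul_pow, h]
        have e4 : (1 / x ^ m) ^ 2 = 1 / (x ^ (n - 1) * x) := by
          rw [← pow_succ, div_pow, one_pow, ← pow_mul]
          congr 2; omega
        have hx1 : x ^ (n - 1) ≠ 0 := pow_ne_zero _ hX
        rw [e4]
        field_simp
        ring
    · refine ⟨c, -(c * v1), 0, 1, 1 / RatFunc.X ^ m, ?_, ?_, ?_⟩
      · rw [mul_zero, mul_one, sub_zero]; exact hc0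
      · exact one_div_ne_zero (pow_ne_zero _ RatFunc.X_ne_zero)
      · intro L _ φ y hy
        have h := hdisc L φ y hy
        have hX : φ RatFunc.X ≠ 0 := by
          rw [Ne, map_eq_zero_iff _ φ.injective]; exact RatFunc.X_ne_zero
        simp only [map_one, zero_mul, map_zero, zero_add, map_div₀, map_pow, map_mul, map_neg,
          map_add]
        obtain ⟨x, hx⟩ : ∃ x, x = φ RatFunc.X := ⟨_, rfl⟩
        rw [← hx] at hX h ⊢
        rw [mul_pow, h]
        have e4 : (1 / x ^ m) ^ 2 = 1 / x ^ (n - 1) := by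
          rw [div_pow, one_pow, ← pow_mul]
          congr 2; omega
        have hx1 : x ^ (n - 1) ≠ 0 := pow_ne_zero _ hX
        rw [e4]
        field_simp
        ring
  have hev : ∀ Y v : K, (X ^ n + C v * (X - 1) : K[X]).eval Y = Y ^ n + v * (Y - 1) := by
    intro Y v
    simp only [eval_add, eval_mul, eval_sub, eval_one, eval_pow, eval_X, eval_C]
  refine ⟨{
    P := X ^ n
    Q := X - 1
    a1 := a1
    a0 := a0
    b1 := b1
    b0 := b0
    r := r
    h2 := h2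
    hab := hab
    hr := hr'
    monic := monic_X_pow n
    deg := natDegree_X_pow n
    degQ := ?_
    sep := pa_sep (by omega) hn1
    sign := fun L _ φ y _ hy => hsign L φ y hy
    gal := ?_ }⟩
  · rw [hXdeg]; exact_mod_cast (by omega : 1 < n)
  · intro F _ _ L _ _ y hy htop σ
    refine pen_gal_all (X ^ n) (monic_X_pow n) (by rw [natDegree_X_pow]; omega) ?_
      ((n : K) / ((n - 1 : ℕ) : K)) v1 _ (pa_q (by omega) hn1) ?_ ?_ ?_ ?_ F L y hy htop σ
    · rw [eval_pow, eval_X, one_pow]; exact one_ne_zero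
    · rw [eval_pow, eval_X, hρ, ← hr, hv1]
      field_simp
      ring
    · intro h
      rw [h, sub_self] at hρ
      exact one_div_ne_zero hn1 hρ.symm
    · have hu : IsUnit (C ((n - 1 : ℕ) : K)) := isUnit_C.mpr (isUnit_iff_ne_zero.mpr hn1)
      rw [isCoprime_mul_unit_left_right hu]
      apply IsCoprime.pow_right
      have := isCoprime_X_sub_C (X ^ n + C v1 * (X - 1) : K[X]) 0 (by
        rw [hev, zero_pow (by omega), zero_add, zero_sub, mul_neg, mul_one, neg_ne_zero]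
        exact hv10)
      rwa [C_0, sub_zero] at this
    · intro F _ _
      rw [Polynomial.map_pow, map_X]
      exact pa_sep (by omega) (hcast F (algebraMap K F))

end MP7fT
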