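import Pool.Agent.Lib.MP_7f581e_ntA.GadgetO
import Pool.Agent.Lib.MP_7f581e_ntT.Gen2

/-!
The pencil `X ^ (n - 2) * (X - a) ^ 2 + v * (X - 1)` for even `n` when the characteristic
divides `n - 1`.
-/

set_option autoImplicit false

universe u

namespace MP7fT

open Polynomial Equiv MP7f

/-- The polynomial. -/
noncomputable def pb {R : Type*} [CommRing R] (a : R) (n : ℕ) : R[X] :=
  X ^ (n - 2) * (X - C a) ^ 2

theorem map_pb {R S : Type*} [CommRing R] [CommRing S] (g : R →+* S) (a : R) (n : ℕ) :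
    (pb a n).map g = pb (g a) n := by
  simp [pb]

theorem pb_monic {R : Type*} [CommRing R] [Nontrivial R] (a : R) {n : ℕ} (hn : 2 ≤ n) :
    (pb a n).Monic ∧ (pb a n).natDegree = n := by
  have h2 : (X ^ (n - 2) : R[X]).Monic := monic_X_pow _
  have h1 : ((X - C a) ^ 2 : R[X]).Monic := (monic_X_sub_C a).pow 2
  refine ⟨h2.mul h1, ?_⟩
  unfold pb
  rw [h2.natDegree_mul h1, natDegree_X_pow, (monic_X_sub_C a).natDegree_pow, natDegree_X_sub_C]
  omega

section data

variable {F : Type*} [Field F]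

/-- The relations between the parameters. -/
theorem paramB_rel (a : F) (hb : 2 * a - 1 ≠ 0) :
    (2 * a - 1) * (a / (2 * a - 1)) = a ∧
    a / (2 * a - 1) - 1 = (1 - a) / (2 * a - 1) ∧
    a / (2 * a - 1) - a = 2 * a * (1 - a) / (2 * a - 1) := by
  refine ⟨mul_div_cancel₀ _ hb, ?_, ?_⟩
  · rw [eq_div_iff hb, sub_mul, div_mul_cancel₀ _ hb]; ring
  · rw [eq_div_iff hb, sub_mul, div_mul_cancel₀ _ hb]; ring

theorem pb_q (a : F) (hb : 2 * a - 1 ≠ 0) {n : ℕ} (hn : 4 ≤ n) (hn1 : ((n - 1 : ℕ) : F) = 0) :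
    derivative (pb a n) * (X - 1) - pb a n * derivative (X - 1) =
      (X - C (a / (2 * a - 1))) * (C (2 * a - 1) * (X ^ (n - 3) * (X - C a))) := by
  obtain ⟨r1, -, -⟩ := paramB_rel a hb
  obtain ⟨j, rfl⟩ : ∃ j, n = j + 3 := ⟨n - 3, by omega⟩
  have e1 : j + 3 - 2 = j + 1 := by omega
  have e2 : j + 3 - 1 = j + 2 := by omega
  rw [e2] at hn1
  have hj : ((j + 1 : ℕ) : F) = -1 := by
    push_cast at hn1 ⊢; linear_combination hn1
  have c1 : C (2 * a - 1) * C (a / (2 * a - 1)) = (C a : F[X]) := by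
    rw [← C_mul, r1]
  have c2 : (C (2 * a - 1) : F[X]) = 2 * C a - 1 := by
    rw [C_sub, C_mul, C_1, map_ofNat]
  unfold pb
  rw [e1, Nat.add_sub_cancel, derivative_mul, derivative_X_pow, Nat.add_sub_cancel, hj,
    derivative_pow]
  simp only [derivative_sub, derivative_X, derivative_C, derivative_one, sub_zero, mul_one]
  rw [C_neg, C_1]
  have c3 : (C ((2 : ℕ) : F) : F[X]) = 2 := by
    rw [Nat.cast_ofNat, map_ofNat]
  rw [c3, show 2 - 1 = 1 from rfl, pow_one]
  linear_combination X ^ j * (X - C a) * c1 - X ^ (j + 1) * (X - C a) * c2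

theorem pb_sep {F : Type u} [Field F] (a : F) (ha1 : 1 - a ≠ 0) (hb : 2 * a - 1 ≠ 0)
    {n : ℕ} (hn : 4 ≤ n) (hn1 : ((n - 1 : ℕ) : F) = 0) :
    (MP7fA.pen (pb a n) (X - 1)).Separable := by
  obtain ⟨r1, r2, -⟩ := paramB_rel a hb
  refine pen_sep_of _ (2 * a - 1) hb
    ((a / (2 * a - 1)) ::ₘ a ::ₘ Multiset.replicate (n - 3) 0) ?_ ?_
  · intro ρ hρ
    rw [Multiset.mem_cons, Multiset.mem_cons, Multiset.mem_replicate] at hρ
    rcases hρ with rfl | rfl | ⟨-, rfl⟩
    · intro h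
      rw [h, sub_self] at r2
      exact div_ne_zero ha1 hb r2.symm
    · intro h
      exact ha1 (by rw [h, sub_self])
    · exact zero_ne_one
  · rw [pb_q a hb hn hn1, Multiset.map_cons, Multiset.map_cons, Multiset.prod_cons,
      Multiset.prod_cons, Multiset.map_replicate, Multiset.prod_replicate, C_0, sub_zero]
    ring

/-- The discriminant. -/
theorem disc_pb {Ω : Type*} [Field Ω] (a v : Ω) (ha1 : 1 - a ≠ 0) (hb : 2 * a - 1 ≠ 0)
    {m : ℕ} (hm : 2 ≤ m) (hn1 : ((2 * m - 1 : ℕ) : Ω) = 0)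
    (y : Fin (2 * m) → Ω)
    (hy : pb a (2 * m) + C v * (X - 1) = ∏ i, (X - C (y i))) :
    vV y ^ 2 = (-1) ^ m * (2 * a - 1) ^ (2 * m - 1) * (v ^ (2 * m - 2) *
      (v + (a / (2 * a - 1)) ^ (2 * m - 2) * (4 * a ^ 2 * (1 - a) / (2 * a - 1)))) := by
  obtain ⟨r1, r2, r3⟩ := paramB_rel a hb
  obtain ⟨ρ, hρ⟩ : ∃ ρ, ρ = a / (2 * a - 1) := ⟨_, rfl⟩
  rw [← hρ] at r1 r2 r3 ⊢
  have hdet := prod_deriv _ y hy
  rw [neg_one_pow_Ioi_even] at hdet
  obtain ⟨k, hk⟩ : ∃ k, 2 * m = k + 3 := ⟨2 * m - 3, by omega⟩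
  have ek1 : 2 * m - 1 = k + 2 := by omega
  have ek2 : 2 * m - 2 = k + 1 := by omega
  rw [ek1] at hn1
  have hcast : ((k + 1 : ℕ) : Ω) = -1 := by
    push_cast at hn1 ⊢; linear_combination hn1
  rw [ek2, ek1]
  set G := pb a (2 * m) + C v * (X - 1) with hG
  have hGY : ∀ Y : Ω, G.eval Y = Y ^ (k + 1) * (Y - a) ^ 2 + v * (Y - 1) := by
    intro Y
    rw [hG]; unfold pb
    simp only [eval_add, eval_mul, eval_sub, eval_one, eval_pow, eval_X, eval_C, ek2]
  have hroot : ∀ i, y i ^ (k + 1) * (y i - a) ^ 2 + v * (y i - 1) = 0 := by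
    intro i
    rw [← hGY, hy, eval_prod, Finset.prod_eq_zero (Finset.mem_univ i) (by simp)]
  have hder : ∀ i, (y i - 1) * (derivative G).eval (y i) =
      (2 * a - 1) * (y i ^ k * ((y i - a) * (y i - ρ))) := by
    intro i
    have h1 : (derivative G).eval (y i) = y i ^ k * (y i - a) * (y i + a) + v := by
      rw [hG]; unfold pb
      simp only [derivative_add, derivative_mul, derivative_X_pow, derivative_C, derivative_X,
        derivative_sub, derivative_one, derivative_pow, eval_add, eval_mul, eval_sub, eval_C,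
        eval_pow, eval_X, ek2, eval_one, eval_zero]
      rw [hcast, Nat.add_sub_cancel]
      push_cast
      ring
    rw [h1]
    linear_combination hroot i - (y i ^ k * (y i - a)) * r1 * (-1)
  have hprodall : (∏ i, (y i - 1)) * ∏ i, (derivative G).eval (y i) =
      (2 * a - 1) ^ (2 * m) * ((∏ i, y i) ^ k * ((∏ i, (y i - a)) * ∏ i, (y i - ρ))) := by
    rw [← Finset.prod_mul_distrib, Finset.prod_congr rfl (fun i _ => hder i),
      Finset.prod_mul_distrib, Finset.prod_mul_distrib, Finset.prod_mul_distrib,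
      Finset.prod_pow, Finset.prod_const, Finset.card_univ, Fintype.card_fin]
  have hone : (-1 : Ω) ^ (2 * m) = 1 := by rw [pow_mul]; simp
  rw [prod_eval_neg _ y hy, prod_eval_neg _ y hy, prod_eval_neg _ y hy, hone, one_mul, one_mul,
    one_mul, hGY, hGY, hGY] at hprodall
  have h0 : ∏ i, y i = -v := by
    have h1 := prod_eval_neg _ y hy 0
    simp only [sub_zero] at h1
    rw [h1, hone, one_mul, hGY, zero_pow (by omega)]; ring
  have hodd : (-v) ^ k = -v ^ k := by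
    have : Odd k := by
      rw [Nat.odd_iff]; omega
    exact this.neg_pow v
  have hpk : (2 * a - 1) ^ (2 * m) = (2 * a - 1) ^ (k + 3) := by rw [hk]
  rw [h0, hodd, hdet, sub_self, hpk] at hprodall
  have hf1 : (2 * a - 1) * (ρ ^ (k + 1) * (ρ - a) ^ 2 + v * (ρ - 1)) =
      (1 - a) * (v + ρ ^ (k + 1) * (4 * a ^ 2 * (1 - a) / (2 * a - 1))) := by
    rw [r2, r3]; field_simp; ring
  have hne : (1 - a) ^ 2 ≠ 0 := pow_ne_zero _ ha1
  have hkey : (-1) ^ m * vV y ^ 2 = (2 * a - 1) ^ (k + 2) * (v ^ (k + 1) *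
      (v + ρ ^ (k + 1) * (4 * a ^ 2 * (1 - a) / (2 * a - 1)))) := by
    apply mul_left_cancel₀ hne
    have e5 : (2 * a - 1) ^ (k + 3) = (2 * a - 1) ^ (k + 2) * (2 * a - 1) := pow_succ _ _
    rw [e5] at hprodall
    linear_combination hprodall +
      ((2 * a - 1) ^ (k + 2) * (-v ^ k * (v * (a - 1)))) * hf1
  have hs2 : (-1 : Ω) ^ m * (-1 : Ω) ^ m = 1 := by
    rw [← mul_pow]; simp
  linear_combination (-1) ^ m * hkey - vV y ^ 2 * hs2

end data

theorem nonempty_gaoB (m : ℕ) (hm : 2 ≤ m) (K : Type u) [Field K] (h2 : (2 : K) ≠ 0)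
    (hn1 : ((2 * m - 1 : ℕ) : K) = 0) (a : K) (ha0 : a ≠ 0) (ha1 : 1 - a ≠ 0)
    (hb : 2 * a - 1 ≠ 0) : Nonempty (MP7fA.GAo (2 * m) K) := by
  obtain ⟨r1, r2, r3⟩ := paramB_rel a hb
  have hPm := pb_monic a (n := 2 * m) (by omega)
  have hXdeg : (X - 1 : K[X]).degree = 1 := by
    have := degree_X_sub_C (1 : K)
    rwa [C_1] at this
  have hcast : ∀ (F : Type u) [Field F] (g : K →+* F), ((2 * m - 1 : ℕ) : F) = 0 := by
    intro F _ g
    rw [← map_natCast g, hn1, map_zero]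
  have hne : ∀ (F : Type u) [Field F] (g : K →+* F), 1 - g a ≠ 0 ∧ 2 * g a - 1 ≠ 0 := by
    intro F _ g
    refine ⟨?_, ?_⟩
    · rw [← map_one g, ← map_sub, Ne, map_eq_zero_iff _ g.injective]; exact ha1
    · have : 2 * g a - 1 = g (2 * a - 1) := by
        rw [map_sub, map_mul, map_ofNat, map_one]
      rw [this, Ne, map_eq_zero_iff _ g.injective]; exact hb
  obtain ⟨v1, hv1⟩ : ∃ v1, v1 = -((a / (2 * a - 1)) ^ (2 * m - 2) *
    (4 * a ^ 2 * (1 - a) / (2 * a - 1))) := ⟨_, rfl⟩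
  have hv10 : v1 ≠ 0 := by
    have h4 : (4 : K) ≠ 0 := by
      have : (4 : K) = 2 * 2 := by norm_num
      rw [this]; exact mul_ne_zero h2 h2
    rw [hv1, neg_ne_zero]
    exact mul_ne_zero (pow_ne_zero _ (div_ne_zero ha0 hb))
      (div_ne_zero (mul_ne_zero (mul_ne_zero h4 (pow_ne_zero _ ha0)) ha1) hb)
  have hev : ∀ Y v : K, (pb a (2 * m) + C v * (X - 1)).eval Y =
      Y ^ (2 * m - 2) * (Y - a) ^ 2 + v * (Y - 1) := by
    intro Y v
    unfold pb
    simp only [eval_add, eval_mul, eval_sub, eval_one, eval_pow, eval_X, eval_C]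
  have hEv1 : eval (a / (2 * a - 1)) (pb a (2 * m) + C v1 * (X - 1)) = 0 := by
    rw [hev, r2, r3, hv1]; field_simp; ring
  have hm1 : (-1 : K) ≠ 0 := neg_ne_zero.mpr one_ne_zero
  obtain ⟨c, hc⟩ : ∃ c : K, c = (-1) ^ m * (2 * a - 1) ^ (2 * m - 1) := ⟨_, rfl⟩
  have hc0 : c ≠ 0 := by
    rw [hc]; exact mul_ne_zero (pow_ne_zero _ hm1) (pow_ne_zero _ hb)
  refine ⟨{
    P := pb a (2 * m)
    Q := X - 1
    a1 := c
    a0 := -(c * v1)
    b1 := 0
    b0 := 1
    r := 1 / RatFunc.X ^ (m - 1)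
    h2 := h2
    hab := ?_
    hr := ?_
    monic := hPm.1
    deg := hPm.2
    degQ := ?_
    sep := pb_sep a ha1 hb (by omega) hn1
    sign := ?_
    gal := ?_ }⟩
  · rw [mul_zero, mul_one, sub_zero]; exact hc0
  · exact one_div_ne_zero (pow_ne_zero _ RatFunc.X_ne_zero)
  · rw [hXdeg]; exact_mod_cast (by omega : 1 < 2 * m)
  · intro L _ φ y hinj hy
    obtain ⟨g, hg⟩ : ∃ g : K →+* L, g = φ.comp (algebraMap K (RatFunc K)) := ⟨_, rfl⟩
    have hgC : ∀ c : K, φ (algebraMap K (RatFunc K) c) = g c := by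
      intro c; rw [hg]; rfl
    rw [pen_map, ← hg, map_pb, Polynomial.map_sub, map_X, Polynomial.map_one] at hy
    obtain ⟨g1, g2⟩ := hne L g
    have h := disc_pb (g a) (φ RatFunc.X) g1 g2 hm (hcast L g) y hy
    have hX : φ RatFunc.X ≠ 0 := by
      rw [Ne, map_eq_zero_iff _ φ.injective]; exact RatFunc.X_ne_zero
    have hgv1 : (g a / (2 * g a - 1)) ^ (2 * m - 2) *
        (4 * g a ^ 2 * (1 - g a) / (2 * g a - 1)) = -g v1 := by
      rw [hv1]
      simp only [map_neg, map_mul, map_pow, map_div₀, map_sub, map_one, map_ofNat, neg_neg]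
    have hgc : (-1) ^ m * (2 * g a - 1) ^ (2 * m - 1) = g c := by
      rw [hc]
      simp only [map_neg, map_mul, map_pow, map_sub, map_one, map_ofNat]
    rw [hgv1, hgc] at h
    simp only [map_add, map_mul, hgC, map_one, map_neg, map_pow, map_div₀, map_zero, zero_mul,
      zero_add, mul_one]
    rw [mul_pow, h]
    obtain ⟨x, hx⟩ : ∃ x, x = φ RatFunc.X := ⟨_, rfl⟩
    rw [← hx] at hX ⊢
    have e3 : x ^ (2 * m - 2) = (x ^ (m - 1)) ^ 2 := by rw [← pow_mul]; congr 1; omega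
    have hx1 : x ^ (m - 1) ≠ 0 := pow_ne_zero _ hX
    rw [e3]
    field_simp
  · intro F _ _ L _ _ y hy htop σ
    refine pen_gal_all (pb a (2 * m)) hPm.1 (by rw [hPm.2]; omega) ?_
      (a / (2 * a - 1)) v1 _ (pb_q a hb (by omega) hn1) ?_ ?_ ?_ ?_ F L y hy htop σ
    · unfold pb
      simp only [eval_mul, eval_sub, eval_pow, eval_X, eval_C, one_pow, one_mul]
      exact pow_ne_zero _ ha1
    · have := hEv1
      rw [eval_add, eval_mul, eval_C, eval_sub, eval_X, eval_one] at this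
      exact this
    · intro h
      rw [h, sub_self] at r2
      exact div_ne_zero ha1 hb r2.symm
    · have hu : IsUnit (C (2 * a - 1) : K[X]) := isUnit_C.mpr (isUnit_iff_ne_zero.mpr hb)
      rw [isCoprime_mul_unit_left_right hu]
      refine IsCoprime.mul_right (IsCoprime.pow_right ?_) ?_
      · have := isCoprime_X_sub_C (pb a (2 * m) + C v1 * (X - 1)) 0 (by
          rw [hev, zero_pow (by omega), zero_mul, zero_add, zero_sub, mul_neg, mul_one,
            neg_ne_zero]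
          exact hv10)
        rwa [C_0, sub_zero] at this
      · apply isCoprime_X_sub_C
        rw [hev, sub_self, zero_pow two_ne_zero, mul_zero, zero_add]
        refine mul_ne_zero hv10 ?_
        rw [← neg_ne_zero, neg_sub]; exact ha1
    · intro F _ _
      obtain ⟨g1, g2⟩ := hne F (algebraMap K F)
      rw [map_pb]
      exact pb_sep _ g1 g2 (by omega) (hcast F (algebraMap K F))

/-- Good parameters exist over infinite fields. -/
theorem exists_paramB (K : Type*) [Field K] [Infinite K] (h2 : (2 : K) ≠ 0) :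
    ∃ a : K, a ≠ 0 ∧ 1 - a ≠ 0 ∧ 2 * a - 1 ≠ 0 := by
  classical
  obtain ⟨a, ha⟩ := Infinite.exists_notMem_finset ({0, 1, 1 / 2} : Finset K)
  simp only [Finset.mem_insert, Finset.mem_singleton, not_or] at ha
  refine ⟨a, ha.1, ?_, ?_⟩
  · intro h; exact ha.2.1 (sub_eq_zero.mp h).symm
  · intro h
    apply ha.2.2
    rw [eq_div_iff h2]
    linear_combination h

end MP7fT
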