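import Pool.Agent.Lib.MP_7f581e_ntA.GadgetO
import Pool.Agent.Lib.MP_7f581e_ntT.Gen2

/-!
The pencil `X ^ (n - 1) * (X - a) + v * (X - 1)` for even `n` divisible by the characteristic.
-/

set_option autoImplicit false

universe u

namespace MP7fT

open Polynomial Equiv MP7f

/-- The polynomial. -/
noncomputable def pc {R : Type*} [CommRing R] (a : R) (n : ℕ) : R[X] := X ^ (n - 1) * (X - C a)

theorem map_pc {R S : Type*} [CommRing R] [CommRing S] (g : R →+* S) (a : R) (n : ℕ) :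
    (pc a n).map g = pc (g a) n := by
  simp [pc]

theorem pc_monic {R : Type*} [CommRing R] [Nontrivial R] (a : R) {n : ℕ} (hn : 1 ≤ n) :
    (pc a n).Monic ∧ (pc a n).natDegree = n := by
  have h2 : (X ^ (n - 1) : R[X]).Monic := monic_X_pow _
  have h1 : (X - C a : R[X]).Monic := monic_X_sub_C a
  refine ⟨h2.mul h1, ?_⟩
  unfold pc
  rw [h2.natDegree_mul h1, natDegree_X_pow, natDegree_X_sub_C]
  omega

section data

variable {F : Type*} [Field F]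

/-- The relations between the parameters. -/
theorem param_rel (s : F) (h1 : 1 - s ≠ 0) (h2 : 1 + s ≠ 0) :
    (1 - s)⁻¹ + (1 + s)⁻¹ = 2 * ((1 - s) * (1 + s))⁻¹ ∧
    (1 - s)⁻¹ * (1 + s)⁻¹ = ((1 - s) * (1 + s))⁻¹ ∧
    (1 - s)⁻¹ - ((1 - s) * (1 + s))⁻¹ = s * ((1 - s) * (1 + s))⁻¹ ∧
    (1 + s)⁻¹ - ((1 - s) * (1 + s))⁻¹ = -(s * ((1 - s) * (1 + s))⁻¹) ∧
    (1 - s)⁻¹ - 1 = s * (1 - s)⁻¹ ∧
    (1 + s)⁻¹ - 1 = -(s * (1 + s)⁻¹) ∧
    1 - ((1 - s) * (1 + s))⁻¹ = -(s ^ 2 * ((1 - s) * (1 + s))⁻¹) := by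
  refine ⟨?_, ?_, ?_, ?_, ?_, ?_, ?_⟩ <;> field_simp <;> ring

theorem pc_q (s : F) (h1 : 1 - s ≠ 0) (h2 : 1 + s ≠ 0) {n : ℕ} (hn : 3 ≤ n)
    (hn0 : (n : F) = 0) :
    derivative (pc ((1 - s) * (1 + s))⁻¹ n) * (X - 1) -
      pc ((1 - s) * (1 + s))⁻¹ n * derivative (X - 1) =
      (X - C (1 - s)⁻¹) * (-(X ^ (n - 2) * (X - C (1 + s)⁻¹))) := by
  obtain ⟨r1, r2, -⟩ := param_rel s h1 h2
  obtain ⟨a, ha⟩ : ∃ a, a = ((1 - s) * (1 + s))⁻¹ := ⟨_, rfl⟩
  obtain ⟨p, hp⟩ : ∃ p, p = (1 - s)⁻¹ := ⟨_, rfl⟩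
  obtain ⟨q, hq⟩ : ∃ q, q = (1 + s)⁻¹ := ⟨_, rfl⟩
  rw [← ha, ← hp, ← hq] at r1 r2 ⊢
  obtain ⟨j, rfl⟩ : ∃ j, n = j + 2 := ⟨n - 2, by omega⟩
  have e1 : j + 2 - 1 = j + 1 := by omega
  have hj : ((j + 1 : ℕ) : F) = -1 := by
    push_cast at hn0 ⊢; linear_combination hn0
  unfold pc
  rw [e1, Nat.add_sub_cancel, derivative_mul, derivative_X_pow, Nat.add_sub_cancel, hj]
  simp only [derivative_sub, derivative_X, derivative_C, derivative_one, sub_zero, mul_one]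
  have c1 : C p + C q = 2 * (C a : F[X]) := by
    rw [← C_add, r1, C_mul, map_ofNat]
  have c2 : C p * C q = (C a : F[X]) := by rw [← C_mul, r2]
  rw [C_neg, C_1]
  linear_combination (X ^ (j + 1)) * c1 * (-1) + (X ^ j) * c2

theorem pc_sep {F : Type u} [Field F] (s : F) (hs : s ≠ 0) (h1 : 1 - s ≠ 0) (h2 : 1 + s ≠ 0)
    {n : ℕ} (hn : 3 ≤ n) (hn0 : (n : F) = 0) :
    (MP7fA.pen (pc ((1 - s) * (1 + s))⁻¹ n) (X - 1)).Separable := by
  obtain ⟨-, -, -, -, r5, r6, -⟩ := param_rel s h1 h2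
  refine pen_sep_of _ (-1) (neg_ne_zero.mpr one_ne_zero)
    ((1 - s)⁻¹ ::ₘ (1 + s)⁻¹ ::ₘ Multiset.replicate (n - 2) 0) ?_ ?_
  · intro ρ hρ
    rw [Multiset.mem_cons, Multiset.mem_cons, Multiset.mem_replicate] at hρ
    rcases hρ with rfl | rfl | ⟨-, rfl⟩
    · intro h
      rw [h, sub_self, mul_one] at r5
      exact hs r5.symm
    · intro h
      rw [h, sub_self, mul_one] at r6
      exact neg_ne_zero.mpr hs r6.symm
    · exact zero_ne_one
  · rw [pc_q s h1 h2 hn hn0, Multiset.map_cons, Multiset.map_cons, Multiset.prod_cons,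
      Multiset.prod_cons, Multiset.map_replicate, Multiset.prod_replicate, C_0, sub_zero, C_neg,
      C_1]
    ring

/-- The discriminant. -/
theorem disc_pc {Ω : Type*} [Field Ω] (s v : Ω) (hs : s ≠ 0) (h1 : 1 - s ≠ 0) (h2 : 1 + s ≠ 0)
    {m : ℕ} (hm : 2 ≤ m) (hn0 : ((2 * m : ℕ) : Ω) = 0)
    (y : Fin (2 * m) → Ω)
    (hy : pc ((1 - s) * (1 + s))⁻¹ (2 * m) + C v * (X - 1) = ∏ i, (X - C (y i))) :
    vV y ^ 2 = (-1) ^ m * (v ^ (2 * m - 2) *
      ((v + ((1 - s) * (1 + s))⁻¹ * (1 - s)⁻¹ ^ (2 * m - 2)) *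
        (v + ((1 - s) * (1 + s))⁻¹ * (1 + s)⁻¹ ^ (2 * m - 2)))) := by
  obtain ⟨r1, r2, r3, r4, r5, r6, r7⟩ := param_rel s h1 h2
  have ha0 : ((1 - s) * (1 + s))⁻¹ ≠ 0 := inv_ne_zero (mul_ne_zero h1 h2)
  have hp0 : (1 - s)⁻¹ ≠ 0 := inv_ne_zero h1
  have hq0 : (1 + s)⁻¹ ≠ 0 := inv_ne_zero h2
  obtain ⟨a, ha⟩ : ∃ a, a = ((1 - s) * (1 + s))⁻¹ := ⟨_, rfl⟩
  obtain ⟨p, hp⟩ : ∃ p, p = (1 - s)⁻¹ := ⟨_, rfl⟩
  obtain ⟨q, hq⟩ : ∃ q, q = (1 + s)⁻¹ := ⟨_, rfl⟩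
  rw [← ha] at r1 r2 r3 r4 r7 ha0 hy ⊢
  rw [← hp] at r1 r2 r3 r5 hp0 ⊢
  rw [← hq] at r1 r2 r4 r6 hq0 ⊢
  have hdet := prod_deriv _ y hy
  rw [neg_one_pow_Ioi_even] at hdet
  obtain ⟨k, hk⟩ : ∃ k, 2 * m = k + 2 := ⟨2 * m - 2, by omega⟩
  have ek1 : 2 * m - 1 = k + 1 := by omega
  have ek2 : 2 * m - 2 = k := by omega
  have hcast : ((k + 1 : ℕ) : Ω) = -1 := by
    have : ((k + 1 : ℕ) : Ω) + 1 = ((2 * m : ℕ) : Ω) := by rw [hk]; push_cast; ring
    linear_combination this + hn0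
  rw [ek2]
  set G := pc a (2 * m) + C v * (X - 1) with hG
  have hGY : ∀ Y : Ω, G.eval Y = Y ^ (k + 1) * (Y - a) + v * (Y - 1) := by
    intro Y
    rw [hG]; unfold pc
    simp only [eval_add, eval_mul, eval_sub, eval_one, eval_pow, eval_X, eval_C, ek1]
  have hroot : ∀ i, y i ^ (k + 1) * (y i - a) + v * (y i - 1) = 0 := by
    intro i
    rw [← hGY, hy, eval_prod, Finset.prod_eq_zero (Finset.mem_univ i) (by simp)]
  have hder : ∀ i, (y i - 1) * (derivative G).eval (y i) =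
      -(y i ^ k * ((y i - p) * (y i - q))) := by
    intro i
    have h1 : (derivative G).eval (y i) = a * y i ^ k + v := by
      rw [hG]; unfold pc
      simp only [derivative_add, derivative_mul, derivative_X_pow, derivative_C, derivative_X,
        derivative_sub, derivative_one, eval_add, eval_mul, eval_sub, eval_C, eval_pow, eval_X,
        ek1, eval_one, eval_zero]
      rw [hcast, Nat.add_sub_cancel]
      ring
    rw [h1]
    linear_combination hroot i - (y i ^ (k + 1)) * r1 + (y i ^ k) * r2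
  have hprodall : (∏ i, (y i - 1)) * ∏ i, (derivative G).eval (y i) =
      (∏ i, y i) ^ k * ((∏ i, (y i - p)) * ∏ i, (y i - q)) := by
    rw [← Finset.prod_mul_distrib, Finset.prod_congr rfl (fun i _ => hder i), Finset.prod_neg,
      Finset.prod_mul_distrib, Finset.prod_mul_distrib, Finset.prod_pow, Finset.card_univ,
      Fintype.card_fin]
    have : (-1 : Ω) ^ (2 * m) = 1 := by rw [pow_mul]; simp
    rw [this, one_mul]
  have hone : (-1 : Ω) ^ (2 * m) = 1 := by rw [pow_mul]; simp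
  rw [prod_eval_neg _ y hy, prod_eval_neg _ y hy, prod_eval_neg _ y hy, hone, one_mul, one_mul,
    one_mul, hGY, hGY, hGY] at hprodall
  have h0 : ∏ i, y i = -v := by
    have h1 := prod_eval_neg _ y hy 0
    simp only [sub_zero] at h1
    rw [h1, hone, one_mul, hGY, zero_pow (by omega)]; ring
  have heven : (-v) ^ k = v ^ k := by
    rw [← ek2, show 2 * m - 2 = 2 * (m - 1) by omega, pow_mul, neg_sq, ← pow_mul]
  rw [h0, heven, hdet] at hprodall
  have hf1 : p ^ (k + 1) * (p - a) + v * (p - 1) = s * p * (v + a * p ^ k) := by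
    rw [r3, r5]; ring
  have hf2 : q ^ (k + 1) * (q - a) + v * (q - 1) = -(s * q * (v + a * q ^ k)) := by
    rw [r4, r6]; ring
  rw [hf1, hf2] at hprodall
  have hP1 : (1 : Ω) ^ (k + 1) * (1 - a) + v * (1 - 1) = -(s ^ 2 * a) := by
    rw [one_pow, one_mul, sub_self, mul_zero, add_zero, r7]
  rw [hP1] at hprodall
  have hne : s ^ 2 * a ≠ 0 := mul_ne_zero (pow_ne_zero _ hs) ha0
  have hkey : (-1) ^ m * vV y ^ 2 = v ^ k * ((v + a * p ^ k) * (v + a * q ^ k)) := by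
    apply mul_left_cancel₀ hne
    linear_combination -hprodall + (s ^ 2 * v ^ k * ((v + a * p ^ k) * (v + a * q ^ k))) * r2
  have hs2 : (-1 : Ω) ^ m * (-1 : Ω) ^ m = 1 := by
    rw [← mul_pow]; simp
  linear_combination (-1) ^ m * hkey - vV y ^ 2 * hs2

end data

theorem nonempty_gaoC (m : ℕ) (hm : 2 ≤ m) (K : Type u) [Field K] (h2 : (2 : K) ≠ 0)
    (hn0 : ((2 * m : ℕ) : K) = 0) (s : K) (hs0 : s ≠ 0) (hs1 : 1 - s ≠ 0) (hs2 : 1 + s ≠ 0)
    (hs3 : (1 - s) ^ (2 * m - 2) ≠ (1 + s) ^ (2 * m - 2)) :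
    Nonempty (MP7fA.GAo (2 * m) K) := by
  obtain ⟨r1, r2, r3, r4, r5, r6, r7⟩ := param_rel s hs1 hs2
  have ha0 : ((1 - s) * (1 + s))⁻¹ ≠ 0 := inv_ne_zero (mul_ne_zero hs1 hs2)
  have hp0 : (1 - s)⁻¹ ≠ 0 := inv_ne_zero hs1
  have hq0 : (1 + s)⁻¹ ≠ 0 := inv_ne_zero hs2
  have hPm := pc_monic ((1 - s) * (1 + s))⁻¹ (n := 2 * m) (by omega)
  have hpq : ((1 - s) * (1 + s))⁻¹ * (1 - s)⁻¹ ^ (2 * m - 2) ≠
      ((1 - s) * (1 + s))⁻¹ * (1 + s)⁻¹ ^ (2 * m - 2) := by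
    intro h
    have h3 := mul_left_cancel₀ ha0 h
    rw [inv_pow, inv_pow] at h3
    exact hs3 (inv_injective h3)
  have hXdeg : (X - 1 : K[X]).degree = 1 := by
    have := degree_X_sub_C (1 : K)
    rwa [C_1] at this
  have hcastF : ∀ (F : Type u) [Field F] [Algebra K F], ((2 * m : ℕ) : F) = 0 := by
    intro F _ _
    rw [← map_natCast (algebraMap K F), hn0, map_zero]
  have hmapa : ∀ (F : Type u) [Field F] (g : K →+* F),
      g ((1 - s) * (1 + s))⁻¹ = ((1 - g s) * (1 + g s))⁻¹ := by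
    intro F _ g
    rw [map_inv₀, map_mul, map_sub, map_add, map_one]
  have hne : ∀ (F : Type u) [Field F] (g : K →+* F), g s ≠ 0 ∧ 1 - g s ≠ 0 ∧ 1 + g s ≠ 0 := by
    intro F _ g
    refine ⟨?_, ?_, ?_⟩
    · rw [Ne, map_eq_zero_iff _ g.injective]; exact hs0
    · rw [← map_one g, ← map_sub, Ne, map_eq_zero_iff _ g.injective]; exact hs1
    · rw [← map_one g, ← map_add, Ne, map_eq_zero_iff _ g.injective]; exact hs2
  obtain ⟨v1, hv1⟩ : ∃ v1, v1 = -(((1 - s) * (1 + s))⁻¹ * (1 - s)⁻¹ ^ (2 * m - 2)) := ⟨_, rfl⟩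
  obtain ⟨v2, hv2⟩ : ∃ v2, v2 = -(((1 - s) * (1 + s))⁻¹ * (1 + s)⁻¹ ^ (2 * m - 2)) := ⟨_, rfl⟩
  have hv12 : v1 ≠ v2 := by
    rw [hv1, hv2]; intro h; exact hpq (neg_injective h)
  have hev : ∀ Y v : K, (pc ((1 - s) * (1 + s))⁻¹ (2 * m) + C v * (X - 1)).eval Y =
      Y ^ (2 * m - 1) * (Y - ((1 - s) * (1 + s))⁻¹) + v * (Y - 1) := by
    intro Y v
    unfold pc
    simp only [eval_add, eval_mul, eval_sub, eval_one, eval_pow, eval_X, eval_C]
  have hpow : ∀ Y : K, Y ^ (2 * m - 1) = Y ^ (2 * m - 2) * Y := by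
    intro Y; rw [← pow_succ]; congr 1; omega
  have hEv1 : eval (1 - s)⁻¹ (pc ((1 - s) * (1 + s))⁻¹ (2 * m) + C v1 * (X - 1)) = 0 := by
    rw [hev, hpow, r3, r5, hv1]; ring
  have hEv2 : eval (1 + s)⁻¹ (pc ((1 - s) * (1 + s))⁻¹ (2 * m) + C v1 * (X - 1)) =
      -(s * (1 + s)⁻¹ * (v1 - v2)) := by
    rw [hev, hpow, r4, r6, hv2]; ring
  refine ⟨{
    P := pc ((1 - s) * (1 + s))⁻¹ (2 * m)
    Q := X - 1
    a1 := (-1) ^ m
    a0 := -((-1) ^ m * v1)
    b1 := 1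
    b0 := -v2
    r := 1 / (RatFunc.X ^ (m - 1) * (RatFunc.X - RatFunc.C v2))
    h2 := h2
    hab := ?_
    hr := ?_
    monic := hPm.1
    deg := hPm.2
    degQ := ?_
    sep := pc_sep s hs0 hs1 hs2 (by omega) hn0
    sign := ?_
    gal := ?_ }⟩
  · have : (-1 : K) ^ m * -v2 - -((-1) ^ m * v1) * 1 = (-1) ^ m * (v1 - v2) := by ring
    rw [this]
    exact mul_ne_zero (pow_ne_zero _ (neg_ne_zero.mpr one_ne_zero)) (sub_ne_zero.mpr hv12)
  · exact one_div_ne_zero (mul_ne_zero (pow_ne_zero _ RatFunc.X_ne_zero)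
      (sub_ne_zero.mpr (ratX_ne_C _)))
  · rw [hXdeg]; exact_mod_cast (by omega : 1 < 2 * m)
  · intro L _ φ y hinj hy
    obtain ⟨g, hg⟩ : ∃ g : K →+* L, g = φ.comp (algebraMap K (RatFunc K)) := ⟨_, rfl⟩
    have hgC : ∀ c : K, φ (algebraMap K (RatFunc K) c) = g c := by
      intro c; rw [hg]; rfl
    have hgC' : ∀ c : K, φ (RatFunc.C c) = g c := hgC
    rw [pen_map, ← hg, map_pc, Polynomial.map_sub, map_X, Polynomial.map_one] at hy
    obtain ⟨g0, g1, g2⟩ := hne L g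
    rw [hmapa] at hy
    have hnL : ((2 * m : ℕ) : L) = 0 := by
      rw [← map_natCast g, hn0, map_zero]
    have h := disc_pc (g s) (φ RatFunc.X) g0 g1 g2 hm hnL y hy
    have hX : φ RatFunc.X ≠ 0 := by
      rw [Ne, map_eq_zero_iff _ φ.injective]; exact RatFunc.X_ne_zero
    have hXv2 : φ RatFunc.X - g v2 ≠ 0 := by
      rw [← hgC', ← map_sub, Ne, map_eq_zero_iff _ φ.injective, sub_eq_zero]
      exact ratX_ne_C _
    have hgv1 : ((1 - g s) * (1 + g s))⁻¹ * (1 - g s)⁻¹ ^ (2 * m - 2) = -g v1 := by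
      rw [hv1, map_neg, map_mul, hmapa, map_pow, map_inv₀, map_sub, map_one, neg_neg]
    have hgv2 : ((1 - g s) * (1 + g s))⁻¹ * (1 + g s)⁻¹ ^ (2 * m - 2) = -g v2 := by
      rw [hv2, map_neg, map_mul, hmapa, map_pow, map_inv₀, map_add, map_one, neg_neg]
    rw [hgv1, hgv2] at h
    simp only [map_add, map_mul, hgC, hgC', map_one, map_neg, map_pow, map_div₀, map_sub]
    rw [mul_pow, h]
    obtain ⟨x, hx⟩ : ∃ x, x = φ RatFunc.X := ⟨_, rfl⟩
    rw [← hx] at hX hXv2 ⊢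
    have e3 : x ^ (2 * m - 2) = (x ^ (m - 1)) ^ 2 := by rw [← pow_mul]; congr 1; omega
    have hx1 : x ^ (m - 1) ≠ 0 := pow_ne_zero _ hX
    rw [e3]
    field_simp
    ring
  · intro F _ _ L _ _ y hy htop σ
    refine pen_gal_all (pc ((1 - s) * (1 + s))⁻¹ (2 * m)) hPm.1 (by rw [hPm.2]; omega) ?_
      (1 - s)⁻¹ v1 _ (pc_q s hs1 hs2 (by omega) hn0) ?_ ?_ ?_ ?_ F L y hy htop σ
    · unfold pc
      simp only [eval_mul, eval_sub, eval_pow, eval_X, eval_C, one_pow, one_mul]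
      rw [r7]
      exact neg_ne_zero.mpr (mul_ne_zero (pow_ne_zero _ hs0) ha0)
    · have := hEv1
      rw [eval_add, eval_mul, eval_C, eval_sub, eval_X, eval_one] at this
      exact this
    · intro h
      rw [h, sub_self, mul_one] at r5
      exact hs0 r5.symm
    · refine IsCoprime.neg_right (IsCoprime.mul_right (IsCoprime.pow_right ?_) ?_)
      · have := isCoprime_X_sub_C (pc ((1 - s) * (1 + s))⁻¹ (2 * m) + C v1 * (X - 1)) 0 (by
          rw [hev, zero_pow (by omega), zero_mul, zero_add, zero_sub, mul_neg, mul_one,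
            neg_ne_zero, hv1, neg_ne_zero]
          exact mul_ne_zero ha0 (pow_ne_zero _ hp0))
        rwa [C_0, sub_zero] at this
      · apply isCoprime_X_sub_C
        rw [hEv2]
        exact neg_ne_zero.mpr (mul_ne_zero (mul_ne_zero hs0 hq0) (sub_ne_zero.mpr hv12))
    · intro F _ _
      obtain ⟨g0, g1, g2⟩ := hne F (algebraMap K F)
      rw [map_pc, hmapa]
      exact pc_sep _ g0 g1 g2 (by omega) (hcastF F)

/-- Good parameters exist over infinite fields. -/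
theorem exists_param (m : ℕ) (hm : 2 ≤ m) (K : Type*) [Field K] [Infinite K] (h2 : (2 : K) ≠ 0)
    (hn0 : ((2 * m : ℕ) : K) = 0) :
    ∃ s : K, s ≠ 0 ∧ 1 - s ≠ 0 ∧ 1 + s ≠ 0 ∧ (1 - s) ^ (2 * m - 2) ≠ (1 + s) ^ (2 * m - 2) := by
  set g : K[X] := (1 - X) ^ (2 * m - 2) - (1 + X) ^ (2 * m - 2) with hg
  have hg0 : g ≠ 0 := by
    intro h
    have h1 := congrArg (fun p : K[X] => (derivative p).eval 0) h
    obtain ⟨j, rfl⟩ : ∃ j, m = j + 2 := ⟨m - 2, by omega⟩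
    have e1 : 2 * (j + 2) - 2 = 2 * j + 2 := by omega
    rw [hg, e1] at h1
    simp only [derivative_sub, derivative_pow, derivative_add, derivative_one, derivative_X,
      eval_sub, eval_mul, eval_pow, eval_add, eval_one, eval_X, eval_C, derivative_zero,
      eval_zero] at h1
    have h3 : (2 : K) * 2 = 0 := by
      push_cast at hn0 h1
      simp at h1
      linear_combination h1 + 2 * hn0
    rcases mul_eq_zero.mp h3 with h | h <;> exact h2 h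
  have hne : (X * ((1 - X) * ((1 + X) * g)) : K[X]) ≠ 0 := by
    have a1 : (1 - X : K[X]) ≠ 0 := by
      have := X_sub_C_ne_zero (1 : K)
      rw [C_1] at this
      rw [← neg_ne_zero]; rwa [neg_sub]
    have a2 : (1 + X : K[X]) ≠ 0 := by
      have := X_add_C_ne_zero (1 : K)
      rwa [C_1, add_comm] at this
    exact mul_ne_zero X_ne_zero (mul_ne_zero a1 (mul_ne_zero a2 hg0))
  obtain ⟨s, hs⟩ : ∃ s : K, (X * ((1 - X) * ((1 + X) * g))).eval s ≠ 0 := by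
    by_contra hcon
    push Not at hcon
    exact hne (Polynomial.funext (by intro r; rw [hcon r, eval_zero]))
  rw [eval_mul, eval_mul, eval_mul] at hs
  refine ⟨s, ?_, ?_, ?_, ?_⟩
  · intro h; apply hs; rw [eval_X, h, zero_mul]
  · intro h; apply hs; simp [h]
  · intro h; apply hs
    rw [eval_add, eval_one, eval_X, h]; ring
  · intro h; apply hs
    have : g.eval s = 0 := by
      rw [hg]; simp only [eval_sub, eval_pow, eval_add, eval_one, eval_X]; rw [h, sub_self]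
    rw [this]; ring

end MP7fT
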