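import Pool.Agent.Lib.MP_7f581e_ntT.OddGa
import Pool.Agent.Lib.MP_7f581e_ntT.CaseA
import Pool.Agent.Lib.MP_7f581e_ntT.EvenC
import Pool.Agent.Lib.MP_7f581e_ntT.CaseB

/-!
Symmetric pencils with rational sign field over all infinite fields of characteristic not two.
-/

set_option autoImplicit false

universe u

namespace MP7fT

/-- Symmetric pencils with rational sign field exist over all infinite fields of characteristic
different from two, in every degree at least `5`. -/
theorem nonempty_gao (n : ℕ) (hn : 5 ≤ n) (K : Type u) [Field K] [Infinite K]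
    (h2 : (2 : K) ≠ 0) : Nonempty (MP7fA.GAo n K) := by
  have hpred : ((n - 1 : ℕ) : K) = (n : K) - 1 := by
    rw [Nat.cast_sub (by omega), Nat.cast_one]
  have hpred2 : ((n - 2 : ℕ) : K) = (n : K) - 2 := by
    rw [Nat.cast_sub (by omega), Nat.cast_ofNat]
  rcases Nat.even_or_odd' n with ⟨m, hm | hm⟩
  · by_cases hn0 : (n : K) = 0
    · subst hm
      obtain ⟨s, hs0, hs1, hs2, hs3⟩ := exists_param m (by omega) K h2 hn0
      exact nonempty_gaoC m (by omega) K h2 hn0 s hs0 hs1 hs2 hs3
    · by_cases hn1 : ((n - 1 : ℕ) : K) = 0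
      · subst hm
        obtain ⟨a, ha0, ha1, hb⟩ := exists_paramB K h2
        exact nonempty_gaoB m (by omega) K h2 hn1 a ha0 ha1 hb
      · exact nonempty_gaoA n (by omega) K h2 hn0 hn1
  · by_cases hn2 : ((n - 2 : ℕ) : K) = 0
    · refine nonempty_gaoA n (by omega) K h2 ?_ ?_
      · intro h
        rw [hpred2, h, zero_sub, neg_eq_zero] at hn2
        exact h2 hn2
      · intro h
        rw [hpred2] at hn2
        rw [hpred] at h
        exact one_ne_zero (α := K) (by linear_combination h - hn2)
    · subst hm
      rw [show 2 * m + 1 - 2 = 2 * m - 1 by omega] at hn2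
      exact nonempty_gaoO m (by omega) K h2 hn2

end MP7fT
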