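import Mathlib

/-!
The two families of polynomials.
-/

set_option autoImplicit false

namespace MP7fT

open Polynomial

/-- The family in odd degree. -/
noncomputable def fo {R : Type*} [CommRing R] (v : R) (n : ℕ) : R[X] :=
  X ^ n + X ^ (n - 2) + C v

/-- The family in even degree. -/
noncomputable def fe {R : Type*} [CommRing R] (a b v : R) (n : ℕ) : R[X] :=
  X ^ (n - 1) * (X + C a) + C v * (X + C b)

theorem map_fo {R S : Type*} [CommRing R] [CommRing S] (g : R →+* S) (v : R) (n : ℕ) :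
    (fo v n).map g = fo (g v) n := by
  simp [fo]

theorem map_fe {R S : Type*} [CommRing R] [CommRing S] (g : R →+* S) (a b v : R) (n : ℕ) :
    (fe a b v n).map g = fe (g a) (g b) (g v) n := by
  simp [fe]

theorem fo_monic {R : Type*} [CommRing R] [Nontrivial R] (v : R) {n : ℕ} (hn : 3 ≤ n) :
    (fo v n).Monic ∧ (fo v n).natDegree = n := by
  have h : fo v n = X ^ n + (X ^ (n - 2) + C v) := by unfold fo; ring
  have hd : (X ^ (n - 2) + C v : R[X]).degree < ((n : ℕ) : WithBot ℕ) := by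
    have hb : (X ^ (n - 2) + C v : R[X]).degree ≤ ((n - 2 : ℕ) : WithBot ℕ) := by
      refine degree_add_le_of_degree_le (degree_X_pow_le _) ?_
      exact degree_C_le.trans (by exact_mod_cast (by omega : 0 ≤ n - 2))
    exact lt_of_le_of_lt hb (by exact_mod_cast (by omega : n - 2 < n))
  constructor
  · rw [h]; exact monic_X_pow_add (by exact_mod_cast hd)
  · rw [h, natDegree_add_eq_left_of_degree_lt, natDegree_X_pow]
    rw [degree_X_pow]; exact_mod_cast hd

theorem fe_monic {R : Type*} [CommRing R] [Nontrivial R] (a b v : R) {n : ℕ} (hn : 3 ≤ n) :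
    (fe a b v n).Monic ∧ (fe a b v n).natDegree = n := by
  have h : fe a b v n = X ^ n + (C a * X ^ (n - 1) + (C v * X + C (v * b))) := by
    obtain ⟨k, rfl⟩ : ∃ k, n = k + 1 := ⟨n - 1, by omega⟩
    unfold fe
    simp only [Nat.add_sub_cancel, C_mul]
    ring
  have hd : (C a * X ^ (n - 1) + (C v * X + C (v * b)) : R[X]).degree <
      ((n : ℕ) : WithBot ℕ) := by
    have hb : (C a * X ^ (n - 1) + (C v * X + C (v * b)) : R[X]).degree ≤
        ((n - 1 : ℕ) : WithBot ℕ) := by
      refine degree_add_le_of_degree_le (degree_C_mul_X_pow_le _ _) ?_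
      have h1 : (C v * X + C (v * b) : R[X]).degree ≤ 1 := by compute_degree
      exact h1.trans (by exact_mod_cast (by omega : 1 ≤ n - 1))
    exact lt_of_le_of_lt hb (by exact_mod_cast (by omega : n - 1 < n))
  constructor
  · rw [h]; exact monic_X_pow_add (by exact_mod_cast hd)
  · rw [h, natDegree_add_eq_left_of_degree_lt, natDegree_X_pow]
    rw [degree_X_pow]; exact_mod_cast hd

theorem cast_odd {R : Type*} [CommRing R] [CharP R 2] {n : ℕ} (hn : n % 2 = 1) :
    (n : R) = 1 := by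
  obtain ⟨m, rfl⟩ : ∃ m, n = 2 * m + 1 := ⟨n / 2, by omega⟩
  push_cast
  rw [CharTwo.two_eq_zero]; ring

theorem cast_even {R : Type*} [CommRing R] [CharP R 2] {n : ℕ} (hn : n % 2 = 0) :
    (n : R) = 0 := by
  obtain ⟨m, rfl⟩ : ∃ m, n = 2 * m := ⟨n / 2, by omega⟩
  push_cast
  rw [CharTwo.two_eq_zero]; ring

theorem fo_derivative {R : Type*} [CommRing R] [CharP R 2] (v : R) {n : ℕ} (hn : 3 ≤ n)
    (hodd : n % 2 = 1) : derivative (fo v n) = X ^ (n - 1) + X ^ (n - 3) := by
  unfold fo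
  have e1 : n - 2 - 1 = n - 3 := by omega
  simp only [derivative_add, derivative_X_pow, derivative_C, add_zero]
  rw [e1, cast_odd hodd, cast_odd (R := R) (n := n - 2) (by omega)]
  simp

theorem fo_rel {R : Type*} [CommRing R] [CharP R 2] (v : R) {n : ℕ} (hn : 3 ≤ n)
    (hodd : n % 2 = 1) : X * derivative (fo v n) + fo v n = C v := by
  rw [fo_derivative v hn hodd]
  have two0 : (2 : R[X]) = 0 := CharTwo.two_eq_zero
  obtain ⟨k, rfl⟩ : ∃ k, n = k + 3 := ⟨n - 3, by omega⟩
  unfold fo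
  have e1 : k + 3 - 1 = k + 2 := by omega
  have e2 : k + 3 - 2 = k + 1 := by omega
  have e3 : k + 3 - 3 = k := by omega
  rw [e1, e2, e3]
  linear_combination (X ^ (k + 3) + X ^ (k + 1)) * two0

theorem fo_separable {K : Type*} [Field K] [CharP K 2] (v : K) (hv : v ≠ 0) {n : ℕ} (hn : 3 ≤ n)
    (hodd : n % 2 = 1) : (fo v n).Separable := by
  refine ⟨C v⁻¹, C v⁻¹ * X, ?_⟩
  have h := fo_rel v hn hodd
  have h1 : C v⁻¹ * C v = (1 : K[X]) := by rw [← C_mul, inv_mul_cancel₀ hv, C_1]
  linear_combination C v⁻¹ * h + h1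

theorem fe_derivative {R : Type*} [CommRing R] [CharP R 2] (a b v : R) {n : ℕ} (hn : 3 ≤ n)
    (heven : n % 2 = 0) : derivative (fe a b v n) = C a * X ^ (n - 2) + C v := by
  have two0 : (2 : R[X]) = 0 := CharTwo.two_eq_zero
  unfold fe
  have e1 : n - 1 - 1 = n - 2 := by omega
  simp only [derivative_add, derivative_mul, derivative_X_pow, derivative_C, derivative_X, add_zero,
    mul_one, zero_mul, zero_add]
  rw [e1, cast_odd (R := R) (n := n - 1) (by omega)]
  obtain ⟨k, rfl⟩ : ∃ k, n = k + 2 := ⟨n - 2, by omega⟩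
  have e2 : k + 2 - 1 = k + 1 := by omega
  have e3 : k + 2 - 2 = k := by omega
  rw [e2, e3]
  simp only [map_one, one_mul]
  linear_combination X ^ (k + 1) * two0

theorem fe_rel {R : Type*} [CommRing R] [CharP R 2] (s v : R) {n : ℕ} (hn : 3 ≤ n)
    (heven : n % 2 = 0) : (X + 1) * derivative (fe (s ^ 2) 1 v n) - fe (s ^ 2) 1 v n =
      X ^ (n - 2) * (X - C s) ^ 2 := by
  rw [fe_derivative _ _ _ hn heven]
  have two0 : (2 : R[X]) = 0 := CharTwo.two_eq_zero
  obtain ⟨k, rfl⟩ : ∃ k, n = k + 2 := ⟨n - 2, by omega⟩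
  unfold fe
  have e2 : k + 2 - 1 = k + 1 := by omega
  have e3 : k + 2 - 2 = k := by omega
  rw [e2, e3]
  simp only [map_one, map_pow]
  linear_combination (C s * X ^ (k + 1) - X ^ (k + 2)) * two0

theorem isCoprime_X_sub_C {K : Type*} [Field K] (f : K[X]) (a : K) (h : f.eval a ≠ 0) :
    IsCoprime f (X - C a) := by
  have h1 : f = (X - C a) * (f /ₘ (X - C a)) + C (f.eval a) := by
    conv_lhs => rw [← modByMonic_add_div f (X - C a), modByMonic_X_sub_C_eq_C_eval]
    ring
  have h2 : C (f.eval a)⁻¹ * C (f.eval a) = (1 : K[X]) := by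
    rw [← C_mul, inv_mul_cancel₀ h, C_1]
  refine ⟨C (f.eval a)⁻¹, -(C (f.eval a)⁻¹ * (f /ₘ (X - C a))), ?_⟩
  linear_combination C (f.eval a)⁻¹ * h1 + h2

theorem fe_separable {K : Type*} [Field K] [CharP K 2] (s v : K) (hv : v ≠ 0) (hs1 : s ≠ 1)
    {n : ℕ} (hvs : v ≠ s ^ n) (hn : 3 ≤ n)
    (heven : n % 2 = 0) : (fe (s ^ 2) 1 v n).Separable := by
  have two0 : (2 : K) = 0 := CharTwo.two_eq_zero
  set f := fe (s ^ 2) 1 v n with hf
  have h0 : f.eval 0 ≠ 0 := by
    rw [hf]; unfold fe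
    simp only [eval_add, eval_mul, eval_pow, eval_X, eval_C]
    rw [zero_pow (by omega)]
    simpa using hv
  have h1 : f.eval s ≠ 0 := by
    have : f.eval s = (s - 1) * (v - s ^ n) := by
      rw [hf]; unfold fe
      simp only [eval_add, eval_mul, eval_pow, eval_X, eval_C]
      obtain ⟨k, rfl⟩ : ∃ k, n = k + 1 := ⟨n - 1, by omega⟩
      rw [Nat.add_sub_cancel]
      linear_combination (v + s ^ (k + 2)) * two0
    rw [this]
    exact mul_ne_zero (sub_ne_zero.mpr hs1) (sub_ne_zero.mpr hvs)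
  have h2 : IsCoprime f (X ^ (n - 2) * (X - C s) ^ 2) := by
    refine IsCoprime.mul_right (IsCoprime.pow_right ?_)
      (IsCoprime.pow_right (isCoprime_X_sub_C f s h1))
    have := isCoprime_X_sub_C f 0 h0
    rwa [C_0, sub_zero] at this
  rw [← fe_rel s v hn heven] at h2
  have h3 : IsCoprime f ((X + 1) * derivative f) := by
    have := h2.add_mul_left_right (1 : K[X])
    rwa [mul_one, sub_add_cancel] at this
  exact h3.of_mul_right_right

end MP7fT
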