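import Pool.Agent.Lib.MP_7f581e_ntT.Eta
import Pool.Agent.Lib.MP_7f581e_ntT.Pol

/-!
The discriminant in even degree.
-/

set_option autoImplicit false

universe u

namespace MP7fT

open Polynomial MP7f

/-- Half of the power sums of two elements with sum `2 * S` and product `P`. -/
def qq {R : Type*} [CommRing R] (S P : R) : ℕ → R
  | 0 => 1
  | 1 => S
  | (k + 2) => 2 * S * qq S P (k + 1) - P * qq S P k

theorem qq_succ {R : Type*} [CommRing R] (S P : R) (k : ℕ) :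
    qq S P (k + 2) = 2 * S * qq S P (k + 1) - P * qq S P k := rfl

theorem map_qq {R R' : Type*} [CommRing R] [CommRing R'] (g : R →+* R') (S P : R) (k : ℕ) :
    g (qq S P k) = qq (g S) (g P) k := by
  induction k using Nat.strong_induction_on with
  | _ k ih =>
    match k, ih with
    | 0, _ => simp [qq]
    | 1, _ => simp [qq]
    | (k + 2), ih =>
      rw [qq_succ, qq_succ, map_sub, map_mul, map_mul, map_mul, map_ofNat,
        ih (k + 1) (by omega), ih k (by omega)]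

theorem qq_sum {R : Type*} [CommRing R] (S P Y1 Y2 : R) (h1 : Y1 + Y2 = 2 * S)
    (h2 : Y1 * Y2 = P) (k : ℕ) : Y1 ^ k + Y2 ^ k = 2 * qq S P k := by
  induction k using Nat.strong_induction_on with
  | _ k ih =>
    match k, ih with
    | 0, _ => simp only [pow_zero, qq]; norm_num
    | 1, _ => simp only [pow_one, qq]; exact h1
    | (k + 2), ih =>
      have e1 := ih (k + 1) (by omega)
      have e2 := ih k (by omega)
      rw [qq_succ]
      linear_combination (2 * S) * e1 - P * e2 - (Y1 ^ k + Y2 ^ k) * h2 +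
        (Y1 ^ (k + 1) + Y2 ^ (k + 1)) * h1

/-- The closed formula for the discriminant. -/
theorem disc_fe {Ω : Type*} [Field Ω] [CharZero Ω] [IsAlgClosed Ω] (s v : Ω) (hs : s ^ 2 ≠ 1)
    {m : ℕ} (hm : 2 ≤ m) (y : Fin (2 * m) → Ω)
    (hy : fe ((2 * m - 1 : Ω) * s ^ 2) (2 * m - 1 : Ω) v (2 * m) = ∏ i, (X - C (y i))) :
    vV y ^ 2 = -((-1) ^ m * (v ^ (2 * m - 2) * (2 * m - 1 : Ω) ^ (2 * m - 1) *
      (((2 * m - 1 : Ω) ^ 2 * s ^ 2) ^ (2 * m - 1) * s ^ 2 +
        2 * v * (2 * m * qq (-(m + (m - 1) * s ^ 2)) ((2 * m - 1 : Ω) ^ 2 * s ^ 2) (2 * m - 1) +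
          ((2 * m - 1 : Ω) ^ 2 * s ^ 2) *
            qq (-(m + (m - 1) * s ^ 2)) ((2 * m - 1 : Ω) ^ 2 * s ^ 2) (2 * m - 2)) + v ^ 2))) := by
  have hN0 : (2 * (m : Ω) - 1) ≠ 0 := by
    have : ((2 * m - 1 : ℕ) : Ω) ≠ 0 := by
      rw [Nat.cast_ne_zero]; omega
    rw [Nat.cast_sub (by omega)] at this
    push_cast at this; exact this
  set N : Ω := 2 * (m : Ω) - 1 with hN
  set P : Ω := N ^ 2 * s ^ 2 with hP
  set S : Ω := -(m + (m - 1) * s ^ 2) with hS
  clear_value N P S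
  obtain ⟨δ, hδ⟩ := IsAlgClosed.exists_pow_nat_eq (S ^ 2 - P) (n := 2) (by norm_num)
  obtain ⟨Y1, hY1⟩ : ∃ Y1, Y1 = S + δ := ⟨_, rfl⟩
  obtain ⟨Y2, hY2⟩ : ∃ Y2, Y2 = S - δ := ⟨_, rfl⟩
  have hsum : Y1 + Y2 = 2 * S := by rw [hY1, hY2]; ring
  have hprod : Y1 * Y2 = P := by rw [hY1, hY2]; linear_combination -hδ
  have hdet := prod_deriv _ y hy
  rw [neg_one_pow_Ioi_even] at hdet
  set G := fe (N * s ^ 2) N v (2 * m) with hG
  obtain ⟨k, hk⟩ : ∃ k, 2 * m = k + 2 := ⟨2 * m - 2, by omega⟩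
  have ek1 : 2 * m - 1 = k + 1 := by omega
  have ek2 : 2 * m - 2 = k := by omega
  have hcastk : ((k + 1 : ℕ) : Ω) = N := by
    rw [← ek1, Nat.cast_sub (by omega), hN]; push_cast; ring
  rw [ek1, ek2]
  have hroot : ∀ i, y i ^ (k + 1) * (y i + N * s ^ 2) + v * (y i + N) = 0 := by
    intro i
    have h1 := congrArg (eval (y i)) hy
    rw [eval_prod, Finset.prod_eq_zero (Finset.mem_univ i) (by simp), hG] at h1
    unfold fe at h1
    simpa [ek1] using h1
  have hder : ∀ i, (y i - -N) * (derivative G).eval (y i) =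
      N * (y i ^ k * ((y i - Y1) * (y i - Y2))) := by
    intro i
    have h1 : (derivative G).eval (y i) =
        N * y i ^ k * (y i + N * s ^ 2) + y i ^ (k + 1) + v := by
      rw [hG]; unfold fe
      simp only [derivative_add, derivative_mul, derivative_X_pow, derivative_C, derivative_X,
        eval_add, eval_mul, eval_C, eval_pow, eval_X, ek1, eval_one, eval_zero]
      rw [hcastk, Nat.add_sub_cancel]
      ring
    rw [h1]
    have h2 := hroot i
    have h3 : (y i - Y1) * (y i - Y2) = y i ^ 2 - 2 * S * y i + P := by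
      linear_combination (-y i) * hsum + hprod
    rw [h3]
    have hNS : (N + 1) * N + (N - 1) * (N * s ^ 2) = -(2 * N * S) := by
      rw [hS, hN]; ring
    linear_combination h2 + (y i ^ (k + 1)) * hNS + (N * y i ^ k) * hP.symm
  have hprodall : (∏ i, (y i - -N)) * ∏ i, (derivative G).eval (y i) =
      N ^ (2 * m) * ((∏ i, y i) ^ k * ((∏ i, (y i - Y1)) * ∏ i, (y i - Y2))) := by
    rw [← Finset.prod_mul_distrib, Finset.prod_congr rfl (fun i _ => hder i),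
      Finset.prod_mul_distrib, Finset.prod_mul_distrib, Finset.prod_mul_distrib,
      Finset.prod_const, Finset.card_univ, Fintype.card_fin, Finset.prod_pow]
  have hone : (-1 : Ω) ^ (2 * m) = 1 := by rw [pow_mul]; simp
  rw [prod_eval_neg _ y hy, prod_eval_neg _ y hy, prod_eval_neg _ y hy, hone, one_mul, one_mul,
    one_mul] at hprodall
  have h0 : ∏ i, y i = v * N := by
    have h1 := prod_eval_neg _ y hy 0
    simp only [sub_zero] at h1
    rw [h1, hone, one_mul, hG]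
    unfold fe
    simp only [eval_add, eval_mul, eval_pow, eval_X, eval_C, ek1]
    rw [zero_pow (by omega)]; ring
  rw [h0] at hprodall
  have hodd : (-N) ^ (k + 1) = -N ^ (k + 1) := by
    apply Odd.neg_pow
    rw [← ek1]; exact ⟨m - 1, by omega⟩
  have hGN : G.eval (-N) = -(N ^ (k + 2) * (s ^ 2 - 1)) := by
    rw [hG]; unfold fe
    simp only [eval_add, eval_mul, eval_pow, eval_X, eval_C, ek1]
    rw [hodd]; ring
  have hGY : ∀ Y : Ω, G.eval Y = Y ^ (k + 1) * (Y + N * s ^ 2) + v * (Y + N) := by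
    intro Y
    rw [hG]; unfold fe
    simp only [eval_add, eval_mul, eval_pow, eval_X, eval_C, ek1]
  rw [hGN, hGY, hGY] at hprodall
  have q0 := qq_sum S P Y1 Y2 hsum hprod k
  have q1 := qq_sum S P Y1 Y2 hsum hprod (k + 1)
  have hNN : N + 2 * S + N * s ^ 2 = s ^ 2 - 1 := by rw [hS, hN]; ring
  have hNS2 : N * s ^ 2 + S = m * (s ^ 2 - 1) := by rw [hS, hN]; ring
  have hFF : (Y1 ^ (k + 1) * (Y1 + N * s ^ 2) + v * (Y1 + N)) *
      (Y2 ^ (k + 1) * (Y2 + N * s ^ 2) + v * (Y2 + N)) =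
      N * (s ^ 2 - 1) * (P ^ (k + 1) * s ^ 2 +
        2 * v * (2 * m * qq S P (k + 1) + P * qq S P k) + v ^ 2) := by
    have hA : (Y1 + N * s ^ 2) * (Y2 + N * s ^ 2) = N * s ^ 2 * (s ^ 2 - 1) := by
      linear_combination hprod + (N * s ^ 2) * hsum + N * s ^ 2 * hNN + hP
    have hB : (Y1 + N) * (Y2 + N) = N * (s ^ 2 - 1) := by
      linear_combination hprod + N * hsum + N * hNN + hP
    have hPk : (Y1 * Y2) ^ (k + 1) = P ^ (k + 1) := by rw [hprod]
    have hC : Y1 ^ (k + 1) * (Y1 + N * s ^ 2) * (Y2 + N) +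
        Y2 ^ (k + 1) * (Y2 + N * s ^ 2) * (Y1 + N) =
        N * (s ^ 2 - 1) * (2 * (2 * m * qq S P (k + 1) + P * qq S P k)) := by
      have c1 : (Y1 + N * s ^ 2) * (Y2 + N) = 2 * P + N * Y1 + N * s ^ 2 * Y2 := by
        linear_combination hprod - hP
      have c2 : (Y2 + N * s ^ 2) * (Y1 + N) = 2 * P + N * Y2 + N * s ^ 2 * Y1 := by
        linear_combination hprod - hP
      have c3 : Y1 ^ (k + 2) + Y2 ^ (k + 2) = 2 * (2 * S * qq S P (k + 1) - P * qq S P k) := by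
        rw [← qq_succ]; exact qq_sum S P Y1 Y2 hsum hprod (k + 2)
      have c4 : 2 * P + 2 * N * S = 2 * N * (m * (s ^ 2 - 1)) := by
        rw [← hNS2, hP]; ring
      have c5 : Y1 ^ (k + 1) * (Y1 + N * s ^ 2) * (Y2 + N) +
          Y2 ^ (k + 1) * (Y2 + N * s ^ 2) * (Y1 + N) =
          2 * P * (Y1 ^ (k + 1) + Y2 ^ (k + 1)) + N * (Y1 ^ (k + 2) + Y2 ^ (k + 2)) +
          N * s ^ 2 * P * (Y1 ^ k + Y2 ^ k) := by
        linear_combination Y1 ^ (k + 1) * c1 + Y2 ^ (k + 1) * c2 +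
          N * s ^ 2 * (Y1 ^ k + Y2 ^ k) * hprod
      rw [c5, c3, q0, q1]
      linear_combination (2 * qq S P (k + 1)) * c4
    linear_combination (Y1 * Y2) ^ (k + 1) * hA + N * s ^ 2 * (s ^ 2 - 1) * hPk + v * hC +
      v ^ 2 * hB
  rw [hFF, hdet] at hprodall
  have hne : N ^ (k + 2) * (s ^ 2 - 1) ≠ 0 :=
    mul_ne_zero (pow_ne_zero _ hN0) (sub_ne_zero.mpr hs)
  have hkey : (-1) ^ m * vV y ^ 2 = -(v ^ k * N ^ (k + 1) * (P ^ (k + 1) * s ^ 2 +
        2 * v * (2 * m * qq S P (k + 1) + P * qq S P k) + v ^ 2)) := by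
    apply mul_left_cancel₀ hne
    have hNk : N ^ (2 * m) = N ^ (k + 2) := by rw [hk]
    rw [hNk, mul_pow] at hprodall
    linear_combination -hprodall
  have hs2 : (-1 : Ω) ^ m * (-1 : Ω) ^ m = 1 := by
    rw [← mul_pow]; simp
  linear_combination (-1) ^ m * hkey - vV y ^ 2 * hs2

/-- The constant of the sign character. -/
def cE (m : ℕ) : ℕ := if m % 4 ≤ 1 then 0 else 1

/-- The last term in the congruence for the discriminant. -/
def uE {R : Type*} [CommRing R] (s : R) (m : ℕ) : R :=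
  if m % 2 = 0 then s ^ (2 * m) + s ^ (2 * m + 2) else s ^ (2 * m - 2)

theorem qq_cong {Q : Type*} [CommRing Q] (h8 : (8 : Q) = 0) (S P : Q) (j : ℕ) :
    2 * qq S P (2 * j + 1) = 2 * (2 * j + 1) * S * (-P) ^ j ∧
    2 * qq S P (2 * j + 2) = 2 * (-P) ^ (j + 1) + 4 * (j + 1) * S ^ 2 * (-P) ^ j := by
  induction j with
  | zero =>
    constructor
    · simp [qq]
    · simp [qq]; ring
  | succ j ih =>
    obtain ⟨h1, h2⟩ := ih
    have e1 : 2 * (j + 1) + 1 = (2 * j + 1) + 2 := by ring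
    have e2 : 2 * (j + 1) + 2 = (2 * j + 2) + 2 := by ring
    have h3 : 2 * qq S P (2 * (j + 1) + 1) = 2 * (2 * ((j + 1 : ℕ) : Q) + 1) * S * (-P) ^ (j + 1) := by
      rw [e1, qq_succ]
      push_cast
      linear_combination (2 * S) * h2 - P * h1 + ((j + 1) * S ^ 3 * (-P) ^ j) * h8
    refine ⟨h3, ?_⟩
    rw [e2, qq_succ]
    have e3 : 2 * j + 2 + 1 = 2 * (j + 1) + 1 := by ring
    rw [e3]
    push_cast at h3 ⊢
    linear_combination (2 * S) * h3 - P * h2 + ((j + 1) * S ^ 2 * (-P) ^ (j + 1)) * h8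

/-- The congruence for the discriminant. -/
theorem cong_fe {Q : Type*} [CommRing Q] (h8 : (8 : Q) = 0) (s v : Q) {m : ℕ} (hm : 2 ≤ m) :
    -((-1) ^ m * (v ^ (2 * m - 2) * (2 * m - 1 : Q) ^ (2 * m - 1) *
      (((2 * m - 1 : Q) ^ 2 * s ^ 2) ^ (2 * m - 1) * s ^ 2 +
        2 * v * (2 * m * qq (-(m + (m - 1) * s ^ 2)) ((2 * m - 1 : Q) ^ 2 * s ^ 2) (2 * m - 1) +
          ((2 * m - 1 : Q) ^ 2 * s ^ 2) *
            qq (-(m + (m - 1) * s ^ 2)) ((2 * m - 1 : Q) ^ 2 * s ^ 2) (2 * m - 2)) + v ^ 2))) =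
    (v ^ (m - 1) * (v + s ^ (2 * m))) ^ 2 +
      4 * (v ^ (2 * m - 2) * (cE m * (v ^ 2 + s ^ (4 * m)) + v * uE s m)) := by
  have hsq : (2 * (m : Q) - 1) ^ 2 = 1 := by
    rcases Nat.even_or_odd' m with ⟨k, rfl | rfl⟩
    · push_cast
      linear_combination (k * (2 * k - 1) : Q) * h8
    · push_cast
      linear_combination (k * (2 * k + 1) : Q) * h8
  rw [hsq, one_mul]
  have h1 : (2 * (m : Q) - 1) ^ (2 * m - 1) = 2 * m - 1 := by
    obtain ⟨j, rfl⟩ : ∃ j, m = j + 1 := ⟨m - 1, by omega⟩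
    have : 2 * (j + 1) - 1 = 2 * j + 1 := by omega
    rw [this, pow_succ, pow_mul, hsq, one_pow, one_mul]
  rw [h1]
  have h4 : -((-1 : Q) ^ m * (2 * m - 1)) = 1 + 4 * cE m := by
    obtain ⟨k, i, hi, rfl⟩ : ∃ k i, i < 4 ∧ m = 4 * k + i := ⟨m / 4, m % 4, by omega, by omega⟩
    have e1 : (-1 : Q) ^ (4 * k + i) = (-1) ^ i := by
      rw [pow_add, pow_mul]; norm_num
    rw [e1]
    interval_cases i
    · have e2 : cE (4 * k + 0) = 0 := by unfold cE; rw [if_pos (by omega)]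
      rw [e2]; push_cast; linear_combination (-k : Q) * h8
    · have e2 : cE (4 * k + 1) = 0 := by unfold cE; rw [if_pos (by omega)]
      rw [e2]; push_cast; linear_combination (k : Q) * h8
    · have e2 : cE (4 * k + 2) = 1 := by unfold cE; rw [if_neg (by omega)]
      rw [e2]; push_cast; linear_combination (-k - 1 : Q) * h8
    · have e2 : cE (4 * k + 3) = 1 := by unfold cE; rw [if_neg (by omega)]
      rw [e2]; push_cast; linear_combination (k : Q) * h8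
  have hW : 2 * (2 * m * qq (-(m + (m - 1) * s ^ 2)) (s ^ 2) (2 * m - 1) +
      s ^ 2 * qq (-(m + (m - 1) * s ^ 2)) (s ^ 2) (2 * m - 2)) =
      2 * s ^ (2 * m) + 4 * uE s m := by
    obtain ⟨j, rfl⟩ : ∃ j, m = j + 2 := ⟨m - 2, by omega⟩
    obtain ⟨S, hS⟩ : ∃ S : Q, S = -(((j + 2 : ℕ) : Q) + (((j + 2 : ℕ) : Q) - 1) * s ^ 2) := ⟨_, rfl⟩
    rw [← hS]
    have e1 : 2 * (j + 2) - 1 = 2 * (j + 1) + 1 := by omega
    have e2 : 2 * (j + 2) - 2 = 2 * j + 2 := by omega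
    rw [e1, e2]
    have q1 := (qq_cong h8 S (s ^ 2) (j + 1)).1
    have q2 := (qq_cong h8 S (s ^ 2) j).2
    unfold uE
    rcases Nat.even_or_odd' j with ⟨i, rfl | rfl⟩
    · rw [if_pos (by omega)]
      have hT : (-(s ^ 2)) ^ (2 * i) = s ^ (4 * i) := by
        rw [pow_mul, neg_sq, ← pow_mul, ← pow_mul]; congr 1; ring
      have hT1 : (-(s ^ 2)) ^ (2 * i + 1) = -(s ^ 2 * s ^ (4 * i)) := by
        rw [pow_succ, hT]; ring
      rw [hT1] at q1 q2
      rw [hT] at q2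
      have hSS : 4 * S ^ 2 = 4 * s ^ 4 := by
        rw [hS]; push_cast
        linear_combination (2 * (i + 1) ^ 2 + (2 * i + 2) * (2 * i + 1) * s ^ 2 +
          2 * i * (i + 1) * s ^ 4 : Q) * h8
      have e3 : s ^ (2 * (2 * i + 2)) = s ^ (4 * i) * s ^ 4 := by rw [← pow_add]; congr 1; ring
      have e4 : s ^ (2 * (2 * i + 2) + 2) = s ^ (4 * i) * s ^ 6 := by rw [← pow_add]; congr 1; ring
      rw [e3, e4]
      set T := s ^ (4 * i)
      push_cast at q1 q2 ⊢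
      linear_combination (2 * (2 * i + 2) : Q) * q1 + s ^ 2 * q2 +
        (-(i + 1) * (4 * i + 3) * S * s ^ 2 * T + i * s ^ 6 * T - s ^ 4 * T : Q) * h8 +
        ((2 * i + 1) * s ^ 2 * T : Q) * hSS
    · rw [if_neg (by omega)]
      have hT : (-(s ^ 2)) ^ (2 * i + 1) = -(s ^ 2 * s ^ (4 * i)) := by
        rw [pow_succ, pow_mul, neg_sq, ← pow_mul, ← pow_mul,
          show 2 * 2 * i = 4 * i by ring]; ring
      have hT1 : (-(s ^ 2)) ^ (2 * i + 1 + 1) = s ^ 4 * s ^ (4 * i) := by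
        rw [pow_succ, hT]; ring
      rw [hT1] at q1 q2
      rw [hT] at q2
      have hSS : 4 * S = 4 := by
        rw [hS]; push_cast
        linear_combination (-i - 2 - (i + 1) * s ^ 2 : Q) * h8
      have e3 : s ^ (2 * (2 * i + 1 + 2)) = s ^ (4 * i) * s ^ 6 := by rw [← pow_add]; congr 1; ring
      have e4 : s ^ (2 * (2 * i + 1 + 2) - 2) = s ^ (4 * i) * s ^ 4 := by
        rw [← pow_add]; congr 1; omega
      rw [e3, e4]
      set T := s ^ (4 * i)
      push_cast at q1 q2 ⊢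
      linear_combination (2 * (2 * i + 3) : Q) * q1 + s ^ 2 * q2 +
        ((4 * i ^ 2 + 11 * i + 7) * s ^ 4 * T - (i + 1) * S ^ 2 * s ^ 4 * T : Q) * h8 +
        ((2 * i + 3) * (4 * i + 5) * s ^ 4 * T : Q) * hSS
  set q1 := qq (-(m + (m - 1) * s ^ 2)) (s ^ 2) (2 * m - 1)
  set q2 := qq (-(m + (m - 1) * s ^ 2)) (s ^ 2) (2 * m - 2)
  have e5 : (s ^ 2) ^ (2 * m - 1) * s ^ 2 = s ^ (4 * m) := by
    rw [← pow_mul, ← pow_add]; congr 1; omega
  have e6 : (s ^ (2 * m)) ^ 2 = s ^ (4 * m) := by rw [← pow_mul]; congr 1; ring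
  have e7 : (v ^ (m - 1)) ^ 2 = v ^ (2 * m - 2) := by rw [← pow_mul]; congr 1; omega
  rw [mul_pow, e7, e5]
  set V := v ^ (2 * m - 2)
  have h5 : (4 * (cE m : Q)) * (2 * (2 * m * q1 + s ^ 2 * q2)) = 0 := by
    linear_combination (cE m : Q) * (2 * m * q1 + s ^ 2 * q2) * h8
  linear_combination (V * (s ^ (4 * m) + 2 * v * (2 * m * q1 + s ^ 2 * q2) + v ^ 2)) * h4 +
    V * v * h5 + V * v * hW - V * e6

end MP7fT
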