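import Pool.Agent.Lib.MP_7f581e_ntT.Eta
import Pool.Agent.Lib.MP_7f581e_ntT.Pol

/-!
The discriminant in odd degree.
-/

set_option autoImplicit false

universe u

namespace MP7fT

open Polynomial MP7f

/-- The closed formula for the discriminant. -/
theorem disc_fo {Ω : Type*} [Field Ω] [CharZero Ω] [IsAlgClosed Ω] (v : Ω) {m : ℕ} (hm : 1 ≤ m)
    (y : Fin (2 * m + 1) → Ω) (hy : fo v (2 * m + 1) = ∏ i, (X - C (y i))) :
    vV y ^ 2 = (-1) ^ m * (v ^ (2 * m - 2) * ((2 * m + 1 : Ω) ^ (2 * m + 1) * v ^ 2 +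
      4 * (2 * m - 1 : Ω) ^ (2 * m - 1))) := by
  obtain ⟨j, rfl⟩ : ∃ j, m = j + 1 := ⟨m - 1, by omega⟩
  have hn0 : (2 * ((j + 1 : ℕ) : Ω) + 1) ≠ 0 := by
    have : ((2 * (j + 1) + 1 : ℕ) : Ω) ≠ 0 := by
      rw [Nat.cast_ne_zero]; omega
    push_cast at this ⊢; exact this
  set N : Ω := 2 * ((j + 1 : ℕ) : Ω) + 1 with hN
  have hM : (2 * ((j + 1 : ℕ) : Ω) - 1) = N - 2 := by rw [hN]; ring
  rw [hM]
  obtain ⟨α, hα⟩ := IsAlgClosed.exists_pow_nat_eq (-(N - 2) / N) (n := 2) (by norm_num)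
  have hα' : N * α ^ 2 = -(N - 2) := by rw [hα]; field_simp
  have hdet := prod_deriv _ y hy
  rw [neg_one_pow_Ioi_odd] at hdet
  have hder : ∀ i, (derivative (fo v (2 * (j + 1) + 1))).eval (y i) =
      y i ^ (2 * j) * (N * ((y i - α) * (y i - -α))) := by
    intro i
    unfold fo
    have e1 : 2 * (j + 1) + 1 - 1 = 2 * j + 2 := by omega
    have e2 : 2 * (j + 1) + 1 - 2 - 1 = 2 * j := by omega
    simp only [derivative_add, derivative_X_pow, derivative_C, add_zero, eval_add, eval_mul,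
      eval_C, eval_pow, eval_X]
    rw [e1, e2]
    have e3 : ((2 * (j + 1) + 1 : ℕ) : Ω) = N := by rw [hN]; push_cast; ring
    have e4 : ((2 * (j + 1) + 1 - 2 : ℕ) : Ω) = N - 2 := by
      have : 2 * (j + 1) + 1 - 2 = 2 * j + 1 := by omega
      rw [this, hN]; push_cast; ring
    rw [e3, e4]
    linear_combination (y i ^ (2 * j)) * hα'
  rw [Finset.prod_congr rfl (fun i _ => hder i), Finset.prod_mul_distrib, Finset.prod_pow,
    Finset.prod_mul_distrib, Finset.prod_mul_distrib, Finset.prod_const, Finset.card_univ,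
    Fintype.card_fin, prod_eval_neg _ y hy α, prod_eval_neg _ y hy (-α)] at hdet
  have h0 : ∏ i, y i = -v := by
    have h1 := prod_eval_neg _ y hy 0
    simp only [sub_zero] at h1
    rw [h1]
    unfold fo
    simp only [eval_add, eval_pow, eval_X, eval_C]
    rw [zero_pow (by omega), zero_pow (by omega)]
    have : (-1 : Ω) ^ (2 * (j + 1) + 1) = -1 := by rw [pow_succ, pow_mul]; simp
    rw [this]; ring
  rw [h0] at hdet
  have hev : ∀ β : Ω, β ^ 2 = α ^ 2 → (fo v (2 * (j + 1) + 1)).eval β =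
      β * (α ^ 2) ^ j * (α ^ 2 + 1) + v := by
    intro β hβ
    unfold fo
    simp only [eval_add, eval_pow, eval_X, eval_C]
    have e2 : 2 * (j + 1) + 1 - 2 = 2 * j + 1 := by omega
    rw [e2, ← hβ]; ring
  rw [hev α rfl, hev (-α) (by ring)] at hdet
  have hα1 : N * (α ^ 2 + 1) = 2 := by linear_combination hα'
  have e5 : 2 * (j + 1) - 2 = 2 * j := by omega
  have e6 : 2 * (j + 1) - 1 = 2 * j + 1 := by omega
  rw [e5, e6]
  have hmain : N ^ (2 * (j + 1) + 1) * ((α * (α ^ 2) ^ j * (α ^ 2 + 1) + v) *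
      (-α * (α ^ 2) ^ j * (α ^ 2 + 1) + v)) = N ^ (2 * (j + 1) + 1) * v ^ 2 +
        4 * (N - 2) ^ (2 * j + 1) := by
    have h1 : N ^ (2 * (j + 1) + 1) * ((α * (α ^ 2) ^ j * (α ^ 2 + 1) + v) *
      (-α * (α ^ 2) ^ j * (α ^ 2 + 1) + v)) = N ^ (2 * (j + 1) + 1) * v ^ 2 -
        (N * α ^ 2) ^ (2 * j + 1) * (N * (α ^ 2 + 1)) ^ 2 := by ring
    rw [h1, hα', hα1, Odd.neg_pow (by simp)]
    ring
  have hsq : (-1 : Ω) ^ (2 * (j + 1) + 1) * (-1 : Ω) ^ (2 * (j + 1) + 1) = 1 := by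
    rw [← mul_pow]; simp
  have hs2 : (-1 : Ω) ^ (j + 1) * (-1 : Ω) ^ (j + 1) = 1 := by
    rw [← mul_pow]; simp
  have hv2 : (-v) ^ (2 * j) = v ^ (2 * j) := by rw [pow_mul, neg_sq, ← pow_mul]
  rw [hv2] at hdet
  have hfin : v ^ (2 * j) * (N ^ (2 * (j + 1) + 1) * v ^ 2 + 4 * (N - 2) ^ (2 * j + 1)) =
      (-1) ^ (j + 1) * vV y ^ 2 := by
    rw [← hdet, ← hmain]
    linear_combination (-(v ^ (2 * j) * N ^ (2 * (j + 1) + 1) *
      ((α * (α ^ 2) ^ j * (α ^ 2 + 1) + v) * (-α * (α ^ 2) ^ j * (α ^ 2 + 1) + v)))) * hsq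
  rw [hfin]
  linear_combination (-vV y ^ 2) * hs2

/-- The constant of the sign character. -/
def cO (m : ℕ) : ℕ := if m % 4 = 0 ∨ m % 4 = 3 then 0 else 1

/-- The congruence for the discriminant. -/
theorem cong_fo {Q : Type*} [CommRing Q] (h8 : (8 : Q) = 0) (v : Q) {m : ℕ} (hm : 1 ≤ m) :
    (-1) ^ m * (v ^ (2 * m - 2) * ((2 * m + 1 : Q) ^ (2 * m + 1) * v ^ 2 +
      4 * (2 * m - 1 : Q) ^ (2 * m - 1))) =
    (v ^ m) ^ 2 + 4 * (cO m * v ^ (2 * m) + v ^ (2 * m - 2)) := by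
  have hsq : (2 * (m : Q) + 1) ^ 2 = 1 := by
    rcases Nat.even_or_odd' m with ⟨k, rfl | rfl⟩
    · push_cast
      linear_combination (k * (2 * k + 1) : Q) * h8
    · push_cast
      linear_combination ((2 * k + 1) * (k + 1) : Q) * h8
  have h1 : (2 * (m : Q) + 1) ^ (2 * m + 1) = 2 * m + 1 := by
    rw [pow_succ, pow_mul, hsq, one_pow, one_mul]
  have h2 : ∀ k : ℕ, 4 * (2 * (m : Q) - 1) ^ k = 4 := by
    intro k
    induction k with
    | zero => simp
    | succ k ih =>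
      rw [pow_succ]
      linear_combination (2 * (m : Q) - 1) * ih + (m - 1 : Q) * h8
  have h3 : (-1 : Q) ^ m * 4 = 4 := by
    rcases Nat.even_or_odd m with h | h
    · rw [h.neg_one_pow]; ring
    · rw [h.neg_one_pow]; linear_combination -h8
  have h4 : (-1 : Q) ^ m * (2 * m + 1) = 1 + 4 * cO m := by
    obtain ⟨k, i, hi, rfl⟩ : ∃ k i, i < 4 ∧ m = 4 * k + i := ⟨m / 4, m % 4, by omega, by omega⟩
    have e1 : (-1 : Q) ^ (4 * k + i) = (-1) ^ i := by
      rw [pow_add, pow_mul]; norm_num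
    rw [e1]
    unfold cO
    have e2 : (4 * k + i) % 4 = i := by omega
    rw [e2]
    interval_cases i
    · norm_num; linear_combination (k : Q) * h8
    · norm_num; linear_combination (-k - 1 : Q) * h8
    · norm_num; linear_combination (k : Q) * h8
    · norm_num; linear_combination (-k - 1 : Q) * h8
  rw [h1, h2]
  have e3 : v ^ (2 * m) = v ^ (2 * m - 2) * v ^ 2 := by rw [← pow_add]; congr 1; omega
  have e4 : (v ^ m) ^ 2 = v ^ (2 * m - 2) * v ^ 2 := by rw [← pow_mul, mul_comm m 2, e3]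
  rw [e4, e3]
  linear_combination (v ^ (2 * m - 2) * v ^ 2) * h4 + v ^ (2 * m - 2) * h3

end MP7fT
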