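import Pool.Agent.Lib.MP_7f581e_nt.Disc

/-!
The sign element, with a correction term that does not depend on the field.
-/

set_option autoImplicit false

universe u

namespace MP7fT

open Polynomial MP7f

/-- From a congruence modulo `8` for the discriminant of a lift to characteristic zero we obtain a
correction term `η`, uniformly for all homomorphisms to fields of characteristic two. -/
theorem exists_eta {n : ℕ} {A Ω : Type*} [CommRing A] [CommRing Ω]
    (h2 : ∀ a : A, (2 : A) ∣ a ^ 2 → (2 : A) ∣ a) (h4 : ∀ a : A, 4 * a = 0 → a = 0)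
    (F : Polynomial A) (ι : A →+* Ω) (hι : Function.Injective ι)
    (yt : Fin n → Ω) (hyt : F.map ι = ∏ i, (X - C (yt i)))
    (d g ε ζ r : A) (hd : ι d = vV yt ^ 2) (h : g ^ 2 * d = ε ^ 2 + 4 * ζ + 8 * r) :
    ∃ η : A, ∀ (L : Type u) [Field L] [CharP L 2] (φ : A →+* L) (y : Fin n → L),
      Function.Injective y → F.map φ = ∏ i, (X - C (y i)) → φ g ≠ 0 →
      φ ε ≠ 0 ∧ vP y ≠ 0 ∧
        (vE y / vP y + φ η / φ ε) ^ 2 + (vE y / vP y + φ η / φ ε) = φ ζ / φ ε ^ 2 := by
  obtain ⟨bp, hbp⟩ := MvPolynomial.esymmAlgHom_fin_surjective (m := n) (n := n) ℤ le_rfl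
    ⟨_, symm_vP (n := n)⟩
  have hbp' : MvPolynomial.aeval (fun i : Fin n => MvPolynomial.esymm (Fin n) ℤ (i + 1)) bp =
      vP (fun i => (MvPolynomial.X i : MvPolynomial (Fin n) ℤ)) := by
    have := congrArg Subtype.val hbp
    simpa [MvPolynomial.esymmAlgHom_apply] using this
  obtain ⟨bb, hbb⟩ := MvPolynomial.esymmAlgHom_fin_surjective (m := n) (n := n) ℤ le_rfl
    ⟨_, symm_vB (n := n)⟩
  have hbb' : MvPolynomial.aeval (fun i : Fin n => MvPolynomial.esymm (Fin n) ℤ (i + 1)) bb =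
      vB (fun i => (MvPolynomial.X i : MvPolynomial (Fin n) ℤ)) := by
    have := congrArg Subtype.val hbb
    simpa [MvPolynomial.esymmAlgHom_apply] using this
  set p : A := MvPolynomial.eval₂Hom (Int.castRingHom A) (coefs F n) bp with hp
  set b : A := MvPolynomial.eval₂Hom (Int.castRingHom A) (coefs F n) bb with hb
  have P1 : ι p = vP yt := by rw [hp, transfer_aux bp F ι yt hyt, hbp', eval_vP]
  have B1 : ι b = vB yt := by rw [hb, transfer_aux bb F ι yt hyt, hbb', eval_vB]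
  have hb4 : 4 * b = d - p ^ 2 := by
    apply hι
    have := four_vB yt
    rw [map_mul, map_sub, map_pow, map_ofNat, B1, hd, P1, this]
  have hdvd : (2 : A) ∣ (g * p - ε) ^ 2 := by
    refine ⟨ε ^ 2 + 2 * ζ + 4 * r - 2 * g ^ 2 * b - g * p * ε, ?_⟩
    linear_combination h + g ^ 2 * hb4
  obtain ⟨η, hη⟩ := h2 _ hdvd
  have hgp : g * p = ε + 2 * η := by linear_combination hη
  have hgb : g ^ 2 * b = ζ + 2 * r - ε * η - η ^ 2 := by
    have : 4 * (g ^ 2 * b - (ζ + 2 * r - ε * η - η ^ 2)) = 0 := by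
      linear_combination g ^ 2 * hb4 + h - (g * p + ε + 2 * η) * hgp
    exact sub_eq_zero.mp (h4 _ this)
  refine ⟨η, ?_⟩
  intro L _ _ φ y hinj hy hg
  have two0 : (2 : L) = 0 := CharTwo.two_eq_zero
  have P2 : φ p = vP y := by rw [hp, transfer_aux bp F φ y hy, hbp', eval_vP]
  have B2 : φ b = vB y := by rw [hb, transfer_aux bb F φ y hy, hbb', eval_vB]
  have hVP : vV y = vP y := by rw [vV_eq, two0]; ring
  have hP0 : vP y ≠ 0 := by rw [← hVP]; exact vV_ne_zero hinj
  have hφgp : φ g * φ p = φ ε := by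
    rw [← map_mul, hgp, map_add, map_mul, map_ofNat, two0]; ring
  have hε : φ ε ≠ 0 := by
    rw [← hφgp, P2]; exact mul_ne_zero hg hP0
  have hgb' : φ g ^ 2 * φ b = φ ζ - φ ε * φ η - φ η ^ 2 := by
    have := congrArg φ hgb
    simp only [map_sub, map_add, map_mul, map_pow, map_ofNat, two0] at this
    rw [this]; ring
  refine ⟨hε, hP0, ?_⟩
  have hB : vB y = vE y ^ 2 - vP y * vE y := rfl
  rw [B2, hB] at hgb'
  rw [P2] at hφgp
  have hg' : φ g = φ ε / vP y := by field_simp; exact hφgp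
  rw [hg'] at hgb'
  field_simp at hgb' ⊢
  have h8 : (2 : L) * (φ ε * vE y * φ η * vP y) = 0 := by rw [two0]; ring
  have h9 : (2 : L) * (φ ε * φ η * vP y ^ 2) = 0 := by rw [two0]; ring
  have h10 : (2 : L) * (φ ε ^ 2 * vE y * vP y) = 0 := by rw [two0]; ring
  have h11 : (2 : L) * (φ η ^ 2 * vP y ^ 2) = 0 := by rw [two0]; ring
  linear_combination hgb' + h8 + h10

/-- The product of the values of the derivative at the roots. -/
theorem prod_deriv {n : ℕ} {Ω : Type*} [CommRing Ω] (F : Polynomial Ω) (y : Fin n → Ω)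
    (hy : F = ∏ i, (X - C (y i))) :
    ∏ i, (derivative F).eval (y i) = (-1) ^ (∑ i : Fin n, (Finset.Ioi i).card) * vV y ^ 2 := by
  rw [← prod_sub_ne, hy]
  exact Finset.prod_congr rfl fun i _ => eval_derivative_prod y i

theorem sum_Ioi (n : ℕ) : ∑ i : Fin n, (Finset.Ioi i).card = n * (n - 1) / 2 := by
  have h1 : ∑ i : Fin n, (Finset.Ioi i).card = ∑ i ∈ Finset.range n, i := by
    rw [← Finset.sum_range_reflect, ← Fin.sum_univ_eq_sum_range]
    refine Finset.sum_congr rfl fun i _ => ?_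
    simp
  rw [h1, Finset.sum_range_id]

theorem neg_one_pow_Ioi_odd {R : Type*} [CommRing R] (m : ℕ) :
    (-1 : R) ^ (∑ i : Fin (2 * m + 1), (Finset.Ioi i).card) = (-1) ^ m := by
  rw [sum_Ioi]
  have h2 : (2 * m + 1) * (2 * m + 1 - 1) / 2 = 2 * (m * m) + m := by
    rw [Nat.add_sub_cancel]
    have : (2 * m + 1) * (2 * m) = 2 * (2 * (m * m) + m) := by ring
    rw [this, Nat.mul_div_cancel_left _ (by norm_num)]
  rw [h2, pow_add, pow_mul]; simp

theorem neg_one_pow_Ioi_even {R : Type*} [CommRing R] (m : ℕ) :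
    (-1 : R) ^ (∑ i : Fin (2 * m), (Finset.Ioi i).card) = (-1) ^ m := by
  rw [sum_Ioi]
  rcases Nat.eq_zero_or_pos m with rfl | hm
  · simp
  have h2 : 2 * m * (2 * m - 1) / 2 = 2 * (m * (m - 1)) + m := by
    obtain ⟨k, rfl⟩ : ∃ k, m = k + 1 := ⟨m - 1, by omega⟩
    have : 2 * (k + 1) * (2 * (k + 1) - 1) = 2 * (2 * ((k + 1) * (k + 1 - 1)) + (k + 1)) := by
      have : 2 * (k + 1) - 1 = 2 * k + 1 := by omega
      rw [this, Nat.add_sub_cancel]; ring
    rw [this, Nat.mul_div_cancel_left _ (by norm_num)]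
  rw [h2, pow_add, pow_mul]; simp

theorem prod_eval_neg {n : ℕ} {Ω : Type*} [CommRing Ω] (F : Polynomial Ω) (y : Fin n → Ω)
    (hy : F = ∏ i, (X - C (y i))) (a : Ω) : ∏ i, (y i - a) = (-1) ^ n * F.eval a := by
  rw [hy, eval_prod]
  have : ∀ i, eval a (X - C (y i)) = -(y i - a) := by intro i; simp
  rw [Finset.prod_congr rfl (fun i _ => this i), Finset.prod_neg, Finset.card_univ,
    Fintype.card_fin, ← mul_assoc, ← pow_add, ← two_mul, pow_mul]
  simp

end MP7fT
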