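import Pool.Agent.Lib.MP_7f581e_ntT.Pol

/-!
Irreducibility of the cofactors.
-/

set_option autoImplicit false

namespace MP7fT

open Polynomial

section even

variable {F : Type*} [Field F]

/-- The polynomial whose roots are all the roots over the field of the root. -/
noncomputable def gPsi (P : F[X]) : F[X][X] :=
  C (X - 1) * P.map (C : F →+* F[X]) - C P * (X - 1)

/-- The cofactor. -/
noncomputable def gPhi (P : F[X]) : F[X][X] := gPsi P /ₘ (X - C (X : F[X]))

theorem gPsi_root (P : F[X]) : (gPsi P).IsRoot (X : F[X]) := by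
  unfold gPsi IsRoot
  have h1 : (P.map (C : F →+* F[X])).eval (X : F[X]) = P := by
    rw [eval_map, eval₂_C_X]
  simp only [eval_sub, eval_mul, eval_C, eval_X, eval_one, h1]
  ring

theorem gPsi_eq (P : F[X]) : (X - C (X : F[X])) * gPhi P = gPsi P :=
  mul_divByMonic_eq_iff_isRoot.mpr (gPsi_root P)

theorem X_sub_one_ne : (X - 1 : F[X]) ≠ 0 := by
  have := X_sub_C_ne_zero (1 : F)
  rwa [C_1] at this

theorem irreducible_X_sub_one : Irreducible (X - 1 : F[X]) := by
  have := irreducible_X_sub_C (1 : F)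
  rwa [C_1] at this

theorem gPsi_deg {P : F[X]} (hP : P.Monic) (hd : 2 ≤ P.natDegree) :
    (gPsi P).natDegree = P.natDegree ∧ (gPsi P).leadingCoeff = X - 1 := by
  have h2 : (P.map (C : F →+* F[X])).Monic := hP.map _
  have h3 : (C (X - 1 : F[X]) * P.map (C : F →+* F[X])).natDegree = P.natDegree := by
    rw [natDegree_C_mul X_sub_one_ne, hP.natDegree_map]
  have h4 : (C P * (X - 1) : F[X][X]).natDegree <
      (C (X - 1 : F[X]) * P.map (C : F →+* F[X])).natDegree := by
    rw [h3]
    have : (C P * (X - 1) : F[X][X]).natDegree ≤ 1 := by compute_degree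
    omega
  unfold gPsi
  constructor
  · rw [natDegree_sub_eq_left_of_natDegree_lt h4, h3]
  · rw [leadingCoeff_sub_of_degree_lt (degree_lt_degree h4), leadingCoeff_mul, leadingCoeff_C, h2]
    simp

theorem gPhi_deg {P : F[X]} (hP : P.Monic) (hd : 2 ≤ P.natDegree) :
    (gPhi P).natDegree = P.natDegree - 1 ∧ (gPhi P).leadingCoeff = X - 1 := by
  have h1 := gPsi_eq P
  obtain ⟨h2, h3⟩ := gPsi_deg hP hd
  have h0 : gPhi P ≠ 0 := by
    intro h; rw [h, mul_zero] at h1; rw [← h1] at h2; simp at h2; omega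
  constructor
  · rw [← h1, natDegree_mul (X_sub_C_ne_zero _) h0, natDegree_X_sub_C] at h2; omega
  · rw [← h1, leadingCoeff_mul] at h3; simpa using h3

theorem gPhi_mod (P : F[X]) : (gPhi P).map (evalRingHom 1) = C (-P.eval 1) := by
  have h1 := congrArg (fun p : F[X][X] => p.map (evalRingHom 1)) (gPsi_eq P)
  have hc : (evalRingHom (1 : F)).comp (C : F →+* F[X]) = RingHom.id _ := by
    ext; simp
  simp only [Polynomial.map_mul, Polynomial.map_sub, Polynomial.map_X, map_C, coe_evalRingHom,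
    eval_X, gPsi, eval_sub, eval_one, Polynomial.map_map, hc,
    Polynomial.map_id, Polynomial.map_one, sub_self] at h1
  have h3 : (X - C 1 : F[X]) ≠ 0 := X_sub_C_ne_zero _
  apply mul_left_cancel₀ h3
  rw [h1]
  simp only [map_zero, map_one, zero_mul, map_neg]
  ring

theorem gisUnit_aux {P : F[X]} (hP : P.Monic) (hd : 2 ≤ P.natDegree) (h1P : P.eval 1 ≠ 0)
    (a b : F[X][X]) (hab : gPhi P = a * b)
    (ha : (a.leadingCoeff).eval 1 ≠ 0) : IsUnit a := by
  have h1 : a.map (evalRingHom (1 : F)) * b.map (evalRingHom 1) = C (-P.eval 1) := by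
    rw [← Polynomial.map_mul, ← hab, gPhi_mod]
  have h2 : IsUnit (a.map (evalRingHom (1 : F))) := by
    refine isUnit_of_mul_isUnit_left (y := b.map (evalRingHom 1)) ?_
    rw [h1]
    exact isUnit_C.mpr (isUnit_iff_ne_zero.mpr (neg_ne_zero.mpr h1P))
  have h3 : (a.map (evalRingHom (1 : F))).natDegree = 0 := natDegree_eq_zero_of_isUnit h2
  have h4 : (a.map (evalRingHom (1 : F))).natDegree = a.natDegree :=
    natDegree_map_of_leadingCoeff_ne_zero _ ha
  rw [h4] at h3
  obtain ⟨a0, rfl⟩ := natDegree_eq_zero.mp h3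
  have h5 : a0 * b.leadingCoeff = X - 1 := by
    rw [← (gPhi_deg hP hd).2, hab, leadingCoeff_mul, leadingCoeff_C]
  rcases irreducible_X_sub_one.isUnit_or_isUnit h5.symm with h | h
  · exact isUnit_C.mpr h
  · exfalso
    apply ha
    rw [leadingCoeff_C]
    obtain ⟨c, hc, hc'⟩ := Polynomial.isUnit_iff.mp h
    rw [← hc'] at h5
    have h6 := congrArg (eval 1) h5
    simp only [eval_mul, eval_C, eval_sub, eval_X, eval_one, sub_self] at h6
    exact (mul_eq_zero.mp h6).resolve_right hc.ne_zero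

theorem gPhi_irreducible {P : F[X]} (hP : P.Monic) (hd : 2 ≤ P.natDegree) (h1P : P.eval 1 ≠ 0) :
    Irreducible (gPhi P) := by
  constructor
  · intro h
    have := natDegree_eq_zero_of_isUnit h
    rw [(gPhi_deg hP hd).1] at this; omega
  · intro a b hab
    by_cases ha : (a.leadingCoeff).eval 1 ≠ 0
    · exact Or.inl (gisUnit_aux hP hd h1P a b hab ha)
    by_cases hb : (b.leadingCoeff).eval 1 ≠ 0
    · exact Or.inr (gisUnit_aux hP hd h1P b a (by rw [hab, mul_comm]) hb)
    exfalso
    push Not at ha hb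
    have h5 : a.leadingCoeff * b.leadingCoeff = X - 1 := by
      rw [← (gPhi_deg hP hd).2, hab, leadingCoeff_mul]
    obtain ⟨c, hc⟩ := dvd_iff_isRoot.mpr ha
    obtain ⟨d, hd⟩ := dvd_iff_isRoot.mpr hb
    rw [hc, hd] at h5
    have h6 := congrArg (fun p : F[X] => (derivative p).eval 1) h5
    simp at h6

theorem gPhi_irreducible_map {P : F[X]} (hP : P.Monic) (hd : 2 ≤ P.natDegree)
    (h1P : P.eval 1 ≠ 0) : Irreducible ((gPhi P).map (algebraMap F[X] (RatFunc F))) := by
  have h := gPhi_irreducible hP hd h1P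
  have hp : (gPhi P).IsPrimitive := h.isPrimitive (by rw [(gPhi_deg hP hd).1]; omega)
  exact (hp.irreducible_iff_irreducible_map_fraction_map (K := RatFunc F)).mp h

end even

section odd

variable {F : Type*} [Field F] [CharP F 2]

/-- The geometric sum `1 + X + ... + X ^ (n - 1)`. -/
noncomputable def geo (F : Type*) [Field F] (n : ℕ) : F[X] := ∑ i ∈ Finset.range n, X ^ i

omit [CharP F 2] in
theorem geo_mul (n : ℕ) : geo F n * (X - 1) = X ^ n - 1 := geom_sum_mul X n

omit [CharP F 2] in
theorem geo_eval (n : ℕ) : (geo F n).eval 1 = n := by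
  unfold geo
  rw [eval_finsetSum]; simp

omit [CharP F 2] in
theorem geo_succ2 (n : ℕ) : geo F (n + 2) = X ^ 2 * geo F n + (X + 1) := by
  have h3 : (X - 1 : F[X]) ≠ 0 := X_sub_one_ne
  apply mul_right_cancel₀ h3
  have h1 : geo F (n + 2) * (X - 1) = X ^ (n + 2) - 1 := geom_sum_mul X (n + 2)
  have h2 : geo F n * (X - 1) = X ^ n - 1 := geom_sum_mul X n
  rw [h1]
  linear_combination -X ^ 2 * h2

theorem geo_coprime {n : ℕ} (hn : n % 2 = 1) : IsCoprime (geo F (n + 2)) (geo F n) := by
  have h1 : (geo F n).eval 1 ≠ 0 := by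
    rw [geo_eval, cast_odd hn]; exact one_ne_zero
  have h2 := isCoprime_X_sub_C _ _ h1
  have h3 : (X - C 1 : F[X]) = X + 1 := by
    rw [C_1, sub_eq_add_neg, CharTwo.neg_eq]
  rw [h3] at h2
  rw [geo_succ2]
  exact IsCoprime.mul_add_right_left h2.symm (X ^ 2)

/-- The product of the two geometric sums is not a square. -/
theorem geo_not_sq {n : ℕ} (hn : n % 2 = 1) (hn3 : 3 ≤ n) (g : F[X]) :
    g ^ 2 ≠ geo F (n + 2) * geo F n := by
  intro h
  have two0 : (2 : F[X]) = 0 := CharTwo.two_eq_zero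
  have h1 : geo F (n + 2) * (X - 1) = X ^ (n + 2) - 1 := geom_sum_mul X (n + 2)
  have h2 : geo F n * (X - 1) = X ^ n - 1 := geom_sum_mul X n
  have h3 : (g * (X - 1)) ^ 2 = (X ^ (n + 2) - 1) * (X ^ n - 1) := by
    rw [← h1, ← h2]
    linear_combination (X - 1) ^ 2 * h
  have h4 := congrArg derivative h3
  rw [derivative_pow] at h4
  simp only [derivative_mul, derivative_sub, derivative_X_pow, derivative_one, sub_zero] at h4
  have c2 : C ((2 : ℕ) : F) = 0 := by rw [cast_even (by norm_num), C_0]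
  have cn2 : ((n + 2 : ℕ) : F) = 1 := cast_odd (by omega)
  have cn : ((n : ℕ) : F) = 1 := cast_odd hn
  rw [c2, cn2, cn] at h4
  obtain ⟨j, rfl⟩ : ∃ j, n = j + 1 := ⟨n - 1, by omega⟩
  have e1 : j + 1 + 2 - 1 = j + 2 := by omega
  rw [e1, Nat.add_sub_cancel] at h4
  simp only [C_1] at h4
  have h5 : X ^ j * (X + 1) ^ 2 = (0 : F[X]) := by
    linear_combination h4 + (X ^ (j + 2) * X ^ (j + 1) + X ^ (j + 1)) * two0
  rcases mul_eq_zero.mp h5 with h | h
  · exact pow_ne_zero _ X_ne_zero h
  · have h6 : (X + C 1 : F[X]) = 0 := by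
      rw [C_1]; exact pow_eq_zero_iff (two_ne_zero) |>.mp h
    exact X_add_C_ne_zero 1 h6

/-- The polynomial over the field of the root whose roots are the quotients of the roots. -/
noncomputable def oPhi (F : Type*) [Field F] (n : ℕ) : F[X][X] :=
  C (X ^ 2) * (geo F (n + 2)).map C + (geo F n).map C

theorem oPhi_swap_irreducible {n : ℕ} (hn : n % 2 = 1) (hn3 : 3 ≤ n) :
    Irreducible (C (geo F (n + 2)) * X ^ 2 + C (geo F n) : F[X][X]) := by
  set H : F[X][X] := C (geo F (n + 2)) * X ^ 2 + C (geo F n) with hH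
  have hprim : H.IsPrimitive := by
    intro r hr
    rw [C_dvd_iff_dvd_coeff] at hr
    have h0 := hr 0
    have h2 := hr 2
    rw [hH] at h0 h2
    simp only [coeff_add, coeff_C_mul, coeff_X_pow, coeff_C] at h0 h2
    norm_num at h0 h2
    exact (geo_coprime hn).isUnit_of_dvd' h2 h0
  refine hprim.irreducible_of_irreducible_map_of_injective
    (IsFractionRing.injective F[X] (RatFunc F)) ?_
  have hmap : H.map (algebraMap F[X] (RatFunc F)) =
      C (algebraMap F[X] (RatFunc F) (geo F (n + 2))) * X ^ 2 +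
        C (algebraMap F[X] (RatFunc F) (geo F n)) := by
    rw [hH]; simp
  set α := algebraMap F[X] (RatFunc F) (geo F (n + 2)) with hα
  set β := algebraMap F[X] (RatFunc F) (geo F n) with hβ
  have hinj : Function.Injective (algebraMap F[X] (RatFunc F)) :=
    IsFractionRing.injective F[X] (RatFunc F)
  have hα0 : α ≠ 0 := by
    rw [hα, Ne, map_eq_zero_iff _ hinj]
    intro h
    have := geo_mul (F := F) (n + 2)
    rw [h, zero_mul] at this
    have h1 := congrArg (fun p : F[X] => p.coeff (n + 2)) this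
    have hn2 : ¬ (n + 2 = 0) := by omega
    simp [coeff_one] at h1
  rw [hmap]
  have hdeg : (C α * X ^ 2 + C β : (RatFunc F)[X]).natDegree = 2 := by
    have := natDegree_quadratic (b := 0) (c := β) hα0
    simpa using this
  rw [irreducible_iff_roots_eq_zero_of_degree_le_three (by rw [hdeg]) (by rw [hdeg]; norm_num)]
  by_contra hroots
  obtain ⟨ρ, hρ⟩ := Multiset.exists_mem_of_ne_zero hroots
  rw [mem_roots', IsRoot.def] at hρ
  have h1 := hρ.2
  simp only [eval_add, eval_mul, eval_C, eval_pow, eval_X] at h1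
  have char2 : CharP (RatFunc F) 2 := charP_of_injective_algebraMap
    (algebraMap F (RatFunc F)).injective 2
  have two0 : (2 : RatFunc F) = 0 := CharTwo.two_eq_zero
  have h2 : (α * ρ) ^ 2 = α * β := by
    linear_combination α * h1 - α * β * two0
  have h3 : IsIntegral F[X] (α * ρ) := by
    refine ⟨X ^ 2 - C (geo F (n + 2) * geo F n), monic_X_pow_sub_C _ two_ne_zero, ?_⟩
    rw [eval₂_sub, eval₂_pow, eval₂_X, eval₂_C, h2, map_mul, hα, hβ, sub_self]
  obtain ⟨g, hg⟩ := IsIntegrallyClosed.isIntegral_iff.mp h3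
  apply geo_not_sq hn hn3 g
  apply hinj
  rw [map_pow, hg, h2, map_mul]

theorem oPhi_irreducible {n : ℕ} (hn : n % 2 = 1) (hn3 : 3 ≤ n) :
    Irreducible ((oPhi F n).map (algebraMap F[X] (RatFunc F))) := by
  have h1 : Irreducible (oPhi F n) := by
    have h2 : Bivariate.swap (C (geo F (n + 2)) * X ^ 2 + C (geo F n)) = oPhi F n := by
      rw [map_add, map_mul, map_pow, Bivariate.swap_C, Bivariate.swap_C, Bivariate.swap_Y]
      unfold oPhi
      rw [C_pow]; ring
    rw [← h2]
    exact (MulEquiv.irreducible_iff (Bivariate.swap (R := F))).mpr (oPhi_swap_irreducible hn hn3)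
  have hdeg : (oPhi F n).natDegree ≠ 0 := by
    intro h
    obtain ⟨c, hc⟩ := natDegree_eq_zero.mp h
    have h3 := congrArg (fun p : F[X][X] => (p.coeff 1).coeff 2) hc
    have hg : (geo F (n + 2)).coeff 1 = 1 := by
      unfold geo
      simp only [finsetSum_coeff, coeff_X_pow]
      rw [Finset.sum_eq_single 1]
      · simp
      · intro b _ hb; rw [if_neg (Ne.symm hb)]
      · intro h; exfalso; apply h; rw [Finset.mem_range]; omega
    simp only [oPhi, coeff_add, coeff_C_mul, coeff_map, hg, C_1, mul_one, coeff_C,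
      coeff_X_pow] at h3
    norm_num at h3
  have hp : (oPhi F n).IsPrimitive := h1.isPrimitive hdeg
  exact (hp.irreducible_iff_irreducible_map_fraction_map (K := RatFunc F)).mp h1

end odd

end MP7fT
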