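import Pool.Agent.Lib.MP_7f581e_ntT.Pol
import Pool.Agent.Lib.MP_7f581e_ntT.Hens

/-!
The transpositions in the two Galois groups.
-/

set_option autoImplicit false

namespace MP7fT

open Polynomial

/-- A separable polynomial over an algebraically closed field has enough roots. -/
theorem card_roots_toFinset {k : Type*} [Field k] [IsAlgClosed k] [DecidableEq k] (P : k[X])
    (hP : P.Separable) : P.roots.toFinset.card = P.natDegree := by
  rw [Multiset.toFinset_card_of_nodup (nodup_roots hP), ← (IsAlgClosed.splits P).natDegree_eq_card_roots]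

section odd

variable {k : Type*} [Field k] [CharP k 2]

instance : CharP (PowerSeries k) 2 := charP_of_injective_ringHom (PowerSeries.C_injective (R := k)) 2

instance : CharP (LaurentSeries k) 2 :=
  charP_of_injective_ringHom (IsFractionRing.injective (PowerSeries k) (LaurentSeries k)) 2

/-- The element `τ` of the field of Laurent series. -/
noncomputable def tau (k : Type*) [Field k] : LaurentSeries k :=
  algebraMap (PowerSeries k) (LaurentSeries k) PowerSeries.X

theorem fo_aux {K : Type*} [Field K] (t u : K) (hu : u ≠ 0) (j : ℕ) :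
    (t / u) ^ (j + 2) + (t / u) ^ j + t ^ j =
      t ^ j / u ^ (j + 2) * (u ^ (j + 2) + (u ^ 2 + t ^ 2)) := by
  have h1 : u ^ (j + 2) ≠ 0 := pow_ne_zero _ hu
  have h2 : u ^ j ≠ 0 := pow_ne_zero _ hu
  rw [div_pow, div_pow, div_mul_eq_mul_div, eq_div_iff h1, add_mul, add_mul,
    div_mul_cancel₀ _ h1, div_mul_eq_mul_div, pow_add u j 2,
    show t ^ j * (u ^ j * u ^ 2) = (t ^ j * u ^ 2) * u ^ j by ring, mul_div_cancel_right₀ _ h2]
  ring

theorem fo_roots [IsAlgClosed k] {n : ℕ} (hn : 5 ≤ n) (hodd : n % 2 = 1) :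
    ∃ T : Finset (LaurentSeries k), (∀ x ∈ T, (fo (tau k ^ (n - 2)) n).eval x = 0) ∧
      n ≤ T.card + 2 := by
  classical
  set i := algebraMap (PowerSeries k) (LaurentSeries k) with hi
  have hinj : Function.Injective i := IsFractionRing.injective _ _
  set q : (PowerSeries k)[X] := X ^ n + (X ^ 2 + C (PowerSeries.X ^ 2)) with hq
  have hd : (X ^ 2 + C (PowerSeries.X ^ 2) : (PowerSeries k)[X]).degree < ((n : ℕ) : WithBot ℕ) := by
    have hb : (X ^ 2 + C (PowerSeries.X ^ 2) : (PowerSeries k)[X]).degree ≤ 2 := by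
      compute_degree
    exact lt_of_le_of_lt hb (by exact_mod_cast (by omega : 2 < n))
  have hqm : q.Monic := monic_X_pow_add (by exact_mod_cast hd)
  have hred : q.map (PowerSeries.constantCoeff (R := k)) = X ^ n + X ^ 2 := by
    rw [hq]; simp
  have hder : derivative (q.map (PowerSeries.constantCoeff (R := k))) = X ^ (n - 1) := by
    rw [hred]
    simp only [derivative_add, derivative_X_pow]
    rw [cast_odd hodd]
    have : ((2 : ℕ) : k) = 0 := cast_even (by norm_num)
    rw [this]; simp
  set P : k[X] := X ^ (n - 2) - 1 with hP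
  have hPsep : P.Separable := by
    have h1 : ((n - 2 : ℕ) : k) ≠ 0 := by rw [cast_odd (by omega)]; exact one_ne_zero
    exact X_pow_sub_one_separable_iff.mpr h1
  have hPdeg : P.natDegree = n - 2 := by rw [hP]; exact natDegree_X_pow_sub_C (r := (1 : k))
  have hroot : ∀ a ∈ P.roots.toFinset, a ^ (n - 2) = 1 := by
    intro a ha
    rw [Multiset.mem_toFinset, mem_roots hPsep.ne_zero, IsRoot.def, hP] at ha
    simp only [eval_sub, eval_pow, eval_X, eval_one] at ha
    exact sub_eq_zero.mp ha
  have hex : ∀ a : k, ∃ r : PowerSeries k, a ∈ P.roots.toFinset →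
      (q.eval r = 0 ∧ PowerSeries.constantCoeff r = a) := by
    intro a
    by_cases ha : a ∈ P.roots.toFinset
    · have h1 := hroot a ha
      have ha0 : a ≠ 0 := by
        rintro rfl
        rw [zero_pow (by omega)] at h1
        exact zero_ne_one h1
      obtain ⟨r, hr⟩ := hensel_root q hqm a (by
        rw [hred]
        simp only [eval_add, eval_pow, eval_X]
        have : a ^ n = a ^ (n - 2) * a ^ 2 := by rw [← pow_add]; congr 1; omega
        rw [this, h1, one_mul]
        exact CharTwo.add_self_eq_zero _) (by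
        rw [hder]
        simp only [eval_pow, eval_X]
        exact pow_ne_zero _ ha0)
      exact ⟨r, fun _ => hr⟩
    · exact ⟨0, fun h => absurd h ha⟩
  choose r hr using hex
  have hne : ∀ a ∈ P.roots.toFinset, i (r a) ≠ 0 := by
    intro a ha h
    rw [map_eq_zero_iff i hinj] at h
    have h1 := (hr a ha).2
    rw [h, map_zero] at h1
    have h2 := hroot a ha
    rw [← h1, zero_pow (by omega)] at h2
    exact zero_ne_one h2
  have htau : tau k ≠ 0 := by
    rw [tau, Ne, map_eq_zero_iff _ hinj]
    exact PowerSeries.X_ne_zero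
  refine ⟨P.roots.toFinset.image (fun a => tau k / i (r a)), ?_, ?_⟩
  · intro x hx
    rw [Finset.mem_image] at hx
    obtain ⟨a, ha, rfl⟩ := hx
    have h1 := congrArg i (hr a ha).1
    rw [hq] at h1
    simp only [eval_add, eval_pow, eval_X, eval_C, map_add, map_pow, map_zero] at h1
    change (i (r a)) ^ n + ((i (r a)) ^ 2 + tau k ^ 2) = 0 at h1
    have hne' := hne a ha
    unfold fo
    simp only [eval_add, eval_pow, eval_X, eval_C]
    obtain ⟨j, rfl⟩ : ∃ j, n = j + 2 := ⟨n - 2, by omega⟩
    rw [Nat.add_sub_cancel]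
    rw [fo_aux (tau k) (i (r a)) hne' j, h1, mul_zero]
  · rw [Finset.card_image_of_injOn, card_roots_toFinset P hPsep, hPdeg]
    · omega
    · intro a ha b hb hab
      have ha' := hne a ha
      have hb' := hne b hb
      simp only at hab
      rw [div_eq_div_iff ha' hb'] at hab
      have h1 : r b = r a := hinj (mul_left_cancel₀ htau hab)
      rw [← (hr a ha).2, ← (hr b hb).2, h1]

theorem fo_not_splits {n : ℕ} (hn : 5 ≤ n) (hodd : n % 2 = 1) :
    ¬ (fo (tau k ^ (n - 2)) n).Splits := by
  intro hs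
  set i := algebraMap (PowerSeries k) (LaurentSeries k) with hi
  set q : (PowerSeries k)[X] := fo (PowerSeries.X ^ (n - 2)) n with hq
  have hqm : q.Monic := (fo_monic _ (by omega)).1
  have hqi : q.map i = fo (tau k ^ (n - 2)) n := by rw [hq, map_fo, map_pow]; rfl
  have hred : q.map (PowerSeries.constantCoeff (R := k)) = fo 0 n := by
    rw [hq, map_fo, map_pow, PowerSeries.constantCoeff_X, zero_pow (by omega)]
  obtain ⟨r, hr, hr1⟩ := lift_of_splits q hqm (by rw [← hi, hqi]; exact hs) 1 (by
    rw [hred]; unfold fo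
    simp only [eval_add, eval_pow, eval_X, eval_C, one_pow, add_zero]
    exact CharTwo.add_self_eq_zero _)
  have two0 : (2 : PowerSeries k) = 0 := CharTwo.two_eq_zero
  have hrel : r ^ n + r ^ (n - 2) + PowerSeries.X ^ (n - 2) = 0 := by
    rw [hq] at hr; unfold fo at hr
    simpa only [eval_add, eval_pow, eval_X, eval_C] using hr
  have hD := congrArg (PowerSeries.derivative k) hrel
  simp only [map_add, PowerSeries.derivative_pow, PowerSeries.derivative_X, map_zero] at hD
  rw [cast_odd hodd, cast_odd (R := PowerSeries k) (n := n - 2) (by omega)] at hD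
  obtain ⟨j, rfl⟩ : ∃ j, n = j + 3 := ⟨n - 3, by omega⟩
  have e1 : j + 3 - 1 = j + 2 := by omega
  have e2 : j + 3 - 2 = j + 1 := by omega
  have e3 : j + 3 - 2 - 1 = j := by omega
  rw [e1, e3] at hD
  rw [e2] at hrel
  set r' := PowerSeries.derivative k r
  have h1 : PowerSeries.X ^ (j + 1) * (PowerSeries.X * r' + r) = 0 := by
    linear_combination (PowerSeries.X * r) * hD - (PowerSeries.X * r') * hrel +
      (PowerSeries.X ^ (j + 2) * r') * two0
  have h2 : PowerSeries.X * r' + r = 0 := by
    rcases mul_eq_zero.mp h1 with h | h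
    · exact absurd h (pow_ne_zero _ PowerSeries.X_ne_zero)
    · exact h
  have h3 := congrArg PowerSeries.constantCoeff h2
  rw [map_add, map_mul, PowerSeries.constantCoeff_X, zero_mul, zero_add, hr1, map_zero] at h3
  exact one_ne_zero h3

end odd

section even

variable {k : Type*} [Field k]

/-- The homogeneous geometric sum. -/
noncomputable def gs (s : k) (m : ℕ) : k[X] := ∑ i ∈ Finset.range m, X ^ i * (C s) ^ (m - 1 - i)

theorem gs_mul (s : k) (m : ℕ) : gs s m * (X - C s) = X ^ m - C s ^ m :=
  (Commute.all X (C s)).geom_sum₂_mul m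

theorem gs_eval (s : k) (m : ℕ) : (gs s m).eval s = m * s ^ (m - 1) := by
  unfold gs
  rw [eval_finsetSum]
  have : ∀ i ∈ Finset.range m, eval s (X ^ i * (C s) ^ (m - 1 - i)) = s ^ (m - 1) := by
    intro i hi
    rw [Finset.mem_range] at hi
    simp only [eval_mul, eval_pow, eval_X, eval_C]
    rw [← pow_add]; congr 1; omega
  rw [Finset.sum_congr rfl this, Finset.sum_const, Finset.card_range, nsmul_eq_mul]

/-- The cofactor of the double root. -/
noncomputable def hs (s : k) (m : ℕ) : k[X] := gs s m ^ 2 + C (s ^ 2) * X * gs s (m - 1) ^ 2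

variable [CharP k 2]

theorem fbar_eq (s : k) {m : ℕ} (hm : 3 ≤ m) :
    fe (s ^ 2) 1 (s ^ (2 * m)) (2 * m) = (X - C s) ^ 2 * hs s m := by
  have two0 : (2 : k[X]) = 0 := CharTwo.two_eq_zero
  have h1 := gs_mul s m
  have h2 := gs_mul s (m - 1)
  have h3 : (X - C s) ^ 2 * hs s m = (gs s m * (X - C s)) ^ 2 +
      C (s ^ 2) * X * (gs s (m - 1) * (X - C s)) ^ 2 := by
    unfold hs; ring
  rw [h3, h1, h2]
  unfold fe
  obtain ⟨j, rfl⟩ : ∃ j, m = j + 1 := ⟨m - 1, by omega⟩
  have e1 : 2 * (j + 1) - 1 = 2 * j + 1 := by omega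
  rw [e1, Nat.add_sub_cancel]
  simp only [map_pow, map_one]
  linear_combination (C s ^ (j + 1) * X ^ (j + 1) + C s ^ 2 * X * X ^ j * C s ^ j) * two0

theorem hs_monic (s : k) {m : ℕ} (hm : 3 ≤ m) : (hs s m).natDegree = 2 * m - 2 ∧ hs s m ≠ 0 := by
  have h1 := fbar_eq s hm
  obtain ⟨h2, h3⟩ := fe_monic (s ^ 2) 1 (s ^ (2 * m)) (n := 2 * m) (by omega)
  have h0 : hs s m ≠ 0 := by
    intro h
    rw [h, mul_zero] at h1
    exact h2.ne_zero h1
  refine ⟨?_, h0⟩
  rw [h1, natDegree_mul (pow_ne_zero _ (X_sub_C_ne_zero s)) h0, natDegree_pow,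
    natDegree_X_sub_C] at h3
  omega

theorem fbar_derivative (s : k) {m : ℕ} (hm : 3 ≤ m) :
    derivative (fe (s ^ 2) 1 (s ^ (2 * m)) (2 * m)) = (X - C s) ^ 2 * derivative (hs s m) := by
  have two0 : (2 : k[X]) = 0 := CharTwo.two_eq_zero
  rw [fbar_eq s hm, derivative_mul, derivative_X_sub_C_pow]
  have : C ((2 : ℕ) : k) = 0 := by
    rw [cast_even (by norm_num), C_0]
  rw [this]; ring

theorem hs_rel (s : k) {m : ℕ} (hm : 3 ≤ m) :
    (X + 1) * derivative (hs s m) - hs s m = X ^ (2 * m - 2) := by
  have h1 := fe_rel s (s ^ (2 * m)) (n := 2 * m) (by omega) (by omega)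
  rw [fbar_derivative s hm, fbar_eq s hm] at h1
  have h2 : (X - C s) ^ 2 * ((X + 1) * derivative (hs s m) - hs s m) =
      (X - C s) ^ 2 * X ^ (2 * m - 2) := by
    linear_combination h1
  exact mul_left_cancel₀ (pow_ne_zero _ (X_sub_C_ne_zero s)) h2

theorem hs_separable (s : k) (hs0 : s ≠ 0) {m : ℕ} (hm : 3 ≤ m) : (hs s m).Separable := by
  have h0 : (hs s m).eval 0 ≠ 0 := by
    intro h
    have h1 := congrArg (eval 0) (fbar_eq s hm)
    rw [eval_mul, h, mul_zero] at h1
    unfold fe at h1
    simp only [eval_add, eval_mul, eval_pow, eval_X, eval_C, zero_add, mul_one] at h1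
    rw [zero_pow (by omega), zero_mul, zero_add] at h1
    exact pow_ne_zero _ hs0 h1
  have h2 : IsCoprime (hs s m) X := by
    have := isCoprime_X_sub_C _ 0 h0
    rwa [C_0, sub_zero] at this
  have h3 : IsCoprime (hs s m) (X ^ (2 * m - 2)) := h2.pow_right
  rw [← hs_rel s hm] at h3
  have h4 : IsCoprime (hs s m) ((X + 1) * derivative (hs s m)) := by
    have := h3.add_mul_left_right (1 : k[X])
    rwa [mul_one, sub_add_cancel] at this
  exact h4.of_mul_right_right

theorem hs_eval (s : k) (hs0 : s ≠ 0) {m : ℕ} (hm : 3 ≤ m) : (hs s m).eval s ≠ 0 := by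
  unfold hs
  simp only [eval_add, eval_mul, eval_pow, eval_X, eval_C, gs_eval]
  rcases Nat.even_or_odd m with h | h
  · have h1 : (m : k) = 0 := cast_even (Nat.even_iff.mp h)
    have h2 : ((m - 1 : ℕ) : k) = 1 := cast_odd (by rw [Nat.even_iff] at h; omega)
    rw [h1, h2]
    simp [hs0]
  · have h1 : (m : k) = 1 := cast_odd (Nat.odd_iff.mp h)
    have h2 : ((m - 1 : ℕ) : k) = 0 := cast_even (by rw [Nat.odd_iff] at h; omega)
    rw [h1, h2]
    simp [hs0]

theorem fe_roots [IsAlgClosed k] (s : k) (hs0 : s ≠ 0) {m : ℕ} (hm : 3 ≤ m) :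
    ∃ T : Finset (LaurentSeries k), (∀ x ∈ T, (fe ((algebraMap (PowerSeries k) (LaurentSeries k)
        (PowerSeries.C s)) ^ 2) 1 (algebraMap (PowerSeries k) (LaurentSeries k)
        (PowerSeries.C (s ^ (2 * m))) + tau k) (2 * m)).eval x = 0) ∧
      2 * m ≤ T.card + 2 := by
  classical
  set i := algebraMap (PowerSeries k) (LaurentSeries k) with hi
  have hinj : Function.Injective i := IsFractionRing.injective _ _
  set q : (PowerSeries k)[X] := fe ((PowerSeries.C s) ^ 2) 1
    (PowerSeries.C (s ^ (2 * m)) + PowerSeries.X) (2 * m) with hq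
  have hqm : q.Monic := (fe_monic _ _ _ (by omega)).1
  have hqi : q.map i = fe (i (PowerSeries.C s) ^ 2) 1 (i (PowerSeries.C (s ^ (2 * m))) + tau k)
      (2 * m) := by
    rw [hq, map_fe, map_pow, map_add, map_one]; rfl
  have hred : q.map (PowerSeries.constantCoeff (R := k)) = (X - C s) ^ 2 * hs s m := by
    rw [← fbar_eq s hm, hq, map_fe, map_pow, map_add, map_one, PowerSeries.constantCoeff_C,
      PowerSeries.constantCoeff_C, PowerSeries.constantCoeff_X, add_zero]
  have hder : derivative (q.map (PowerSeries.constantCoeff (R := k))) =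
      (X - C s) ^ 2 * derivative (hs s m) := by
    rw [hred, ← fbar_eq s hm, fbar_derivative s hm]
  have hsep := hs_separable s hs0 hm
  have hroot : ∀ a ∈ (hs s m).roots.toFinset, (hs s m).eval a = 0 := by
    intro a ha
    rw [Multiset.mem_toFinset, mem_roots hsep.ne_zero, IsRoot.def] at ha
    exact ha
  have hex : ∀ a : k, ∃ r : PowerSeries k, a ∈ (hs s m).roots.toFinset →
      (q.eval r = 0 ∧ PowerSeries.constantCoeff r = a) := by
    intro a
    by_cases ha : a ∈ (hs s m).roots.toFinset
    · have h1 := hroot a ha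
      have has : a - s ≠ 0 := by
        intro h
        rw [sub_eq_zero.mp h] at h1
        exact hs_eval s hs0 hm h1
      have h2 : (derivative (hs s m)).eval a ≠ 0 := by
        have := hsep.eval₂_derivative_ne_zero (RingHom.id k) (x := a) (by
          rw [eval₂_id]; exact h1)
        rwa [eval₂_id] at this
      obtain ⟨r, hr⟩ := hensel_root q hqm a (by
        rw [hred, eval_mul, h1, mul_zero]) (by
        rw [hder, eval_mul, eval_pow, eval_sub, eval_X, eval_C]
        exact mul_ne_zero (pow_ne_zero _ has) h2)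
      exact ⟨r, fun _ => hr⟩
    · exact ⟨0, fun h => absurd h ha⟩
  choose r hr using hex
  refine ⟨(hs s m).roots.toFinset.image (fun a => i (r a)), ?_, ?_⟩
  · intro x hx
    rw [Finset.mem_image] at hx
    obtain ⟨a, ha, rfl⟩ := hx
    rw [← hqi, eval_map, eval₂_at_apply, (hr a ha).1, map_zero]
  · rw [Finset.card_image_of_injOn, card_roots_toFinset _ hsep, (hs_monic s hm).1]
    · omega
    · intro a ha b hb hab
      have h1 : r a = r b := hinj hab
      rw [← (hr a ha).2, ← (hr b hb).2, h1]

theorem fe_not_splits (s : k) (hs1 : s ≠ 1) {m : ℕ} (hm : 3 ≤ m) :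
    ¬ (fe ((algebraMap (PowerSeries k) (LaurentSeries k)
        (PowerSeries.C s)) ^ 2) 1 (algebraMap (PowerSeries k) (LaurentSeries k)
        (PowerSeries.C (s ^ (2 * m))) + tau k) (2 * m)).Splits := by
  intro hspl
  set i := algebraMap (PowerSeries k) (LaurentSeries k) with hi
  have hinj : Function.Injective i := IsFractionRing.injective _ _
  set q : (PowerSeries k)[X] := fe ((PowerSeries.C s) ^ 2) 1
    (PowerSeries.C (s ^ (2 * m)) + PowerSeries.X) (2 * m) with hq
  have hqm : q.Monic := (fe_monic _ _ _ (by omega)).1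
  have hqi : q.map i = fe (i (PowerSeries.C s) ^ 2) 1 (i (PowerSeries.C (s ^ (2 * m))) + tau k)
      (2 * m) := by
    rw [hq, map_fe, map_pow, map_add, map_one]; rfl
  have hred : q.map (PowerSeries.constantCoeff (R := k)) = (X - C s) ^ 2 * hs s m := by
    rw [← fbar_eq s hm, hq, map_fe, map_pow, map_add, map_one, PowerSeries.constantCoeff_C,
      PowerSeries.constantCoeff_C, PowerSeries.constantCoeff_X, add_zero]
  obtain ⟨r, hr, hrs⟩ := lift_of_splits q hqm (by rw [← hi, hqi]; exact hspl) s (by
    rw [hred]; simp)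
  have h1 : q = ((X - C s) ^ 2 * hs s m).map (PowerSeries.C (R := k)) + C PowerSeries.X * (X + 1) := by
    rw [← fbar_eq s hm, hq, map_fe]
    unfold fe
    simp only [map_add, map_pow, map_one]
    ring
  rw [h1, Polynomial.map_mul, Polynomial.map_pow, Polynomial.map_sub, map_X, map_C] at hr
  simp only [eval_add, eval_mul, eval_pow, eval_sub, eval_X, eval_C, eval_one] at hr
  have h2 : PowerSeries.constantCoeff (r - PowerSeries.C s) = 0 := by
    rw [map_sub, hrs, PowerSeries.constantCoeff_C, sub_self]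
  obtain ⟨z, hz⟩ := PowerSeries.X_dvd_iff.mpr h2
  rw [hz] at hr
  have h3 : PowerSeries.X * (PowerSeries.X * (z ^ 2 * eval r ((hs s m).map PowerSeries.C)) +
      (r + 1)) = 0 := by
    linear_combination hr
  rcases mul_eq_zero.mp h3 with h | h
  · exact PowerSeries.X_ne_zero h
  · have h4 := congrArg PowerSeries.constantCoeff h
    rw [map_add, map_mul, PowerSeries.constantCoeff_X, zero_mul, zero_add, map_add, hrs, map_one,
      map_zero] at h4
    apply hs1
    have two0 : (2 : k) = 0 := CharTwo.two_eq_zero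
    linear_combination h4 - two0

end even

end MP7fT
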