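import Pool.Agent.Lib.MP_7f581e_ntT.Swap
import Pool.Agent.Lib.MP_7f581e_ntT.Loc

/-!
Transpositions in the Galois groups over a rational function field.
-/

set_option autoImplicit false

namespace MP7fT

open Polynomial

open scoped Classical in
theorem exists_swap' {K E : Type*} [Field K] [Field E] (j : K →+* E) (f : K[X])
    (hsep : f.Separable) (T : Finset E) (hT : ∀ x ∈ T, (f.map j).eval x = 0)
    (hcard : f.natDegree ≤ T.card + 2) (hns : ¬ (f.map j).Splits)
    {L : Type*} [Field L] [Algebra K L] [Fact ((f.map (algebraMap K L)).Splits)] :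
    ∃ σ : f.Gal, (Gal.galActionHom f L σ).IsSwap := by
  let _ : Algebra K E := j.toAlgebra
  exact exists_swap f hsep T (fun x hx => by rw [← eval_map_algebraMap]; exact hT x hx) hcard hns

instance {F : Type*} [Field F] [CharP F 2] : CharP (RatFunc F) 2 :=
  charP_of_injective_algebraMap (algebraMap F (RatFunc F)).injective 2

instance {F : Type*} [Field F] [CharP F 2] : CharP (AlgebraicClosure F) 2 :=
  charP_of_injective_algebraMap (algebraMap F (AlgebraicClosure F)).injective 2

open scoped Classical in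
theorem fo_swap {F : Type*} [Field F] [CharP F 2] {n : ℕ} (hn : 5 ≤ n) (hodd : n % 2 = 1)
    {L : Type*} [Field L] [Algebra (RatFunc F) L]
    [Fact (((fo (RatFunc.X : RatFunc F) n).map (algebraMap (RatFunc F) L)).Splits)] :
    ∃ σ : (fo (RatFunc.X : RatFunc F) n).Gal,
      (Gal.galActionHom (fo (RatFunc.X : RatFunc F) n) L σ).IsSwap := by
  have hp : (X ^ (n - 2) : (AlgebraicClosure F)[X]).natDegree ≠ 0 := by
    rw [natDegree_X_pow]; omega
  have hj : subK (F := F) (X ^ (n - 2) : (AlgebraicClosure F)[X]) hp RatFunc.X =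
      tau (AlgebraicClosure F) ^ (n - 2) := by
    rw [subK_X, Polynomial.coe_pow, Polynomial.coe_X, map_pow]; rfl
  obtain ⟨T, hT, hcard⟩ := fo_roots (k := AlgebraicClosure F) hn hodd
  refine exists_swap' (subK (F := F) (X ^ (n - 2) : (AlgebraicClosure F)[X]) hp) _
    (fo_separable _ RatFunc.X_ne_zero (by omega) hodd) T ?_ ?_ ?_
  · rw [map_fo, hj]; exact hT
  · rw [(fo_monic _ (by omega)).2]; exact hcard
  · rw [map_fo, hj]; exact fo_not_splits hn hodd

theorem ratX_ne_C {F : Type*} [Field F] (c : F) : (RatFunc.X : RatFunc F) ≠ RatFunc.C c := by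
  rw [← RatFunc.algebraMap_X, ← RatFunc.algebraMap_C]
  intro h
  exact Polynomial.X_ne_C c (IsFractionRing.injective F[X] (RatFunc F) h)

open scoped Classical in
theorem fe_swap {F : Type*} [Field F] [CharP F 2] (s : F) (hs0 : s ≠ 0) (hs1 : s ≠ 1) {n : ℕ}
    (hn : 6 ≤ n) (heven : n % 2 = 0) {L : Type*} [Field L] [Algebra (RatFunc F) L]
    [Fact (((fe ((RatFunc.C s) ^ 2) 1 (RatFunc.X : RatFunc F) n).map
      (algebraMap (RatFunc F) L)).Splits)] :
    ∃ σ : (fe ((RatFunc.C s) ^ 2) 1 (RatFunc.X : RatFunc F) n).Gal,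
      (Gal.galActionHom (fe ((RatFunc.C s) ^ 2) 1 (RatFunc.X : RatFunc F) n) L σ).IsSwap := by
  obtain ⟨m, rfl⟩ : ∃ m, n = 2 * m := ⟨n / 2, by omega⟩
  set t : AlgebraicClosure F := algebraMap F (AlgebraicClosure F) s with ht
  have hinj : Function.Injective (algebraMap F (AlgebraicClosure F)) :=
    (algebraMap F (AlgebraicClosure F)).injective
  have ht0 : t ≠ 0 := by rw [ht, Ne, map_eq_zero_iff _ hinj]; exact hs0
  have ht1 : t ≠ 1 := by
    rw [ht, Ne, map_eq_one_iff _ hinj]; exact hs1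
  have hp : (C (t ^ (2 * m)) + X : (AlgebraicClosure F)[X]).natDegree ≠ 0 := by
    rw [add_comm, natDegree_X_add_C]; exact one_ne_zero
  set j := subK (F := F) (C (t ^ (2 * m)) + X : (AlgebraicClosure F)[X]) hp with hj
  have hjX : j RatFunc.X = algebraMap (PowerSeries (AlgebraicClosure F)) _
      (PowerSeries.C (t ^ (2 * m))) + tau (AlgebraicClosure F) := by
    rw [hj, subK_X, Polynomial.coe_add, Polynomial.coe_C, Polynomial.coe_X, map_add]; rfl
  have hjs : j (RatFunc.C s) = algebraMap (PowerSeries (AlgebraicClosure F)) _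
      (PowerSeries.C t) := by
    rw [hj, subK_C]
  have hm : 3 ≤ m := by omega
  obtain ⟨T, hT, hcard⟩ := fe_roots (k := AlgebraicClosure F) t ht0 hm
  have hC1 : RatFunc.C s ≠ (1 : RatFunc F) := by
    rw [← map_one (RatFunc.C : F →+* RatFunc F)]
    exact fun h => hs1 (RatFunc.C.injective h)
  refine exists_swap' j _ (fe_separable _ _ RatFunc.X_ne_zero hC1 ?_ (by omega) (by omega)) T
    ?_ ?_ ?_
  · rw [← map_pow]; exact ratX_ne_C _
  · rw [map_fe, map_pow, hjs, hjX, map_one]; exact hT
  · rw [(fe_monic _ _ _ (by omega)).2]; exact hcard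
  · rw [map_fe, map_pow, hjs, hjX, map_one]; exact fe_not_splits t ht1 hm

end MP7fT
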