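import Pool.Agent.Lib.MP_7f581e_ntT.Tr
import Pool.Agent.Lib.MP_7f581e_ntT.Irr
import Pool.Agent.Lib.MP_7f581e_ntT.Loc2

/-!
The Galois groups over a rational function field are the full symmetric groups.
-/

set_option autoImplicit false

namespace MP7fT

open Polynomial

section generic

/-- From automorphisms fixing a root and moving a second one to 2-transitivity. -/
theorem two_trans_gal {K L : Type*} [Field K] [Field L] [Algebra K L] (f : K[X])
    (hsep : f.Separable) (hdeg : 3 ≤ f.natDegree) [Fact ((f.map (algebraMap K L)).Splits)]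
    (H : ∀ y z z' : L, aeval y f = 0 → aeval z f = 0 → aeval z' f = 0 → z ≠ y → z' ≠ y →
      ∃ σ : L ≃ₐ[K] L, σ y = y ∧ σ z = z')
    (a b c d : f.rootSet L) (hab : a ≠ b) (hcd : c ≠ d) :
    ∃ σ : f.Gal, σ • a = c ∧ σ • b = d := by
  classical
  have hcard : Fintype.card (f.rootSet L) = f.natDegree :=
    card_rootSet_eq_natDegree hsep (Fact.out)
  refine two_trans_of ?_ ?_ a b c d hab hcd
  · intro a b
    by_contra hcon
    push Not at hcon
    have h1 : (Finset.univ : Finset (f.rootSet L)) ⊆ {a, b} := by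
      intro c _
      rw [Finset.mem_insert, Finset.mem_singleton]
      by_cases hc : c = a
      · exact Or.inl hc
      · exact Or.inr (hcon c hc)
    have h2 := Finset.card_le_card h1
    rw [Finset.card_univ, hcard] at h2
    have h3 := Finset.card_le_two (a := a) (b := b)
    omega
  · intro y z z' hzy hzy'
    have hr : ∀ x : f.rootSet L, aeval (x : L) f = 0 := fun x => (mem_rootSet.mp x.2).2
    obtain ⟨σ, h1, h2⟩ := H y z z' (hr y) (hr z) (hr z') (fun h => hzy (Subtype.ext h))
      (fun h => hzy' (Subtype.ext h))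
    refine ⟨Gal.restrict f L σ, Subtype.ext ?_, Subtype.ext ?_⟩
    · rw [Gal.restrict_smul]; exact h1
    · rw [Gal.restrict_smul]; exact h2

/-- Every permutation of an enumeration of the roots is induced by an automorphism. -/
theorem gal_of_surj {K L : Type*} [Field K] [Field L] [Algebra K L] (f : K[X])
    (hsep : f.Separable) {n : ℕ} (y : Fin n → L)
    (hy : f.map (algebraMap K L) = ∏ i, (X - C (y i)))
    (htop : Algebra.adjoin K (Set.range y) = ⊤) [Fact ((f.map (algebraMap K L)).Splits)]
    (hsurj : Function.Surjective (Gal.galActionHom f L)) (σ : Equiv.Perm (Fin n)) :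
    ∃ τ : L ≃ₐ[K] L, ∀ i, τ (y i) = y (σ i) := by
  classical
  have hf0 : f ≠ 0 := hsep.ne_zero
  have hmem : ∀ x : L, x ∈ f.rootSet L ↔ ∃ i, y i = x := by
    intro x
    rw [mem_rootSet, ← eval_map_algebraMap, hy, eval_prod, Finset.prod_eq_zero_iff]
    constructor
    · rintro ⟨-, i, -, hi⟩
      rw [eval_sub, eval_X, eval_C, sub_eq_zero] at hi
      exact ⟨i, hi.symm⟩
    · rintro ⟨i, rfl⟩
      exact ⟨hf0, i, Finset.mem_univ i, by simp⟩
  have hinj : Function.Injective y := by
    have h1 : (∏ i, (X - C (y i)) : L[X]).Separable := by rw [← hy]; exact hsep.map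
    exact separable_prod_X_sub_C_iff.mp h1
  have hspl : IsSplittingField K L f := by
    refine ⟨Fact.out, ?_⟩
    rw [← htop]
    congr 1
    ext x
    rw [hmem]; rfl
  have hnorm : Normal K L := Normal.of_isSplittingField f
  let e : Fin n ≃ f.rootSet L := Equiv.ofBijective (fun i => ⟨y i, (hmem _).mpr ⟨i, rfl⟩⟩)
    ⟨fun i j h => hinj (congrArg Subtype.val h), fun x => by
      obtain ⟨i, hi⟩ := (hmem x).mp x.2
      exact ⟨i, Subtype.ext hi⟩⟩
  obtain ⟨φ, hφ⟩ := hsurj ((e.symm.trans σ).trans e)
  obtain ⟨τ, hτ⟩ := Gal.restrict_surjective f L φ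
  refine ⟨τ, fun i => ?_⟩
  have h1 := Gal.galActionHom_restrict f L τ (e i)
  rw [hτ, hφ] at h1
  have h2 : ((((e.symm.trans σ).trans e) (e i) : f.rootSet L) : L) = y (σ i) := by
    rw [Equiv.trans_apply, Equiv.trans_apply, Equiv.symm_apply_apply]
    rfl
  rw [h2] at h1
  exact h1.symm

end generic

section odd

variable {F : Type*} [Field F] [CharP F 2] {L : Type*} [Field L] [Algebra (RatFunc F) L]

theorem fo_eval_eq {n : ℕ} {y : L} (hy : aeval y (fo (RatFunc.X : RatFunc F) n) = 0) :
    y ^ n + y ^ (n - 2) = algebraMap (RatFunc F) L RatFunc.X := by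
  have : CharP L 2 := charP_of_injective_algebraMap (algebraMap (RatFunc F) L).injective 2
  have two0 : (2 : L) = 0 := CharTwo.two_eq_zero
  unfold fo at hy
  simp only [map_add, map_pow, aeval_X, aeval_C] at hy
  linear_combination hy - algebraMap (RatFunc F) L RatFunc.X * two0

theorem fo_aut [Normal (RatFunc F) L] {n : ℕ} (hn : 5 ≤ n) (hodd : n % 2 = 1) (y z z' : L)
    (hy : aeval y (fo (RatFunc.X : RatFunc F) n) = 0)
    (hz : aeval z (fo (RatFunc.X : RatFunc F) n) = 0)
    (hz' : aeval z' (fo (RatFunc.X : RatFunc F) n) = 0) (hzy : z ≠ y) (hzy' : z' ≠ y) :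
    ∃ σ : L ≃ₐ[RatFunc F] L, σ y = y ∧ σ z = z' := by
  let _ : Algebra F L := ((algebraMap (RatFunc F) L).comp (algebraMap F (RatFunc F))).toAlgebra
  have : IsScalarTower F (RatFunc F) L := IsScalarTower.of_algebraMap_eq fun _ => rfl
  have hX0 : algebraMap (RatFunc F) L RatFunc.X ≠ 0 := by
    rw [Ne, map_eq_zero_iff _ (algebraMap (RatFunc F) L).injective]
    exact RatFunc.X_ne_zero
  have hy' := fo_eval_eq hy
  have ht : Transcendental F y := by
    intro halg
    have h4 : IsAlgebraic F (algebraMap (RatFunc F) L RatFunc.X) := by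
      rw [← hy']
      exact (halg.pow _).add (halg.pow _)
    rw [isAlgebraic_algebraMap_iff (algebraMap (RatFunc F) L).injective] at h4
    exact RatFunc.transcendental_X h4
  have hy0 : y ≠ 0 := by
    rintro rfl
    apply hX0
    rw [← hy', zero_pow (by omega), zero_pow (by omega), add_zero]
  have hv : algebraMap (RatFunc F) L RatFunc.X ∈ (subst y ht).fieldRange := by
    rw [← hy']
    have hyT : y ∈ (subst y ht).fieldRange := ⟨RatFunc.X, subst_X _ _⟩
    exact add_mem (pow_mem hyT _) (pow_mem hyT _)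
  have key : ∀ w : L, aeval w (fo (RatFunc.X : RatFunc F) n) = 0 → w ≠ y →
      (((oPhi F (n - 2)).map (algebraMap F[X] (RatFunc F))).map (subst y ht)).eval (w / y) = 0 := by
    intro w hw hwy
    have hw' := fo_eval_eq hw
    have hcomp : (subst y ht).comp (algebraMap F[X] (RatFunc F)) =
        (aeval y : F[X] →ₐ[F] L).toRingHom := by
      ext1
      · ext c
        simp only [RingHom.comp_apply]
        exact subst_poly _ _ _
      · simp only [RingHom.comp_apply]
        exact subst_poly _ _ _
    have hCC : ((aeval y : F[X] →ₐ[F] L).toRingHom).comp (C : F →+* F[X]) = algebraMap F L := by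
      ext c
      change aeval y (C c) = _
      rw [aeval_C]
    have hgeo : ∀ (m : ℕ) (u : L), (((geo F m).map (C : F →+* F[X])).map
        (aeval y : F[X] →ₐ[F] L).toRingHom).eval u * (u - 1) = u ^ m - 1 := by
      intro m u
      rw [Polynomial.map_map, hCC]
      have h1 := congrArg (fun p : F[X] => (p.map (algebraMap F L)).eval u)
        (geo_mul (F := F) m)
      simpa using h1
    rw [Polynomial.map_map, hcomp, oPhi, Polynomial.map_add, Polynomial.map_mul, map_C, eval_add,
      eval_mul, eval_C]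
    have hX2 : (aeval y : F[X] →ₐ[F] L).toRingHom (X ^ 2) = y ^ 2 := by
      change aeval y (X ^ 2) = _
      rw [map_pow, aeval_X]
    rw [hX2]
    have h1 := hgeo (n - 2 + 2) (w / y)
    have h2 := hgeo (n - 2) (w / y)
    set A := eval (w / y) (((geo F (n - 2 + 2)).map (C : F →+* F[X])).map
        (aeval y : F[X] →ₐ[F] L).toRingHom)
    set B := eval (w / y) (((geo F (n - 2)).map (C : F →+* F[X])).map
        (aeval y : F[X] →ₐ[F] L).toRingHom)
    have hu : w / y - 1 ≠ 0 := by
      intro h
      rw [sub_eq_zero, div_eq_one_iff_eq hy0] at h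
      exact hwy h
    have hw2 : w = (w / y) * y := by field_simp
    set u := w / y
    have h3 : y ^ (n - 2) * ((y ^ 2 * A + B) * (u - 1)) = 0 := by
      have h4 : (y ^ 2 * A + B) * (u - 1) = y ^ 2 * (u ^ (n - 2 + 2) - 1) + (u ^ (n - 2) - 1) := by
        linear_combination y ^ 2 * h1 + h2
      rw [h4]
      have h5 : w ^ n + w ^ (n - 2) = y ^ n + y ^ (n - 2) := by rw [hw', hy']
      rw [hw2, mul_pow, mul_pow] at h5
      obtain ⟨j, rfl⟩ : ∃ j, n = j + 2 := ⟨n - 2, by omega⟩
      rw [Nat.add_sub_cancel] at h5 ⊢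
      linear_combination h5
    rcases mul_eq_zero.mp h3 with h | h
    · exact absurd h (pow_ne_zero _ hy0)
    · exact (mul_eq_zero.mp h).resolve_right hu
  obtain ⟨σ, h1, h2⟩ := exists_aut_gen y ht hv _
    (oPhi_irreducible (F := F) (n := n - 2) (by omega) (by omega)) (z / y) (z' / y)
    (key z hz hzy) (key z' hz' hzy')
  refine ⟨σ, h1, ?_⟩
  rw [map_div₀, h1] at h2
  field_simp at h2
  exact h2

theorem fo_surj [Normal (RatFunc F) L] {n : ℕ} (hn : 5 ≤ n) (hodd : n % 2 = 1)
    [Fact (((fo (RatFunc.X : RatFunc F) n).map (algebraMap (RatFunc F) L)).Splits)] :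
    Function.Surjective (Gal.galActionHom (fo (RatFunc.X : RatFunc F) n) L) := by
  classical
  have hsep : (fo (RatFunc.X : RatFunc F) n).Separable :=
    fo_separable _ RatFunc.X_ne_zero (by omega) hodd
  exact surj_of_swap _ (fun a b c d hab hcd => two_trans_gal _ hsep
    (by rw [(fo_monic _ (by omega)).2]; omega) (fo_aut hn hodd) a b c d hab hcd)
    (fo_swap hn hodd)

end odd

section even

variable {F : Type*} [Field F] [CharP F 2] {L : Type*} [Field L] [Algebra (RatFunc F) L]

/-- The polynomial `P` of the even case. -/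
noncomputable def pe {R : Type*} [CommRing R] (s : R) (n : ℕ) : R[X] :=
  X ^ (n - 1) * (X + C (s ^ 2))

theorem pe_monic {R : Type*} [CommRing R] [Nontrivial R] (s : R) {n : ℕ} (hn : 3 ≤ n) :
    (pe s n).Monic ∧ (pe s n).natDegree = n := by
  have h := fe_monic (s ^ 2) 1 0 hn
  unfold fe at h
  rw [C_0, zero_mul, add_zero] at h
  exact h

theorem fe_aut [Normal (RatFunc F) L] (s : F) (hs1 : s ≠ 1) {n : ℕ} (hn : 6 ≤ n)
    (y z z' : L)
    (hy : aeval y (fe ((RatFunc.C s) ^ 2) 1 (RatFunc.X : RatFunc F) n) = 0)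
    (hz : aeval z (fe ((RatFunc.C s) ^ 2) 1 (RatFunc.X : RatFunc F) n) = 0)
    (hz' : aeval z' (fe ((RatFunc.C s) ^ 2) 1 (RatFunc.X : RatFunc F) n) = 0)
    (hzy : z ≠ y) (hzy' : z' ≠ y) :
    ∃ σ : L ≃ₐ[RatFunc F] L, σ y = y ∧ σ z = z' := by
  let _ : Algebra F L := ((algebraMap (RatFunc F) L).comp (algebraMap F (RatFunc F))).toAlgebra
  have : IsScalarTower F (RatFunc F) L := IsScalarTower.of_algebraMap_eq fun _ => rfl
  have hc : CharP L 2 := charP_of_injective_algebraMap (algebraMap (RatFunc F) L).injective 2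
  have two0 : (2 : L) = 0 := CharTwo.two_eq_zero
  have hrel : ∀ w : L, aeval w (fe ((RatFunc.C s) ^ 2) 1 (RatFunc.X : RatFunc F) n) = 0 →
      aeval w (pe s n) = algebraMap (RatFunc F) L RatFunc.X * (w - 1) := by
    intro w hw
    unfold fe at hw
    unfold pe
    simp only [map_add, map_mul, map_pow, aeval_X, aeval_C, map_one] at hw ⊢
    have e1 : algebraMap (RatFunc F) L (RatFunc.C s) = algebraMap F L s := rfl
    rw [e1] at hw
    linear_combination hw - algebraMap (RatFunc F) L RatFunc.X * w * two0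
  have hy' := hrel y hy
  have hP1 : (pe s n).eval 1 ≠ 0 := by
    unfold pe
    simp only [eval_mul, eval_pow, eval_X, eval_add, eval_C, one_pow, one_mul]
    intro h
    have two0' : (2 : F) = 0 := CharTwo.two_eq_zero
    have h2 : (s - 1) ^ 2 = 0 := by linear_combination h - s * two0'
    exact hs1 (sub_eq_zero.mp (pow_eq_zero_iff (two_ne_zero) |>.mp h2))
  have hy1 : y - 1 ≠ 0 := by
    intro h
    rw [h, mul_zero, sub_eq_zero.mp h] at hy'
    have h3 : aeval (1 : L) (pe s n) = algebraMap F L ((pe s n).eval 1) := by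
      rw [← aeval_algebraMap_apply_eq_algebraMap_eval, map_one]
    rw [h3, map_eq_zero_iff _ (algebraMap F L).injective] at hy'
    exact hP1 hy'
  have hX : algebraMap (RatFunc F) L RatFunc.X = aeval y (pe s n) / (y - 1) := by
    rw [hy']; field_simp
  have ht : Transcendental F y := by
    intro halg
    have h4 : IsAlgebraic F (algebraMap (RatFunc F) L RatFunc.X) := by
      rw [hX, div_eq_mul_inv]
      unfold pe
      simp only [map_mul, map_pow, aeval_X, map_add, aeval_C]
      exact ((halg.pow _).mul (halg.add ((isAlgebraic_algebraMap _).pow _))).mul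
        (halg.sub isAlgebraic_one).inv
    rw [isAlgebraic_algebraMap_iff (algebraMap (RatFunc F) L).injective] at h4
    exact RatFunc.transcendental_X h4
  have hv : algebraMap (RatFunc F) L RatFunc.X ∈ (subst y ht).fieldRange := by
    rw [hX]
    have hyT : y ∈ (subst y ht).fieldRange := ⟨RatFunc.X, subst_X _ _⟩
    have h1 : aeval y (pe s n) ∈ (subst y ht).fieldRange :=
      ⟨algebraMap F[X] (RatFunc F) (pe s n), subst_poly _ _ _⟩
    exact div_mem h1 (sub_mem hyT (one_mem _))
  have key : ∀ w : L, aeval w (fe ((RatFunc.C s) ^ 2) 1 (RatFunc.X : RatFunc F) n) = 0 → w ≠ y →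
      (((gPhi (pe s n)).map (algebraMap F[X] (RatFunc F))).map (subst y ht)).eval w = 0 := by
    intro w hw hwy
    have hw' := hrel w hw
    have hcomp : (subst y ht).comp (algebraMap F[X] (RatFunc F)) =
        (aeval y : F[X] →ₐ[F] L).toRingHom := by
      ext1
      · ext c
        simp only [RingHom.comp_apply]
        exact subst_poly _ _ _
      · simp only [RingHom.comp_apply]
        exact subst_poly _ _ _
    have hCC : ((aeval y : F[X] →ₐ[F] L).toRingHom).comp (C : F →+* F[X]) = algebraMap F L := by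
      ext c
      change aeval y (C c) = _
      rw [aeval_C]
    rw [Polynomial.map_map, hcomp]
    have h3 := congrArg (fun p : F[X][X] => eval w (p.map (aeval y : F[X] →ₐ[F] L).toRingHom))
      (gPsi_eq (pe s n))
    simp only [Polynomial.map_mul, Polynomial.map_sub, Polynomial.map_X, map_C, gPsi,
      Polynomial.map_one, eval_mul, eval_sub, eval_X, eval_C,
      eval_one, Polynomial.map_map, hCC] at h3
    have h4 : (aeval y : F[X] →ₐ[F] L).toRingHom X = y := aeval_X y
    have h5 : (aeval y : F[X] →ₐ[F] L).toRingHom (X - 1) = y - 1 := by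
      rw [map_sub, h4, map_one]
    have h6 : (aeval y : F[X] →ₐ[F] L).toRingHom (pe s n) = aeval y (pe s n) := rfl
    rw [h4, h5, h6, eval_map_algebraMap, hy', hw'] at h3
    have h7 : (w - y) * eval w ((gPhi (pe s n)).map (aeval y : F[X] →ₐ[F] L).toRingHom) = 0 := by
      rw [h3]
      ring
    exact (mul_eq_zero.mp h7).resolve_left (sub_ne_zero.mpr hwy)
  exact exists_aut_gen y ht hv _
    (gPhi_irreducible_map (pe_monic s (by omega)).1 (by rw [(pe_monic s (by omega)).2]; omega) hP1)
    z z' (key z hz hzy) (key z' hz' hzy')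

theorem fe_surj [Normal (RatFunc F) L] (s : F) (hs0 : s ≠ 0) (hs1 : s ≠ 1) {n : ℕ} (hn : 6 ≤ n)
    (heven : n % 2 = 0)
    [Fact (((fe ((RatFunc.C s) ^ 2) 1 (RatFunc.X : RatFunc F) n).map
      (algebraMap (RatFunc F) L)).Splits)] :
    Function.Surjective (Gal.galActionHom (fe ((RatFunc.C s) ^ 2) 1 (RatFunc.X : RatFunc F) n) L) := by
  classical
  have hC1 : RatFunc.C s ≠ (1 : RatFunc F) := by
    rw [← map_one (RatFunc.C : F →+* RatFunc F)]
    exact fun h => hs1 (RatFunc.C.injective h)
  have hsep : (fe ((RatFunc.C s) ^ 2) 1 (RatFunc.X : RatFunc F) n).Separable :=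
    fe_separable _ _ RatFunc.X_ne_zero hC1 (by rw [← map_pow]; exact ratX_ne_C _) (by omega) heven
  exact surj_of_swap _ (fun a b c d hab hcd => two_trans_gal _ hsep
    (by rw [(fe_monic _ _ _ (by omega)).2]; omega) (fe_aut s hs1 hn) a b c d hab hcd)
    (fe_swap s hs0 hs1 hn heven)

end even

end MP7fT
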