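import Pool.Agent.Lib.MP_7f581e_ntT.DiscO
import Pool.Agent.Lib.MP_7f581e_nt.SignGal

/-!
The sign element in odd degree.
-/

set_option autoImplicit false

universe u

namespace MP7fT

open Polynomial MP7f

theorem exists_mod_eight {A : Type*} [CommRing A] (x y : A)
    (h : (Ideal.Quotient.mk (Ideal.span {(8 : A)})) x = (Ideal.Quotient.mk (Ideal.span {(8 : A)})) y) :
    ∃ r : A, x = y + 8 * r := by
  rw [Ideal.Quotient.eq, Ideal.mem_span_singleton] at h
  obtain ⟨r, hr⟩ := h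
  exact ⟨r, by linear_combination hr⟩

theorem eight_eq_zero {A : Type*} [CommRing A] : (8 : A ⧸ Ideal.span {(8 : A)}) = 0 := by
  have : (Ideal.Quotient.mk (Ideal.span {(8 : A)})) 8 = 0 := by
    rw [Ideal.Quotient.eq_zero_iff_mem]
    exact Ideal.mem_span_singleton_self _
  rw [← this, map_ofNat]

theorem two_dvd_A0 (a : A0) (h : (2 : A0) ∣ a ^ 2) : (2 : A0) ∣ a := by
  have h2 : (2 : A0) = C 2 := by simp
  have hp : Prime (2 : A0) := by
    rw [h2, prime_C_iff]; exact Int.prime_two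
  exact hp.dvd_of_dvd_pow h

theorem four_A0 (a : A0) (ha : 4 * a = 0) : a = 0 := by
  rcases mul_eq_zero.mp ha with h | h
  · exact absurd h (by norm_num)
  · exact h

/-- Reduction of the coefficient ring. -/
noncomputable def redO (K : Type u) [Field K] : A0 →+* RatFunc K :=
  eval₂RingHom (Int.castRingHom (RatFunc K)) RatFunc.X

theorem redO_X (K : Type u) [Field K] : redO K X = RatFunc.X := by simp [redO]

theorem sign_fo (K : Type u) [Field K] [CharP K 2] {m : ℕ} (hm : 2 ≤ m) :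
    ∃ w : RatFunc K, ∀ (L : Type u) [Field L] (φ : RatFunc K →+* L) (y : Fin (2 * m + 1) → L),
      Function.Injective y →
      (fo (RatFunc.X : RatFunc K) (2 * m + 1)).map φ = ∏ i, (X - C (y i)) →
      vP y ≠ 0 ∧ (vE y / vP y + φ w) ^ 2 + (vE y / vP y + φ w) =
        φ ((cO m : RatFunc K) + 1 / RatFunc.X) := by
  obtain ⟨h1, h2⟩ := fo_monic (algebraMap A0 Om X) (n := 2 * m + 1) (by omega)
  obtain ⟨yt, hyt⟩ := exists_prod_fin _ h1 h2
  have hyt' : (fo (X : A0) (2 * m + 1)).map (algebraMap A0 Om) = ∏ i, (X - C (yt i)) := by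
    rw [map_fo, hyt]
  set d : A0 := (-1) ^ m * (X ^ (2 * m - 2) * ((2 * m + 1 : A0) ^ (2 * m + 1) * X ^ 2 +
      4 * (2 * m - 1 : A0) ^ (2 * m - 1))) with hd
  have hdv : algebraMap A0 Om d = vV yt ^ 2 := by
    rw [disc_fo _ (by omega) yt hyt, hd]
    simp only [map_mul, map_pow, map_neg, map_one, map_add, map_sub, map_natCast, map_ofNat]
  obtain ⟨r, hr⟩ : ∃ r : A0, d = ((X ^ m) ^ 2 + 4 * ((cO m : A0) * X ^ (2 * m) + X ^ (2 * m - 2))) +
      8 * r := by
    apply exists_mod_eight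
    have := cong_fo (eight_eq_zero (A := A0)) (Ideal.Quotient.mk (Ideal.span {(8 : A0)}) X)
      (m := m) (by omega)
    rw [hd]
    simp only [map_mul, map_pow, map_neg, map_one, map_add, map_sub, map_natCast, map_ofNat]
    exact this
  obtain ⟨η, hη⟩ := exists_eta.{u} two_dvd_A0 four_A0 (fo (X : A0) (2 * m + 1)) (algebraMap A0 Om)
    algMap_inj yt hyt' d 1 (X ^ m) ((cO m : A0) * X ^ (2 * m) + X ^ (2 * m - 2)) r hdv
    (by rw [hr]; ring)
  refine ⟨redO K η / RatFunc.X ^ m + 1 / RatFunc.X, ?_⟩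
  intro L _ φ y hinj hy
  have hc : CharP (RatFunc K) 2 := charP_of_injective_algebraMap
    (algebraMap K (RatFunc K)).injective 2
  have hcL : CharP L 2 := charP_of_injective_ringHom φ.injective 2
  have two0 : (2 : L) = 0 := CharTwo.two_eq_zero
  obtain ⟨e1, e2, e3⟩ := hη L (φ.comp (redO K)) y hinj (by
    rw [← Polynomial.map_map, map_fo, redO_X, hy]) (by simp)
  refine ⟨e2, ?_⟩
  have hX : φ RatFunc.X ≠ 0 := by
    rw [Ne, map_eq_zero_iff _ φ.injective]; exact RatFunc.X_ne_zero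
  simp only [RingHom.comp_apply, map_mul, map_add, map_pow, redO_X, map_natCast] at e3
  set x := φ RatFunc.X with hx
  set q := vE y / vP y
  have h5 : (cO m * x ^ (2 * m) + x ^ (2 * m - 2)) / (x ^ m) ^ 2 = cO m + 1 / x ^ 2 := by
    obtain ⟨j, rfl⟩ : ∃ j, m = j + 1 := ⟨m - 1, by omega⟩
    have e5 : 2 * (j + 1) - 2 = 2 * j := by omega
    rw [e5]
    field_simp
    ring
  rw [h5] at e3
  simp only [map_add, map_div₀, map_pow, map_one, map_natCast]
  rw [← hx]
  have h6 : φ (redO K η) / x ^ m + 1 / x = φ (redO K η) / x ^ m + 1 / x := rfl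
  set t := φ (redO K η) / x ^ m
  have h7 : (q + (t + 1 / x)) ^ 2 + (q + (t + 1 / x)) =
      ((q + t) ^ 2 + (q + t)) + 1 / x ^ 2 + 1 / x + 2 * ((q + t) * (1 / x)) := by
    have : (1 / x) ^ 2 = 1 / x ^ 2 := by rw [div_pow, one_pow]
    linear_combination this
  rw [h7, e3, two0]
  have h8 : 1 / x ^ 2 + 1 / x ^ 2 = 0 := CharTwo.add_self_eq_zero _
  linear_combination h8

end MP7fT
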