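import Pool.Agent.Lib.MP_7f581e_ntT.DiscE
import Pool.Agent.Lib.MP_7f581e_ntT.SignO

/-!
The sign element in even degree.
-/

set_option autoImplicit false

universe u

namespace MP7fT

open Polynomial MP7f

/-- The coefficient ring `ℤ[s][v]`. -/
abbrev A1 := Polynomial A0

/-- An algebraic closure of its field of fractions. -/
abbrev Om1 := AlgebraicClosure (FractionRing A1)

instance : CharZero (FractionRing A1) := charZero_of_injective_algebraMap
  (IsFractionRing.injective A1 (FractionRing A1))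

instance : CharZero Om1 := charZero_of_injective_algebraMap
  (algebraMap (FractionRing A1) Om1).injective

theorem algMap1_inj : Function.Injective (algebraMap A1 Om1) := by
  rw [IsScalarTower.algebraMap_eq A1 (FractionRing A1) Om1]
  exact (algebraMap (FractionRing A1) Om1).injective.comp
    (IsFractionRing.injective A1 (FractionRing A1))

theorem two_dvd_A1 (a : A1) (h : (2 : A1) ∣ a ^ 2) : (2 : A1) ∣ a := by
  have h2 : (2 : A1) = C (C 2) := by
    rw [show (C (2 : ℤ) : A0) = 2 by simp, map_ofNat]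
  have hp : Prime (2 : A1) := by
    rw [h2, prime_C_iff, prime_C_iff]; exact Int.prime_two
  exact hp.dvd_of_dvd_pow h

theorem four_A1 (a : A1) (ha : 4 * a = 0) : a = 0 := by
  rcases mul_eq_zero.mp ha with h | h
  · exact absurd h (by norm_num)
  · exact h

/-- Reduction of the coefficient ring. -/
noncomputable def redE (K : Type u) [Field K] (s : K) : A1 →+* RatFunc K :=
  eval₂RingHom (eval₂RingHom (Int.castRingHom (RatFunc K)) (RatFunc.C s)) RatFunc.X

theorem redE_X (K : Type u) [Field K] (s : K) : redE K s X = RatFunc.X := by simp [redE]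

theorem redE_s (K : Type u) [Field K] (s : K) : redE K s (C X) = RatFunc.C s := by simp [redE]

/-- The correction term. -/
def kE {R : Type*} [CommRing R] (s : R) (m : ℕ) : R :=
  if m % 2 = 0 then s ^ (2 * m) + s ^ (2 * m + 1) else s ^ (2 * m - 1)

/-- The residue of the sign character. -/
def gE {R : Type*} [CommRing R] (s : R) (m : ℕ) : R :=
  if m % 2 = 0 then s ^ (2 * m + 1) * (s + 1) else s ^ (2 * m - 2) * (s + 1)

theorem map_uE {R S : Type*} [CommRing R] [CommRing S] (g : R →+* S) (s : R) (m : ℕ) :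
    g (uE s m) = uE (g s) m := by
  unfold uE; split_ifs <;> simp

theorem map_kE {R S : Type*} [CommRing R] [CommRing S] (g : R →+* S) (s : R) (m : ℕ) :
    g (kE s m) = kE (g s) m := by
  unfold kE; split_ifs <;> simp

theorem map_gE {R S : Type*} [CommRing R] [CommRing S] (g : R →+* S) (s : R) (m : ℕ) :
    g (gE s m) = gE (g s) m := by
  unfold gE; split_ifs <;> simp

theorem kE_sq {R : Type*} [CommRing R] [CharP R 2] (s : R) {m : ℕ} (hm : 2 ≤ m) :
    kE s m ^ 2 = s ^ (2 * m) * uE s m := by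
  have two0 : (2 : R) = 0 := CharTwo.two_eq_zero
  obtain ⟨j, rfl⟩ : ∃ j, m = j + 1 := ⟨m - 1, by omega⟩
  have e1 : 2 * (j + 1) - 1 = 2 * j + 1 := by omega
  have e2 : 2 * (j + 1) - 2 = 2 * j := by omega
  unfold kE uE
  rw [e1, e2]
  split_ifs
  · linear_combination (s ^ (2 * (j + 1)) * s ^ (2 * (j + 1) + 1)) * two0
  · ring

theorem uE_add_kE {R : Type*} [CommRing R] [CharP R 2] (s : R) {m : ℕ} (hm : 2 ≤ m) :
    uE s m + kE s m = gE s m := by
  have two0 : (2 : R) = 0 := CharTwo.two_eq_zero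
  obtain ⟨j, rfl⟩ : ∃ j, m = j + 1 := ⟨m - 1, by omega⟩
  have e1 : 2 * (j + 1) - 1 = 2 * j + 1 := by omega
  have e2 : 2 * (j + 1) - 2 = 2 * j := by omega
  unfold kE uE gE
  rw [e1, e2]
  split_ifs
  · linear_combination (s ^ (2 * (j + 1))) * two0
  · ring

/-- The closed formula for the discriminant. -/
def dE {R : Type*} [CommRing R] (s v : R) (m : ℕ) : R :=
  -((-1) ^ m * (v ^ (2 * m - 2) * (2 * m - 1 : R) ^ (2 * m - 1) *
      (((2 * m - 1 : R) ^ 2 * s ^ 2) ^ (2 * m - 1) * s ^ 2 +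
        2 * v * (2 * m * qq (-(m + (m - 1) * s ^ 2)) ((2 * m - 1 : R) ^ 2 * s ^ 2) (2 * m - 1) +
          ((2 * m - 1 : R) ^ 2 * s ^ 2) *
            qq (-(m + (m - 1) * s ^ 2)) ((2 * m - 1 : R) ^ 2 * s ^ 2) (2 * m - 2)) + v ^ 2)))

theorem map_dE {R S : Type*} [CommRing R] [CommRing S] (g : R →+* S) (s v : R) (m : ℕ) :
    g (dE s v m) = dE (g s) (g v) m := by
  unfold dE
  simp only [map_mul, map_pow, map_neg, map_one, map_add, map_sub, map_natCast, map_ofNat,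
      map_qq]

/-- The first term of the congruence. -/
def epsE {R : Type*} [CommRing R] (s v : R) (m : ℕ) : R := v ^ (m - 1) * (v + s ^ (2 * m))

/-- The second term of the congruence. -/
def zetE {R : Type*} [CommRing R] (s v : R) (m : ℕ) : R :=
  v ^ (2 * m - 2) * (cE m * (v ^ 2 + s ^ (4 * m)) + v * uE s m)

theorem map_epsE {R S : Type*} [CommRing R] [CommRing S] (g : R →+* S) (s v : R) (m : ℕ) :
    g (epsE s v m) = epsE (g s) (g v) m := by
  unfold epsE
  simp only [map_mul, map_pow, map_add]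

theorem map_zetE {R S : Type*} [CommRing R] [CommRing S] (g : R →+* S) (s v : R) (m : ℕ) :
    g (zetE s v m) = zetE (g s) (g v) m := by
  unfold zetE
  simp only [map_mul, map_pow, map_add, map_natCast, map_uE]

theorem cong_dE {A : Type*} [CommRing A] (s v : A) {m : ℕ} (hm : 2 ≤ m) :
    ∃ r : A, dE s v m = (epsE s v m ^ 2 + 4 * zetE s v m) + 8 * r := by
  apply exists_mod_eight
  rw [map_dE, map_add, map_mul, map_pow, map_epsE, map_zetE, map_ofNat]
  exact cong_fe (eight_eq_zero (A := A)) _ _ hm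

theorem castN {K : Type*} [CommRing K] [CharP K 2] (m : ℕ) : 2 * (m : K) - 1 = 1 := by
  rw [CharTwo.two_eq_zero, zero_mul, zero_sub, CharTwo.neg_eq]

theorem exists_eta_fe (m : ℕ) (hm : 2 ≤ m) :
    ∃ η : A1, ∀ (L : Type u) [Field L] [CharP L 2] (φ : A1 →+* L) (y : Fin (2 * m) → L),
      Function.Injective y → (fe (φ (C X) ^ 2) 1 (φ X) (2 * m)) = ∏ i, (X - C (y i)) →
      epsE (φ (C X)) (φ X) m ≠ 0 ∧ vP y ≠ 0 ∧
        (vE y / vP y + φ η / epsE (φ (C X)) (φ X) m) ^ 2 +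
          (vE y / vP y + φ η / epsE (φ (C X)) (φ X) m) =
            zetE (φ (C X)) (φ X) m / epsE (φ (C X)) (φ X) m ^ 2 := by
  obtain ⟨st, hst⟩ : ∃ st : A1, st = C X := ⟨_, rfl⟩
  obtain ⟨vt, hvt⟩ : ∃ vt : A1, vt = X := ⟨_, rfl⟩
  rw [← hst, ← hvt]
  have hιinj := algMap1_inj
  obtain ⟨ι, hι⟩ : ∃ ι : A1 →+* Om1, ι = algebraMap A1 Om1 := ⟨_, rfl⟩
  rw [← hι] at hιinj
  have hιN : ι (2 * (m : A1) - 1) = 2 * (m : Om1) - 1 := by
    simp only [map_mul, map_one, map_sub, map_natCast, map_ofNat]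
  obtain ⟨h1, h2⟩ := fe_monic ((2 * (m : Om1) - 1) * (ι st) ^ 2) (2 * (m : Om1) - 1) (ι vt)
    (n := 2 * m) (by omega)
  obtain ⟨yt, hyt⟩ := exists_prod_fin _ h1 h2
  have hyt' : (fe ((2 * (m : A1) - 1) * st ^ 2) (2 * (m : A1) - 1) vt (2 * m)).map ι =
      ∏ i, (X - C (yt i)) := by
    rw [map_fe, map_mul, map_pow, hιN, hyt]
  have hs1 : (ι st) ^ 2 ≠ 1 := by
    rw [← map_pow, ← map_one ι]
    intro h
    have h3 := hιinj h
    have h4 := congrArg (fun p : A1 => (p.eval 0).eval 2) h3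
    rw [hst] at h4
    simp only [eval_pow, eval_C, eval_X, eval_one] at h4
    norm_num at h4
  have hdv : ι (dE st vt m) = vV yt ^ 2 := by
    rw [disc_fe _ _ hs1 hm yt hyt, map_dE]; rfl
  obtain ⟨r, hr⟩ := cong_dE st vt hm
  obtain ⟨η, hη⟩ := exists_eta.{u} two_dvd_A1 four_A1
    (fe ((2 * (m : A1) - 1) * st ^ 2) (2 * (m : A1) - 1) vt (2 * m)) ι
    hιinj yt hyt' (dE st vt m) 1 (epsE st vt m) (zetE st vt m) r hdv (by rw [hr]; ring)
  refine ⟨η, ?_⟩
  intro L _ _ φ y hinj hy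
  obtain ⟨e1, e2, e3⟩ := hη L φ y hinj (by
    rw [map_fe, ← hy, map_mul, map_pow]
    have : φ (2 * (m : A1) - 1) = 1 := by
      simp only [map_mul, map_one, map_sub, map_natCast, map_ofNat]
      exact castN m
    rw [this, one_mul]) (by rw [map_one]; exact one_ne_zero)
  rw [map_epsE] at e1 e3
  rw [map_zetE] at e3
  exact ⟨e1, e2, e3⟩

theorem sign_fe (K : Type u) [Field K] [CharP K 2] (s : K) {m : ℕ} (hm : 2 ≤ m) :
    ∃ w : RatFunc K, ∀ (L : Type u) [Field L] (φ : RatFunc K →+* L) (y : Fin (2 * m) → L),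
      Function.Injective y →
      (fe ((RatFunc.C s) ^ 2) 1 (RatFunc.X : RatFunc K) (2 * m)).map φ = ∏ i, (X - C (y i)) →
      vP y ≠ 0 ∧ (vE y / vP y + φ w) ^ 2 + (vE y / vP y + φ w) =
        φ ((cE m : RatFunc K) + RatFunc.C (gE s m) / (RatFunc.X + RatFunc.C (s ^ (2 * m)))) := by
  obtain ⟨η, hη⟩ := exists_eta_fe.{u} m hm
  refine ⟨redE K s η / (RatFunc.X ^ (m - 1) * (RatFunc.X + RatFunc.C s ^ (2 * m))) +
    RatFunc.C (kE s m) / (RatFunc.X + RatFunc.C s ^ (2 * m)), ?_⟩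
  intro L _ φ y hinj hy
  have hc : CharP (RatFunc K) 2 := charP_of_injective_algebraMap
    (algebraMap K (RatFunc K)).injective 2
  have hcL : CharP L 2 := charP_of_injective_ringHom φ.injective 2
  have two0 : (2 : L) = 0 := CharTwo.two_eq_zero
  obtain ⟨e1, e2, e3⟩ := hη L (φ.comp (redE K s)) y hinj (by
    rw [RingHom.comp_apply, RingHom.comp_apply, redE_X, redE_s, ← hy, map_fe, map_pow, map_one])
  refine ⟨e2, ?_⟩
  simp only [RingHom.comp_apply, redE_X, redE_s] at e1 e3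
  simp only [map_add, map_div₀, map_mul, map_pow, map_natCast, map_kE, map_gE]
  obtain ⟨x, hx⟩ : ∃ x, x = φ RatFunc.X := ⟨_, rfl⟩
  obtain ⟨σ, hσ⟩ : ∃ σ, σ = φ (RatFunc.C s) := ⟨_, rfl⟩
  rw [← hx, ← hσ] at e1 e3 ⊢
  obtain ⟨q, hq⟩ : ∃ q, q = vE y / vP y := ⟨_, rfl⟩
  rw [← hq] at e3 ⊢
  unfold epsE at e1 e3
  unfold zetE at e3
  have hx0 : x ^ (m - 1) ≠ 0 := fun h => e1 (by rw [h, zero_mul])
  have hz0 : x + σ ^ (2 * m) ≠ 0 := fun h => e1 (by rw [h, mul_zero])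
  obtain ⟨z, hz⟩ : ∃ z, z = x + σ ^ (2 * m) := ⟨_, rfl⟩
  rw [← hz] at e3 hz0 ⊢
  have h5 : x ^ (2 * m - 2) * ((cE m : L) * (x ^ 2 + σ ^ (4 * m)) + x * uE σ m) /
      (x ^ (m - 1) * z) ^ 2 = (cE m : L) + x * uE σ m / z ^ 2 := by
    have e5 : x ^ (2 * m - 2) = (x ^ (m - 1)) ^ 2 := by rw [← pow_mul]; congr 1; omega
    have e6 : x ^ 2 + σ ^ (4 * m) = z ^ 2 := by
      have : σ ^ (4 * m) = (σ ^ (2 * m)) ^ 2 := by rw [← pow_mul]; congr 1; ring
      rw [this, hz]; linear_combination (-x * σ ^ (2 * m)) * two0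
    rw [e5, e6]
    field_simp
  rw [h5] at e3
  obtain ⟨t, ht⟩ : ∃ t, t = φ (redE K s η) / (x ^ (m - 1) * z) := ⟨_, rfl⟩
  rw [← ht] at e3 ⊢
  have k1 := kE_sq σ hm
  have k2 := uE_add_kE σ hm
  obtain ⟨κ, hκ⟩ : ∃ κ, κ = kE σ m := ⟨_, rfl⟩
  obtain ⟨U, hU⟩ : ∃ U, U = uE σ m := ⟨_, rfl⟩
  rw [← hκ, ← hU] at k1 k2
  rw [← hU] at e3
  rw [← hκ, ← k2]
  have h7 : (q + (t + κ / z)) ^ 2 + (q + (t + κ / z)) =
      ((q + t) ^ 2 + (q + t)) + κ ^ 2 / z ^ 2 + κ / z + 2 * ((q + t) * (κ / z)) := by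
    have : (κ / z) ^ 2 = κ ^ 2 / z ^ 2 := by rw [div_pow]
    linear_combination this
  rw [h7, e3, two0, k1]
  have hxz : x = z + σ ^ (2 * m) := by rw [hz]; linear_combination (-σ ^ (2 * m)) * two0
  rw [hxz]
  field_simp
  linear_combination (σ ^ (2 * m) * U) * two0

end MP7fT
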