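import Pool.Agent.Lib.MP_7f581e_ntA.Gadget
import Pool.Agent.Lib.MP_7f581e_ntT.Gal
import Pool.Agent.Lib.MP_7f581e_ntT.SignE

/-!
The symmetric pencils with rational sign field in characteristic two, in all degrees `n ≥ 5`.
-/

set_option autoImplicit false

universe u

namespace MP7fT

open Polynomial Equiv

theorem splits_of_prod {K L : Type*} [Field K] [Field L] [Algebra K L] (f : K[X]) {n : ℕ}
    (y : Fin n → L) (hy : f.map (algebraMap K L) = ∏ i, (X - C (y i))) :
    (f.map (algebraMap K L)).Splits := by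
  rw [hy]
  exact Polynomial.Splits.prod fun i _ => Polynomial.Splits.X_sub_C _

theorem normal_of_prod {K L : Type*} [Field K] [Field L] [Algebra K L] (f : K[X]) {n : ℕ}
    (hf0 : f ≠ 0) (y : Fin n → L) (hy : f.map (algebraMap K L) = ∏ i, (X - C (y i)))
    (htop : Algebra.adjoin K (Set.range y) = ⊤) : Normal K L := by
  have hmem : ∀ x : L, x ∈ f.rootSet L ↔ ∃ i, y i = x := by
    intro x
    rw [mem_rootSet, ← eval_map_algebraMap, hy, eval_prod, Finset.prod_eq_zero_iff]
    constructor
    · rintro ⟨-, i, -, hi⟩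
      rw [eval_sub, eval_X, eval_C, sub_eq_zero] at hi
      exact ⟨i, hi.symm⟩
    · rintro ⟨i, rfl⟩
      exact ⟨hf0, i, Finset.mem_univ i, by simp⟩
  have hspl : IsSplittingField K L f := by
    refine ⟨splits_of_prod f y hy, ?_⟩
    rw [← htop]
    congr 1
    ext x
    rw [hmem]; rfl
  exact Normal.of_isSplittingField f

theorem nonempty_gaOdd (m : ℕ) (hm : 2 ≤ m) (K : Type u) [Field K] [CharP K 2] :
    Nonempty (MP7fA.GA (2 * m + 1) K) := by
  obtain ⟨w, hw⟩ := sign_fo K hm
  have hpen : ∀ (F : Type u) [Field F], MP7fA.pen (X ^ (2 * m + 1) + X ^ (2 * m + 1 - 2) : F[X]) 1 =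
      fo RatFunc.X (2 * m + 1) := by
    intro F _
    simp [MP7fA.pen, fo]
  have hPm : ∀ (F : Type u) [Field F], (X ^ (2 * m + 1) + X ^ (2 * m + 1 - 2) : F[X]).Monic ∧
      (X ^ (2 * m + 1) + X ^ (2 * m + 1 - 2) : F[X]).natDegree = 2 * m + 1 := by
    intro F _
    have := fo_monic (0 : F) (n := 2 * m + 1) (by omega)
    unfold fo at this
    rwa [C_0, add_zero] at this
  refine ⟨{
    P := X ^ (2 * m + 1) + X ^ (2 * m + 1 - 2)
    Q := 1
    c := (cO m : K)
    γ := 1
    b := 0
    w := w
    hγ := one_ne_zero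
    monic := (hPm K).1
    deg := (hPm K).2
    degQ := ?_
    sep := ?_
    sign := ?_
    gal := ?_ }⟩
  · rw [degree_one]; exact_mod_cast (by omega : 0 < 2 * m + 1)
  · rw [hpen]
    exact fo_separable _ RatFunc.X_ne_zero (by omega) (by omega)
  · intro L _ φ y hinj hy
    rw [hpen] at hy
    have := hw L φ y hinj hy
    simpa only [map_natCast, map_one, map_zero, add_zero] using this
  · intro F _ _ L _ _ y hy htop σ
    have hcF : CharP F 2 := charP_of_injective_algebraMap (algebraMap K F).injective 2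
    have hmap : (X ^ (2 * m + 1) + X ^ (2 * m + 1 - 2) : K[X]).map (algebraMap K F) =
        X ^ (2 * m + 1) + X ^ (2 * m + 1 - 2) := by simp
    rw [hmap, Polynomial.map_one, hpen] at hy
    have hsep : (fo (RatFunc.X : RatFunc F) (2 * m + 1)).Separable :=
      fo_separable _ RatFunc.X_ne_zero (by omega) (by omega)
    have hfact : Fact (((fo (RatFunc.X : RatFunc F) (2 * m + 1)).map
      (algebraMap (RatFunc F) L)).Splits) := ⟨splits_of_prod _ y hy⟩
    have hnorm : Normal (RatFunc F) L := normal_of_prod _ hsep.ne_zero y hy htop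
    exact gal_of_surj _ hsep y hy htop (fo_surj (by omega) (by omega)) σ

theorem nonempty_gaEven (m : ℕ) (hm : 3 ≤ m) (K : Type u) [Field K] [CharP K 2] (s : K)
    (hs : s ≠ 0) (hs1 : s ≠ 1) : Nonempty (MP7fA.GA (2 * m) K) := by
  obtain ⟨w, hw⟩ := sign_fe K s (m := m) (by omega)
  have hpen : ∀ (F : Type u) [Field F] (t : F), MP7fA.pen (pe t (2 * m)) (X + 1) =
      fe (RatFunc.C t ^ 2) 1 RatFunc.X (2 * m) := by
    intro F _ t
    unfold MP7fA.pen fe pe
    simp
  have hC1 : ∀ (F : Type u) [Field F] (t : F), t ≠ 1 → RatFunc.C t ≠ (1 : RatFunc F) := by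
    intro F _ t ht
    rw [← map_one (RatFunc.C : F →+* RatFunc F)]
    exact fun h => ht (RatFunc.C.injective h)
  refine ⟨{
    P := pe s (2 * m)
    Q := X + 1
    c := (cE m : K)
    γ := gE s m
    b := s ^ (2 * m)
    w := w
    hγ := ?_
    monic := (pe_monic s (by omega)).1
    deg := (pe_monic s (by omega)).2
    degQ := ?_
    sep := ?_
    sign := ?_
    gal := ?_ }⟩
  · have h2 : s + 1 ≠ 0 := by
      intro h
      have two0 : (2 : K) = 0 := CharTwo.two_eq_zero
      exact hs1 (by linear_combination h - two0)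
    unfold gE
    split_ifs
    · exact mul_ne_zero (pow_ne_zero _ hs) h2
    · exact mul_ne_zero (pow_ne_zero _ hs) h2
  · have h1 : (X + 1 : K[X]).degree = 1 := by
      have := degree_X_add_C (1 : K)
      rwa [C_1] at this
    rw [h1]; exact_mod_cast (by omega : 1 < 2 * m)
  · rw [hpen]
    exact fe_separable _ _ RatFunc.X_ne_zero (hC1 K s hs1)
      (by rw [← map_pow]; exact ratX_ne_C _) (by omega) (by omega)
  · intro L _ φ y hinj hy
    rw [hpen] at hy
    have := hw L φ y hinj hy
    rw [map_natCast]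
    exact this
  · intro F _ _ L _ _ y hy htop σ
    have hcF : CharP F 2 := charP_of_injective_algebraMap (algebraMap K F).injective 2
    have hmap : (pe s (2 * m)).map (algebraMap K F) = pe (algebraMap K F s) (2 * m) := by
      unfold pe; simp
    have hmap2 : (X + 1 : K[X]).map (algebraMap K F) = X + 1 := by simp
    rw [hmap, hmap2, hpen] at hy
    set t := algebraMap K F s with ht
    have ht0 : t ≠ 0 := by
      rw [ht, Ne, map_eq_zero_iff _ (algebraMap K F).injective]; exact hs
    have ht1 : t ≠ 1 := by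
      rw [ht, Ne, map_eq_one_iff _ (algebraMap K F).injective]; exact hs1
    have hsep : (fe ((RatFunc.C t) ^ 2) 1 (RatFunc.X : RatFunc F) (2 * m)).Separable :=
      fe_separable _ _ RatFunc.X_ne_zero (hC1 F t ht1)
        (by rw [← map_pow]; exact ratX_ne_C _) (by omega) (by omega)
    have hfact : Fact (((fe ((RatFunc.C t) ^ 2) 1 (RatFunc.X : RatFunc F) (2 * m)).map
      (algebraMap (RatFunc F) L)).Splits) := ⟨splits_of_prod _ y hy⟩
    have hnorm : Normal (RatFunc F) L := normal_of_prod _ hsep.ne_zero y hy htop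
    exact gal_of_surj _ hsep y hy htop (fe_surj t ht0 ht1 (by omega) (by omega)) σ

/-- The symmetric pencil in odd degree. -/
noncomputable def gaOdd (n : ℕ) (hn : Odd n) (h5 : 5 ≤ n) (K : Type u) [Field K] [CharP K 2] :
    MP7fA.GA n K :=
  Classical.choice (by
    obtain ⟨m, rfl⟩ := hn
    exact nonempty_gaOdd m (by omega) K)

/-- The symmetric pencil in even degree. -/
noncomputable def gaEven (n : ℕ) (hn : Even n) (h6 : 6 ≤ n) (K : Type u) [Field K] [CharP K 2]
    (s : K) (hs : s ≠ 0) (hs1 : s ≠ 1) : MP7fA.GA n K :=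
  Classical.choice (by
    obtain ⟨m, rfl⟩ := hn
    rw [← two_mul]
    exact nonempty_gaEven m (by omega) K s hs hs1)

end MP7fT
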