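import Pool.Agent.Lib.MP_7f581e_ntA.Move
import Pool.Agent.Lib.MP_7f581e_ntT.Ga

/-!
Pencils `P + v Q` over an arbitrary field: transpositions, 2-transitivity, separability.
-/

set_option autoImplicit false

universe u

namespace MP7fT

open Polynomial Equiv

section bar

variable {F : Type*} [Field F]

/-- The special member of the pencil at a simple critical value. -/
theorem factor_bar (P Q : F[X]) (ρ v1 : F) (q1 : F[X])
    (hq : derivative P * Q - P * derivative Q = (X - C ρ) * q1)
    (hv : P.eval ρ + v1 * Q.eval ρ = 0) (hQ : Q.eval ρ ≠ 0)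
    (hc : IsCoprime (P + C v1 * Q) q1) :
    ∃ h : F[X], P + C v1 * Q = (X - C ρ) ^ 2 * h ∧ h.Separable ∧ h.eval ρ ≠ 0 := by
  set f := P + C v1 * Q with hf
  have hf0 : f.eval ρ = 0 := by
    rw [hf]; simpa using hv
  obtain ⟨g, hg⟩ := dvd_iff_isRoot.mpr hf0
  have hrel : derivative f * Q - f * derivative Q = (X - C ρ) * q1 := by
    rw [← hq, hf]
    simp only [derivative_add, derivative_mul, derivative_C]
    ring
  have hg0 : g.eval ρ = 0 := by
    have h1 := congrArg (eval ρ) hrel
    rw [hg] at h1
    simp only [derivative_mul, derivative_sub, derivative_X, derivative_C, eval_sub, eval_mul,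
      eval_add, eval_X, eval_C, sub_self, sub_zero, eval_one] at h1
    have h2 : g.eval ρ * Q.eval ρ = 0 := by linear_combination h1
    exact (mul_eq_zero.mp h2).resolve_right hQ
  obtain ⟨h, hh⟩ := dvd_iff_isRoot.mpr hg0
  have hfac : f = (X - C ρ) ^ 2 * h := by rw [hg, hh]; ring
  have hq1 : q1 = h * (2 * Q - (X - C ρ) * derivative Q) + (X - C ρ) * Q * derivative h := by
    apply mul_left_cancel₀ (X_sub_C_ne_zero ρ)
    rw [← hrel, hfac]
    have hd : derivative ((X - C ρ) ^ 2 * h) = 2 * (X - C ρ) * h + (X - C ρ) ^ 2 * derivative h := by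
      rw [derivative_mul, derivative_X_sub_C_pow]
      simp only [Nat.cast_ofNat, map_ofNat]
      ring
    rw [hd]; ring
  have hcop : IsCoprime h q1 := by
    refine hc.of_isCoprime_of_dvd_left ?_
    rw [hfac]; exact dvd_mul_left _ _
  have hcop2 : IsCoprime h ((X - C ρ) * Q * derivative h) := by
    rw [hq1] at hcop
    have := hcop.add_mul_left_right (-(2 * Q - (X - C ρ) * derivative Q))
    have e : h * (2 * Q - (X - C ρ) * derivative Q) + (X - C ρ) * Q * derivative h +
        h * -(2 * Q - (X - C ρ) * derivative Q) = (X - C ρ) * Q * derivative h := by ring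
    rwa [e] at this
  refine ⟨h, hfac, hcop2.of_mul_right_right, ?_⟩
  intro h0
  have hc3 : IsCoprime h (X - C ρ) := hcop2.of_mul_right_left.of_mul_right_left
  obtain ⟨a, b, hab⟩ := hc3
  have h1 := congrArg (eval ρ) hab
  simp only [eval_add, eval_mul, h0, eval_sub, eval_X, eval_C, sub_self, mul_zero, add_zero,
    eval_one] at h1
  exact zero_ne_one h1

end bar

section loc

variable {k : Type*} [Field k]

/-- A polynomial with constant coefficients over the field of Laurent series. -/
noncomputable def cst (P : k[X]) : (PowerSeries k)[X] := P.map (PowerSeries.C (R := k))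

theorem cst_red (P : k[X]) : (cst P).map (PowerSeries.constantCoeff (R := k)) = P := by
  unfold cst
  rw [Polynomial.map_map]
  have : (PowerSeries.constantCoeff (R := k)).comp (PowerSeries.C (R := k)) = RingHom.id k := by
    ext; simp
  rw [this, Polynomial.map_id]

theorem monic_pencil {R : Type*} [CommRing R] [Nontrivial R] (P Q : R[X]) (v : R)
    (hP : P.Monic) (hQ : Q.degree < P.degree) :
    (P + C v * Q).Monic ∧ (P + C v * Q).natDegree = P.natDegree := by
  have h1 : (C v * Q).degree < P.degree := by
    refine lt_of_le_of_lt (degree_mul_le _ _) ?_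
    refine lt_of_le_of_lt (add_le_add_left degree_C_le _) ?_
    rwa [zero_add]
  exact ⟨hP.add_of_left h1, natDegree_add_eq_left_of_degree_lt h1⟩

theorem pencil_roots [IsAlgClosed k] (P Q h : k[X]) (ρ v1 : k) (hP : P.Monic)
    (hQ : Q.degree < P.degree) (hfac : P + C v1 * Q = (X - C ρ) ^ 2 * h) (hsep : h.Separable)
    (hρ : h.eval ρ ≠ 0) :
    ∃ T : Finset (LaurentSeries k), (∀ x ∈ T,
      (((cst P) + C (PowerSeries.C v1 + PowerSeries.X) * (cst Q)).map
        (algebraMap (PowerSeries k) (LaurentSeries k))).eval x = 0) ∧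
      P.natDegree ≤ T.card + 2 := by
  classical
  set i := algebraMap (PowerSeries k) (LaurentSeries k) with hi
  have hinj : Function.Injective i := IsFractionRing.injective _ _
  set q : (PowerSeries k)[X] := (cst P) + C (PowerSeries.C v1 + PowerSeries.X) * (cst Q) with hq
  have hPm : (cst P).Monic := hP.map _
  have hdeg : (cst Q).degree < (cst P).degree := by
    unfold cst
    rw [degree_map_eq_of_injective PowerSeries.C_injective,
      degree_map_eq_of_injective PowerSeries.C_injective]
    exact hQ
  have hqm : q.Monic := (monic_pencil _ _ _ hPm hdeg).1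
  have hred : q.map (PowerSeries.constantCoeff (R := k)) = (X - C ρ) ^ 2 * h := by
    rw [← hfac, hq, Polynomial.map_add, Polynomial.map_mul, cst_red, cst_red, map_C, map_add,
      PowerSeries.constantCoeff_C, PowerSeries.constantCoeff_X, add_zero]
  have hroot : ∀ a ∈ h.roots.toFinset, h.eval a = 0 := by
    intro a ha
    rw [Multiset.mem_toFinset, mem_roots hsep.ne_zero, IsRoot.def] at ha
    exact ha
  have hex : ∀ a : k, ∃ r : PowerSeries k, a ∈ h.roots.toFinset →
      (q.eval r = 0 ∧ PowerSeries.constantCoeff r = a) := by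
    intro a
    by_cases ha : a ∈ h.roots.toFinset
    · have h1 := hroot a ha
      have has : a - ρ ≠ 0 := by
        intro h0
        rw [sub_eq_zero.mp h0] at h1
        exact hρ h1
      have h2 : (derivative h).eval a ≠ 0 := by
        have := hsep.eval₂_derivative_ne_zero (RingHom.id k) (x := a) (by
          rw [eval₂_id]; exact h1)
        rwa [eval₂_id] at this
      obtain ⟨r, hr⟩ := hensel_root q hqm a (by
        rw [hred, eval_mul, h1, mul_zero]) (by
        rw [hred, derivative_mul, eval_add, eval_mul, eval_mul, h1, mul_zero, zero_add, eval_pow,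
          eval_sub, eval_X, eval_C]
        exact mul_ne_zero (pow_ne_zero _ has) h2)
      exact ⟨r, fun _ => hr⟩
    · exact ⟨0, fun h0 => absurd h0 ha⟩
  choose r hr using hex
  refine ⟨h.roots.toFinset.image (fun a => i (r a)), ?_, ?_⟩
  · intro x hx
    rw [Finset.mem_image] at hx
    obtain ⟨a, ha, rfl⟩ := hx
    rw [eval_map, eval₂_at_apply, (hr a ha).1, map_zero]
  · rw [Finset.card_image_of_injOn, card_roots_toFinset _ hsep]
    · have h1 := (monic_pencil P Q v1 hP hQ).2
      rw [hfac, natDegree_mul (pow_ne_zero _ (X_sub_C_ne_zero ρ)) hsep.ne_zero, natDegree_pow,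
        natDegree_X_sub_C] at h1
      omega
    · intro a ha b hb hab
      have h1 : r a = r b := hinj hab
      rw [← (hr a ha).2, ← (hr b hb).2, h1]

theorem pencil_not_splits (P Q h : k[X]) (ρ v1 : k) (hP : P.Monic)
    (hQ : Q.degree < P.degree) (hfac : P + C v1 * Q = (X - C ρ) ^ 2 * h) (hQρ : Q.eval ρ ≠ 0) :
    ¬ (((cst P) + C (PowerSeries.C v1 + PowerSeries.X) * (cst Q)).map
        (algebraMap (PowerSeries k) (LaurentSeries k))).Splits := by
  intro hspl
  set q : (PowerSeries k)[X] := (cst P) + C (PowerSeries.C v1 + PowerSeries.X) * (cst Q) with hq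
  have hPm : (cst P).Monic := hP.map _
  have hdeg : (cst Q).degree < (cst P).degree := by
    unfold cst
    rw [degree_map_eq_of_injective PowerSeries.C_injective,
      degree_map_eq_of_injective PowerSeries.C_injective]
    exact hQ
  have hqm : q.Monic := (monic_pencil _ _ _ hPm hdeg).1
  have hred : q.map (PowerSeries.constantCoeff (R := k)) = (X - C ρ) ^ 2 * h := by
    rw [← hfac, hq, Polynomial.map_add, Polynomial.map_mul, cst_red, cst_red, map_C, map_add,
      PowerSeries.constantCoeff_C, PowerSeries.constantCoeff_X, add_zero]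
  obtain ⟨r, hr, hrs⟩ := lift_of_splits q hqm hspl ρ (by rw [hred]; simp)
  have h1 : q = cst ((X - C ρ) ^ 2 * h) + C PowerSeries.X * cst Q := by
    rw [← hfac, hq]
    unfold cst
    rw [Polynomial.map_add, Polynomial.map_mul, map_C, C_add]
    ring
  have h0 : cst ((X - C ρ) ^ 2 * h) = (X - C (PowerSeries.C ρ)) ^ 2 * cst h := by
    unfold cst
    rw [Polynomial.map_mul, Polynomial.map_pow, Polynomial.map_sub, map_X, map_C]
  rw [h1, h0] at hr
  simp only [eval_add, eval_mul, eval_pow, eval_sub, eval_X, eval_C] at hr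
  have h2 : PowerSeries.constantCoeff (r - PowerSeries.C ρ) = 0 := by
    rw [map_sub, hrs, PowerSeries.constantCoeff_C, sub_self]
  obtain ⟨z, hz⟩ := PowerSeries.X_dvd_iff.mpr h2
  rw [hz] at hr
  have h3 : PowerSeries.X * (PowerSeries.X * (z ^ 2 * eval r (cst h)) + (cst Q).eval r) = 0 := by
    linear_combination hr
  rcases mul_eq_zero.mp h3 with h | h
  · exact PowerSeries.X_ne_zero h
  · have h4 := congrArg PowerSeries.constantCoeff h
    rw [map_add, map_mul, PowerSeries.constantCoeff_X, zero_mul, zero_add, map_zero,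
      ← eval₂_at_apply, ← eval_map, cst_red, hrs] at h4
    exact hQρ h4

end loc

section global

variable {F : Type u} [Field F]

theorem pen_map {E : Type*} [CommRing E] (P Q : F[X]) (j : RatFunc F →+* E) :
    (MP7fA.pen P Q).map j = P.map (j.comp (algebraMap F (RatFunc F))) +
      C (j RatFunc.X) * Q.map (j.comp (algebraMap F (RatFunc F))) := by
  unfold MP7fA.pen
  rw [Polynomial.map_add, Polynomial.map_mul, map_C, Polynomial.map_map, Polynomial.map_map]

theorem pen_monic (P Q : F[X]) (hP : P.Monic) (hQ : Q.degree < P.degree) :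
    (MP7fA.pen P Q).Monic ∧ (MP7fA.pen P Q).natDegree = P.natDegree := by
  unfold MP7fA.pen
  have h := monic_pencil (P.map (algebraMap F (RatFunc F))) (Q.map (algebraMap F (RatFunc F)))
    RatFunc.X (hP.map _) (by rw [degree_map, degree_map]; exact hQ)
  rw [natDegree_map] at h
  exact h

open scoped Classical in
/-- The transposition at a simple critical value. -/
theorem pen_swap (P Q : F[X]) (hP : P.Monic) (hdQ : Q.degree < P.degree) (ρ v1 : F) (q1 : F[X])
    (hq : derivative P * Q - P * derivative Q = (X - C ρ) * q1)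
    (hv : P.eval ρ + v1 * Q.eval ρ = 0) (hQ : Q.eval ρ ≠ 0)
    (hc : IsCoprime (P + C v1 * Q) q1) (hsep : (MP7fA.pen P Q).Separable)
    {L : Type*} [Field L] [Algebra (RatFunc F) L]
    [Fact (((MP7fA.pen P Q).map (algebraMap (RatFunc F) L)).Splits)] :
    ∃ σ : (MP7fA.pen P Q).Gal, (Gal.galActionHom (MP7fA.pen P Q) L σ).IsSwap := by
  obtain ⟨h, hfac, hhs, hhρ⟩ := factor_bar P Q ρ v1 q1 hq hv hQ hc
  set a := algebraMap F (AlgebraicClosure F) with ha
  have hp : (C (a v1) + X : (AlgebraicClosure F)[X]).natDegree ≠ 0 := by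
    rw [add_comm, natDegree_X_add_C]; exact one_ne_zero
  set j := subK (F := F) (C (a v1) + X : (AlgebraicClosure F)[X]) hp with hj
  have hjX : j RatFunc.X = algebraMap (PowerSeries (AlgebraicClosure F)) _
      (PowerSeries.C (a v1) + PowerSeries.X) := by
    rw [hj, subK_X, Polynomial.coe_add, Polynomial.coe_C, Polynomial.coe_X]
  have hjC : j.comp (algebraMap F (RatFunc F)) =
      ((algebraMap (PowerSeries (AlgebraicClosure F)) (LaurentSeries (AlgebraicClosure F))).comp
        (PowerSeries.C (R := AlgebraicClosure F))).comp a := by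
    exact RingHom.ext fun c => subK_C _ hp c
  have hmap : (MP7fA.pen P Q).map j = ((cst (P.map a)) + C (PowerSeries.C (a v1) + PowerSeries.X) *
      (cst (Q.map a))).map (algebraMap (PowerSeries (AlgebraicClosure F)) _) := by
    rw [pen_map, hjX, hjC]
    unfold cst
    rw [Polynomial.map_add, Polynomial.map_mul, map_C, Polynomial.map_map, Polynomial.map_map,
      Polynomial.map_map, Polynomial.map_map, RingHom.comp_assoc]
  have hPm : (P.map a).Monic := hP.map _
  have hdeg : (Q.map a).degree < (P.map a).degree := by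
    rw [degree_map, degree_map]; exact hdQ
  have hfac' : P.map a + C (a v1) * Q.map a = (X - C (a ρ)) ^ 2 * h.map a := by
    have := congrArg (Polynomial.map a) hfac
    rwa [Polynomial.map_add, Polynomial.map_mul, map_C, Polynomial.map_mul, Polynomial.map_pow,
      Polynomial.map_sub, map_X, map_C] at this
  obtain ⟨T, hT, hcard⟩ := pencil_roots (P.map a) (Q.map a) (h.map a) (a ρ) (a v1) hPm hdeg hfac'
    hhs.map (by rw [eval_map, eval₂_at_apply, Ne, map_eq_zero_iff _ a.injective]; exact hhρ)
  refine exists_swap' j _ hsep T ?_ ?_ ?_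
  · rw [hmap]; exact hT
  · rw [(pen_monic P Q hP hdQ).2]
    rw [natDegree_map] at hcard
    exact hcard
  · rw [hmap]
    exact pencil_not_splits (P.map a) (Q.map a) (h.map a) (a ρ) (a v1) hPm hdeg hfac'
      (by rw [eval_map, eval₂_at_apply, Ne, map_eq_zero_iff _ a.injective]; exact hQ)

/-- The generic member is coprime to a linear factor. -/
theorem pen_coprime_X_sub_C (P Q : F[X]) (ρ : F) (hQ : Q.eval ρ ≠ 0) :
    IsCoprime (MP7fA.pen P Q) ((X - C ρ).map (algebraMap F (RatFunc F))) := by
  rw [Polynomial.map_sub, map_X, map_C]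
  apply isCoprime_X_sub_C
  unfold MP7fA.pen
  rw [eval_add, eval_mul, eval_C, eval_map, eval_map, eval₂_at_apply, eval₂_at_apply]
  intro h
  have hinj : Function.Injective (algebraMap F (RatFunc F)) := (algebraMap F (RatFunc F)).injective
  have hQ' : algebraMap F (RatFunc F) (Q.eval ρ) ≠ 0 := by
    rw [Ne, map_eq_zero_iff _ hinj]; exact hQ
  have h1 : (RatFunc.X : RatFunc F) = RatFunc.C (-(P.eval ρ) / Q.eval ρ) := by
    have e : ∀ c : F, algebraMap F (RatFunc F) c = RatFunc.C c := fun c => rfl
    rw [map_div₀, map_neg, ← e, ← e]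
    field_simp
    linear_combination h
  exact ratX_ne_C _ h1

/-- Separability of the generic member. -/
theorem pen_separable (P Q : F[X])
    (hc : IsCoprime (MP7fA.pen P Q)
      ((derivative P * Q - P * derivative Q).map (algebraMap F (RatFunc F)))) :
    (MP7fA.pen P Q).Separable := by
  set f := MP7fA.pen P Q with hf
  set Qm := Q.map (algebraMap F (RatFunc F)) with hQm
  have h1 : (derivative P * Q - P * derivative Q).map (algebraMap F (RatFunc F)) =
      f * (-(derivative Qm)) + Qm * derivative f := by
    rw [hf, MP7fA.pen, hQm]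
    simp only [Polynomial.map_sub, Polynomial.map_mul, derivative_add, derivative_mul,
      derivative_C, derivative_map]
    ring
  rw [h1] at hc
  have h2 : IsCoprime f (Qm * derivative f) := by
    have := hc.add_mul_left_right (derivative Qm)
    have e : f * -derivative Qm + Qm * derivative f + f * derivative Qm = Qm * derivative f := by
      ring
    rwa [e] at this
  exact h2.of_mul_right_right

end global

section trans

variable {F : Type u} [Field F] {L : Type*} [Field L] [Algebra (RatFunc F) L]

/-- Two-transitivity for the pencils `P + v (X - 1)`. -/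
theorem pen_aut [Normal (RatFunc F) L] (P : F[X]) (hP : P.Monic) (hd : 2 ≤ P.natDegree)
    (h1P : P.eval 1 ≠ 0) (y z z' : L)
    (hy : aeval y (MP7fA.pen P (X - 1)) = 0)
    (hz : aeval z (MP7fA.pen P (X - 1)) = 0)
    (hz' : aeval z' (MP7fA.pen P (X - 1)) = 0)
    (hzy : z ≠ y) (hzy' : z' ≠ y) :
    ∃ σ : L ≃ₐ[RatFunc F] L, σ y = y ∧ σ z = z' := by
  let _ : Algebra F L := ((algebraMap (RatFunc F) L).comp (algebraMap F (RatFunc F))).toAlgebra
  have : IsScalarTower F (RatFunc F) L := IsScalarTower.of_algebraMap_eq fun _ => rfl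
  have hrel : ∀ w : L, aeval w (MP7fA.pen P (X - 1)) = 0 →
      aeval w P = -(algebraMap (RatFunc F) L RatFunc.X * (w - 1)) := by
    intro w hw
    unfold MP7fA.pen at hw
    rw [map_add, map_mul, aeval_C, aeval_map_algebraMap, aeval_map_algebraMap, map_sub, aeval_X,
      map_one] at hw
    linear_combination hw
  have hy' := hrel y hy
  have hy1 : y - 1 ≠ 0 := by
    intro h
    rw [h, mul_zero, neg_zero, sub_eq_zero.mp h] at hy'
    have h3 : aeval (1 : L) P = algebraMap F L (P.eval 1) := by
      rw [← aeval_algebraMap_apply_eq_algebraMap_eval, map_one]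
    rw [h3, map_eq_zero_iff _ (algebraMap F L).injective] at hy'
    exact h1P hy'
  have hX : algebraMap (RatFunc F) L RatFunc.X = -(aeval y P) / (y - 1) := by
    rw [hy']; field_simp
  have ht : Transcendental F y := by
    intro halg
    have h1 : IsIntegral F y := isAlgebraic_iff_isIntegral.mp halg
    have h2 : IsAlgebraic F (aeval y P) := by
      have h2 : aeval y P ∈ Algebra.adjoin F {y} := aeval_mem_adjoin_singleton _ _
      have h3 : IsIntegral F (aeval y P) :=
        (Algebra.IsIntegral.adjoin (fun x hx => by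
          rw [Set.mem_singleton_iff.mp hx]; exact h1)).isIntegral ⟨_, h2⟩ |>.map
            (Algebra.adjoin F {y}).val
      exact isAlgebraic_iff_isIntegral.mpr h3
    have h4 : IsAlgebraic F (algebraMap (RatFunc F) L RatFunc.X) := by
      rw [hX, div_eq_mul_inv]
      exact h2.neg.mul (halg.sub isAlgebraic_one).inv
    rw [isAlgebraic_algebraMap_iff (algebraMap (RatFunc F) L).injective] at h4
    exact RatFunc.transcendental_X h4
  have hv : algebraMap (RatFunc F) L RatFunc.X ∈ (subst y ht).fieldRange := by
    rw [hX]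
    have hyT : y ∈ (subst y ht).fieldRange := ⟨RatFunc.X, subst_X _ _⟩
    have h1 : aeval y P ∈ (subst y ht).fieldRange :=
      ⟨algebraMap F[X] (RatFunc F) P, subst_poly _ _ _⟩
    exact div_mem (neg_mem h1) (sub_mem hyT (one_mem _))
  have key : ∀ w : L, aeval w (MP7fA.pen P (X - 1)) = 0 → w ≠ y →
      (((gPhi P).map (algebraMap F[X] (RatFunc F))).map (subst y ht)).eval w = 0 := by
    intro w hw hwy
    have hw' := hrel w hw
    have hcomp : (subst y ht).comp (algebraMap F[X] (RatFunc F)) =
        (aeval y : F[X] →ₐ[F] L).toRingHom := by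
      ext1
      · ext c
        simp only [RingHom.comp_apply]
        exact subst_poly _ _ _
      · simp only [RingHom.comp_apply]
        exact subst_poly _ _ _
    have hCC : ((aeval y : F[X] →ₐ[F] L).toRingHom).comp (C : F →+* F[X]) = algebraMap F L := by
      ext c
      change aeval y (C c) = _
      rw [aeval_C]
    rw [Polynomial.map_map, hcomp]
    have h3 := congrArg (fun p : F[X][X] => eval w (p.map (aeval y : F[X] →ₐ[F] L).toRingHom))
      (gPsi_eq P)
    simp only [Polynomial.map_mul, Polynomial.map_sub, Polynomial.map_X, map_C, gPsi,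
      Polynomial.map_one, eval_mul, eval_sub, eval_X, eval_C,
      eval_one, Polynomial.map_map, hCC] at h3
    have h4 : (aeval y : F[X] →ₐ[F] L).toRingHom X = y := aeval_X y
    have h5 : (aeval y : F[X] →ₐ[F] L).toRingHom (X - 1) = y - 1 := by
      rw [map_sub, h4, map_one]
    have h6 : (aeval y : F[X] →ₐ[F] L).toRingHom P = aeval y P := rfl
    rw [h4, h5, h6, eval_map_algebraMap, hy', hw'] at h3
    have h7 : (w - y) * eval w ((gPhi P).map (aeval y : F[X] →ₐ[F] L).toRingHom) = 0 := by
      rw [h3]
      ring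
    exact (mul_eq_zero.mp h7).resolve_left (sub_ne_zero.mpr hwy)
  exact exists_aut_gen y ht hv _ (gPhi_irreducible_map hP hd h1P)
    z z' (key z hz hzy) (key z' hz' hzy')

/-- The full symmetric group for a pencil `P + v (X - 1)` with a simple critical value. -/
theorem pen_gal_one (P : F[X]) (hP : P.Monic) (hd : 3 ≤ P.natDegree)
    (h1P : P.eval 1 ≠ 0) (ρ v1 : F) (q1 : F[X])
    (hq : derivative P * (X - 1) - P * derivative (X - 1) = (X - C ρ) * q1)
    (hv : P.eval ρ + v1 * (ρ - 1) = 0) (hρ : ρ ≠ 1)
    (hc : IsCoprime (P + C v1 * (X - 1)) q1) (hsep : (MP7fA.pen P (X - 1)).Separable)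
    {n : ℕ} (y : Fin n → L)
    (hy : (MP7fA.pen P (X - 1)).map (algebraMap (RatFunc F) L) = ∏ i, (X - C (y i)))
    (htop : Algebra.adjoin (RatFunc F) (Set.range y) = ⊤) (σ : Perm (Fin n)) :
    ∃ τ : L ≃ₐ[RatFunc F] L, ∀ i, τ (y i) = y (σ i) := by
  classical
  have hdQ : (X - 1 : F[X]).degree < P.degree := by
    have h1 : (X - 1 : F[X]).degree = 1 := by
      have := degree_X_sub_C (1 : F)
      rwa [C_1] at this
    rw [h1, degree_eq_natDegree hP.ne_zero]
    exact_mod_cast (by omega : 1 < P.natDegree)
  have hfact : Fact (((MP7fA.pen P (X - 1)).map (algebraMap (RatFunc F) L)).Splits) :=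
    ⟨splits_of_prod _ y hy⟩
  have hnorm : Normal (RatFunc F) L := normal_of_prod _ hsep.ne_zero y hy htop
  refine gal_of_surj _ hsep y hy htop ?_ σ
  refine surj_of_swap _ (fun a b c d hab hcd => two_trans_gal _ hsep
    (by rw [(pen_monic P _ hP hdQ).2]; exact hd) (pen_aut P hP (by omega) h1P) a b c d hab hcd)
    (pen_swap P (X - 1) hP hdQ ρ v1 q1 hq ?_ ?_ hc hsep)
  · simpa using hv
  · simpa using sub_ne_zero.mpr hρ

end trans

end MP7fT
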