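import Pool.Agent.Lib.MP_7f581e_ntT.Irr

/-!
The pencil `X ^ (n - 2) * (X - 1) ^ 2 + v` in odd degree `n`, in every characteristic not
dividing `n - 2`: two-transitivity and the transposition.
-/

set_option autoImplicit false

universe u

namespace MP7fT

open Polynomial Equiv

section irr

variable {F : Type*} [Field F]

theorem geo_coprime' {n : ℕ} (hn : n % 2 = 1) : IsCoprime (geo F (n + 2)) (geo F n) := by
  have h0 : (geo F n).eval (-1) = 1 := by
    have h1 := congrArg (eval (-1)) (geo_mul (F := F) n)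
    simp only [eval_mul, eval_sub, eval_X, eval_one, eval_pow] at h1
    have h2 : (-1 : F) ^ n = -1 := Odd.neg_one_pow (Nat.odd_iff.mpr hn)
    by_cases h2' : (2 : F) = 0
    · have : (-1 : F) = 1 := by linear_combination -h2'
      rw [this, geo_eval]
      obtain ⟨m, rfl⟩ : ∃ m, n = 2 * m + 1 := ⟨n / 2, by omega⟩
      push_cast
      rw [h2']; ring
    · rw [h2] at h1
      apply mul_right_cancel₀ h2'
      linear_combination -h1
  have h2 := isCoprime_X_sub_C (geo F n) (-1) (by rw [h0]; exact one_ne_zero)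
  have h3 : (X - C (-1) : F[X]) = X + 1 := by
    rw [C_neg, C_1, sub_neg_eq_add]
  rw [h3] at h2
  rw [geo_succ2]
  exact IsCoprime.mul_add_right_left h2.symm (X ^ 2)

theorem geo_disc (n : ℕ) : geo F (n + 1) ^ 2 - geo F (n + 2) * geo F n = X ^ n := by
  have h1 : geo F (n + 2) * (X - 1) = X ^ (n + 2) - 1 := geom_sum_mul X (n + 2)
  have h2 : geo F (n + 1) * (X - 1) = X ^ (n + 1) - 1 := geom_sum_mul X (n + 1)
  have h3 : geo F n * (X - 1) = X ^ n - 1 := geom_sum_mul X n
  apply mul_right_cancel₀ (pow_ne_zero 2 (X_sub_one_ne (F := F)))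
  have h4 : (geo F (n + 1) ^ 2 - geo F (n + 2) * geo F n) * (X - 1) ^ 2 =
      (geo F (n + 1) * (X - 1)) ^ 2 - (geo F (n + 2) * (X - 1)) * (geo F n * (X - 1)) := by ring
  rw [h4, h1, h2, h3]; ring

/-- The polynomial over the field of the root whose roots are the quotients of the roots. -/
noncomputable def oPhi' (F : Type*) [Field F] (n : ℕ) : F[X][X] :=
  C (X ^ 2) * (geo F (n + 2)).map C - C (2 * X) * (geo F (n + 1)).map C + (geo F n).map C

theorem oPhi'_swap_irreducible {n : ℕ} (hn : n % 2 = 1) :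
    Irreducible (C (geo F (n + 2)) * X ^ 2 + C (-(2 * geo F (n + 1))) * X + C (geo F n) :
      F[X][X]) := by
  set H : F[X][X] := C (geo F (n + 2)) * X ^ 2 + C (-(2 * geo F (n + 1))) * X + C (geo F n) with hH
  have hprim : H.IsPrimitive := by
    intro r hr
    rw [C_dvd_iff_dvd_coeff] at hr
    have h0 := hr 0
    have h2 := hr 2
    have e0 : H.coeff 0 = geo F n := by
      rw [hH]; simp
    have e2 : H.coeff 2 = geo F (n + 2) := by
      rw [hH]
      simp only [coeff_add, coeff_C_mul, coeff_X_pow, coeff_C, coeff_X]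
      norm_num
    rw [e0] at h0
    rw [e2] at h2
    exact (geo_coprime' hn).isUnit_of_dvd' h2 h0
  refine hprim.irreducible_of_irreducible_map_of_injective
    (IsFractionRing.injective F[X] (RatFunc F)) ?_
  obtain ⟨α, hα⟩ : ∃ α, α = algebraMap F[X] (RatFunc F) (geo F (n + 2)) := ⟨_, rfl⟩
  obtain ⟨β, hβ⟩ : ∃ β, β = algebraMap F[X] (RatFunc F) (geo F (n + 1)) := ⟨_, rfl⟩
  obtain ⟨γ, hγ⟩ : ∃ γ, γ = algebraMap F[X] (RatFunc F) (geo F n) := ⟨_, rfl⟩
  have hmap : H.map (algebraMap F[X] (RatFunc F)) =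
      C α * X ^ 2 + C (-(2 * β)) * X + C γ := by
    rw [hH, hα, hβ, hγ, Polynomial.map_add, Polynomial.map_add, Polynomial.map_mul,
      Polynomial.map_mul, Polynomial.map_pow, map_X, map_C, map_C, map_C, map_neg, map_mul,
      map_ofNat]
  have hinj : Function.Injective (algebraMap F[X] (RatFunc F)) :=
    IsFractionRing.injective F[X] (RatFunc F)
  have hα0 : α ≠ 0 := by
    rw [hα, Ne, map_eq_zero_iff _ hinj]
    intro h
    have := geo_mul (F := F) (n + 2)
    rw [h, zero_mul] at this
    have h1 := congrArg (fun p : F[X] => p.coeff (n + 2)) this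
    have hn2 : ¬ (n + 2 = 0) := by omega
    simp [coeff_one] at h1
  rw [hmap]
  have hdeg : (C α * X ^ 2 + C (-(2 * β)) * X + C γ : (RatFunc F)[X]).natDegree = 2 :=
    natDegree_quadratic hα0
  rw [irreducible_iff_roots_eq_zero_of_degree_le_three (by rw [hdeg]) (by rw [hdeg]; norm_num)]
  by_contra hroots
  obtain ⟨ρ, hρ⟩ := Multiset.exists_mem_of_ne_zero hroots
  rw [mem_roots', IsRoot.def] at hρ
  have h1 := hρ.2
  simp only [eval_add, eval_mul, eval_C, eval_pow, eval_X] at h1
  have hdisc : β ^ 2 - α * γ = algebraMap F[X] (RatFunc F) (X ^ n) := by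
    rw [← geo_disc, hα, hβ, hγ, map_sub, map_pow, map_mul]
  have h2 : (α * ρ - β) ^ 2 = algebraMap F[X] (RatFunc F) (X ^ n) := by
    rw [← hdisc]
    linear_combination α * h1
  have h3 : IsIntegral F[X] (α * ρ - β) := by
    refine ⟨X ^ 2 - C (X ^ n), monic_X_pow_sub_C _ two_ne_zero, ?_⟩
    rw [eval₂_sub, eval₂_pow, eval₂_X, eval₂_C, h2, sub_self]
  obtain ⟨g, hg⟩ := IsIntegrallyClosed.isIntegral_iff.mp h3
  have h4 : g ^ 2 = X ^ n := by
    apply hinj
    rw [map_pow, hg, h2]
  have h5 := congrArg natDegree h4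
  rw [natDegree_pow, natDegree_X_pow] at h5
  omega

theorem oPhi'_irreducible {n : ℕ} (hn : n % 2 = 1) :
    Irreducible ((oPhi' F n).map (algebraMap F[X] (RatFunc F))) := by
  have h1 : Irreducible (oPhi' F n) := by
    have h2 : Bivariate.swap (C (geo F (n + 2)) * X ^ 2 + C (-(2 * geo F (n + 1))) * X +
        C (geo F n)) = oPhi' F n := by
      rw [map_add, map_add, map_mul, map_mul, map_pow, Bivariate.swap_C, Bivariate.swap_C,
        Bivariate.swap_C, Bivariate.swap_Y]
      unfold oPhi'
      rw [C_pow, C_mul, Polynomial.map_neg, Polynomial.map_mul]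
      simp only [Polynomial.map_ofNat, map_ofNat]
      ring
    rw [← h2]
    exact (MulEquiv.irreducible_iff (Bivariate.swap (R := F))).mpr (oPhi'_swap_irreducible hn)
  have hdeg : (oPhi' F n).natDegree ≠ 0 := by
    intro h
    obtain ⟨c, hc⟩ := natDegree_eq_zero.mp h
    have h3 := congrArg (fun p : F[X][X] => (p.coeff 1).coeff 2) hc
    have hg : ∀ j : ℕ, (((geo F j).map (C : F →+* F[X])).coeff 1) = if 1 < j then 1 else 0 := by
      intro j
      rw [coeff_map]
      unfold geo
      simp only [finsetSum_coeff, coeff_X_pow]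
      split_ifs with hj
      · rw [Finset.sum_eq_single 1]
        · simp
        · intro b _ hb; rw [if_neg (Ne.symm hb)]
        · intro h; exfalso; apply h; rw [Finset.mem_range]; exact hj
      · rw [Finset.sum_eq_zero]
        · simp
        · intro b hb
          rw [Finset.mem_range] at hb
          rw [if_neg (by omega)]
    simp only [oPhi', coeff_add, coeff_sub, coeff_C_mul, hg] at h3
    rw [coeff_C, if_neg one_ne_zero, if_pos (by omega), if_pos (by omega)] at h3
    simp only [mul_one, coeff_zero, coeff_X_pow, if_true] at h3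
    have e1 : (2 * X : F[X]).coeff 2 = 0 := by
      rw [show (2 : F[X]) = C 2 from (map_ofNat C 2).symm, coeff_C_mul, coeff_X]; simp
    have e2 : ∀ (b : Prop) [Decidable b], (if b then (1 : F[X]) else 0).coeff 2 = 0 := by
      intro b _
      split_ifs
      · rw [coeff_one]; simp
      · simp
    rw [e1, e2] at h3
    simp at h3
  have hp : (oPhi' F n).IsPrimitive := h1.isPrimitive hdeg
  exact (hp.irreducible_iff_irreducible_map_fraction_map (K := RatFunc F)).mp h1

end irr

end MP7fT
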