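import Pool.Agent.Lib.MP_7f581e_ntT.Gen
import Pool.Agent.Lib.MP_7f581e_ntT.OddIrr

/-!
The pencil `X ^ (n - 2) * (X - 1) ^ 2 + v` in odd degree `n`: Galois group.
-/

set_option autoImplicit false

universe u

namespace MP7fT

open Polynomial Equiv

/-- The polynomial. -/
noncomputable def po (R : Type*) [CommRing R] (n : ℕ) : R[X] := X ^ (n - 2) * (X - 1) ^ 2

theorem map_po {R S : Type*} [CommRing R] [CommRing S] (g : R →+* S) (n : ℕ) :
    (po R n).map g = po S n := by
  simp [po]

theorem po_monic (R : Type*) [CommRing R] [Nontrivial R] {n : ℕ} (hn : 2 ≤ n) :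
    (po R n).Monic ∧ (po R n).natDegree = n := by
  have h1 : (X - 1 : R[X]).Monic := by
    have := monic_X_sub_C (1 : R)
    rwa [C_1] at this
  have h3 : (X - 1 : R[X]).natDegree = 1 := by
    have := natDegree_X_sub_C (1 : R)
    rwa [C_1] at this
  have h2 : (X ^ (n - 2) : R[X]).Monic := monic_X_pow _
  refine ⟨h2.mul (h1.pow 2), ?_⟩
  unfold po
  rw [h2.natDegree_mul (h1.pow 2), natDegree_X_pow, h1.natDegree_pow, h3]
  omega

section loc

variable {k : Type*} [Field k]

theorem po_aux {K : Type*} [Field K] (t u : K) (hu : u ≠ 0) (j : ℕ) :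
    (t / u) ^ j * (t / u - 1) ^ 2 + t ^ j =
      t ^ j / u ^ (j + 2) * (u ^ (j + 2) + (u - t) ^ 2) := by
  have h1 : u ^ (j + 2) ≠ 0 := pow_ne_zero _ hu
  have h2 : u ^ j ≠ 0 := pow_ne_zero _ hu
  have h3 : (t / u - 1) ^ 2 = (u - t) ^ 2 / u ^ 2 := by
    rw [div_sub_one hu, div_pow]; congr 1; ring
  have h4 : t ^ j / u ^ (j + 2) * u ^ (j + 2) = t ^ j := div_mul_cancel₀ _ h1
  have h5 : (t / u) ^ j * ((u - t) ^ 2 / u ^ 2) = t ^ j / u ^ (j + 2) * (u - t) ^ 2 := by
    rw [div_pow, div_mul_div_comm, ← pow_add, div_mul_eq_mul_div]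
  rw [mul_add, h4, h3, h5]; ring

theorem po_roots [IsAlgClosed k] {n : ℕ} (hn : 5 ≤ n) (hn2 : ((n - 2 : ℕ) : k) ≠ 0) :
    ∃ T : Finset (LaurentSeries k), (∀ x ∈ T, (po (LaurentSeries k) n + C (tau k ^ (n - 2))).eval x = 0) ∧
      n ≤ T.card + 2 := by
  classical
  set i := algebraMap (PowerSeries k) (LaurentSeries k) with hi
  have hinj : Function.Injective i := IsFractionRing.injective _ _
  set q : (PowerSeries k)[X] := X ^ n + (X - C PowerSeries.X) ^ 2 with hq
  have hd : ((X - C PowerSeries.X) ^ 2 : (PowerSeries k)[X]).degree < ((n : ℕ) : WithBot ℕ) := by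
    have hb : ((X - C PowerSeries.X) ^ 2 : (PowerSeries k)[X]).degree ≤ 2 := by
      compute_degree
    exact lt_of_le_of_lt hb (by exact_mod_cast (by omega : 2 < n))
  have hqm : q.Monic := monic_X_pow_add (by exact_mod_cast hd)
  have hred : q.map (PowerSeries.constantCoeff (R := k)) = X ^ n + X ^ 2 := by
    rw [hq]; simp
  have hder : derivative (q.map (PowerSeries.constantCoeff (R := k))) =
      C ((n : ℕ) : k) * X ^ (n - 1) + 2 * X := by
    rw [hred]
    simp only [derivative_add, derivative_X_pow, Nat.cast_ofNat, map_ofNat]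
    norm_num
  set P : k[X] := X ^ (n - 2) - C (-1) with hP
  have hPsep : P.Separable := separable_X_pow_sub_C _ hn2 (neg_ne_zero.mpr one_ne_zero)
  have hPdeg : P.natDegree = n - 2 := by rw [hP]; exact natDegree_X_pow_sub_C
  have hroot : ∀ a ∈ P.roots.toFinset, a ^ (n - 2) = -1 := by
    intro a ha
    rw [Multiset.mem_toFinset, mem_roots hPsep.ne_zero, IsRoot.def, hP] at ha
    simp only [eval_sub, eval_pow, eval_X, eval_C] at ha
    exact sub_eq_zero.mp ha
  have hne0 : ∀ a ∈ P.roots.toFinset, a ≠ 0 := by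
    intro a ha h0
    have h1 := hroot a ha
    rw [h0, zero_pow (by omega)] at h1
    exact neg_ne_zero.mpr one_ne_zero h1.symm
  have hex : ∀ a : k, ∃ r : PowerSeries k, a ∈ P.roots.toFinset →
      (q.eval r = 0 ∧ PowerSeries.constantCoeff r = a) := by
    intro a
    by_cases ha : a ∈ P.roots.toFinset
    · have h1 := hroot a ha
      have ha0 := hne0 a ha
      have hpow : a ^ n = a ^ (n - 2) * a ^ 2 := by rw [← pow_add]; congr 1; omega
      have hpow1 : a ^ (n - 1) = a ^ (n - 2) * a := by rw [← pow_succ]; congr 1; omega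
      obtain ⟨r, hr⟩ := hensel_root q hqm a (by
        rw [hred]
        simp only [eval_add, eval_pow, eval_X]
        rw [hpow, h1]; ring) (by
        rw [hder]
        simp only [eval_add, eval_mul, eval_C, eval_pow, eval_X, eval_ofNat]
        have : ((n - 2 : ℕ) : k) = (n : k) - 2 := by
          rw [Nat.cast_sub (by omega)]; norm_num
        rw [this] at hn2
        have e : (n : k) * a ^ (n - 1) + 2 * a = -(((n : k) - 2) * a) := by
          rw [hpow1, h1]; ring
        rw [e]
        exact neg_ne_zero.mpr (mul_ne_zero hn2 ha0))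
      exact ⟨r, fun _ => hr⟩
    · exact ⟨0, fun h => absurd h ha⟩
  choose r hr using hex
  have hne : ∀ a ∈ P.roots.toFinset, i (r a) ≠ 0 := by
    intro a ha h
    rw [map_eq_zero_iff i hinj] at h
    have h1 := (hr a ha).2
    rw [h, map_zero] at h1
    exact hne0 a ha h1.symm
  have htau : tau k ≠ 0 := by
    rw [tau, Ne, map_eq_zero_iff _ hinj]
    exact PowerSeries.X_ne_zero
  refine ⟨P.roots.toFinset.image (fun a => tau k / i (r a)), ?_, ?_⟩
  · intro x hx
    rw [Finset.mem_image] at hx
    obtain ⟨a, ha, rfl⟩ := hx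
    have h1 := congrArg i (hr a ha).1
    rw [hq] at h1
    simp only [eval_add, eval_pow, eval_sub, eval_X, eval_C, map_add, map_pow, map_sub,
      map_zero] at h1
    change (i (r a)) ^ n + (i (r a) - tau k) ^ 2 = 0 at h1
    have hne' := hne a ha
    unfold po
    simp only [eval_add, eval_mul, eval_sub, eval_one, eval_pow, eval_X, eval_C]
    obtain ⟨j, rfl⟩ : ∃ j, n = j + 2 := ⟨n - 2, by omega⟩
    rw [Nat.add_sub_cancel]
    rw [po_aux (tau k) (i (r a)) hne' j, h1, mul_zero]
  · rw [Finset.card_image_of_injOn, card_roots_toFinset P hPsep, hPdeg]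
    · omega
    · intro a ha b hb hab
      have ha' := hne a ha
      have hb' := hne b hb
      simp only at hab
      rw [div_eq_div_iff ha' hb'] at hab
      have h1 : r b = r a := hinj (mul_left_cancel₀ htau hab)
      rw [← (hr a ha).2, ← (hr b hb).2, h1]

theorem po_not_splits {n : ℕ} (hn : 5 ≤ n) (hodd : n % 2 = 1) :
    ¬ (po (LaurentSeries k) n + C (tau k ^ (n - 2))).Splits := by
  intro hs
  set i := algebraMap (PowerSeries k) (LaurentSeries k) with hi
  set q : (PowerSeries k)[X] := po (PowerSeries k) n + C (PowerSeries.X ^ (n - 2)) with hq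
  have hPm := po_monic (PowerSeries k) (n := n) (by omega)
  have hqm : q.Monic := by
    refine hPm.1.add_of_left ?_
    refine lt_of_le_of_lt degree_C_le ?_
    rw [degree_eq_natDegree hPm.1.ne_zero, hPm.2]
    exact_mod_cast (by omega : 0 < n)
  have hqi : q.map i = po (LaurentSeries k) n + C (tau k ^ (n - 2)) := by
    rw [hq, Polynomial.map_add, map_po, map_C, map_pow]; rfl
  have hred : q.map (PowerSeries.constantCoeff (R := k)) = po k n := by
    rw [hq, Polynomial.map_add, map_po, map_C, map_pow, PowerSeries.constantCoeff_X,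
      zero_pow (by omega), C_0, add_zero]
  obtain ⟨r, hr, hr1⟩ := lift_of_splits q hqm (by rw [← hi, hqi]; exact hs) 1 (by
    rw [hred]; unfold po
    simp)
  have hrel : r ^ (n - 2) * (r - 1) ^ 2 = -(PowerSeries.X ^ (n - 2)) := by
    rw [hq] at hr; unfold po at hr
    simp only [eval_add, eval_mul, eval_sub, eval_one, eval_pow, eval_X, eval_C] at hr
    linear_combination hr
  have hord := congrArg PowerSeries.order hrel
  rw [PowerSeries.order_mul, PowerSeries.order_neg, PowerSeries.order_X_pow,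
    PowerSeries.order_pow, PowerSeries.order_pow] at hord
  have hr0 : r.order = 0 := by
    apply PowerSeries.order_zero_of_unit
    rw [PowerSeries.isUnit_iff_constantCoeff, hr1]
    exact isUnit_one
  rw [hr0, smul_zero, zero_add] at hord
  by_cases h : (r - 1).order ≠ ⊤
  · obtain ⟨d, hd⟩ := ENat.ne_top_iff_exists.mp h
    rw [← hd] at hord
    have h2 : 2 * d = n - 2 := by
      have : ((2 * d : ℕ) : ℕ∞) = ((n - 2 : ℕ) : ℕ∞) := by
        rw [← hord]; simp
      exact_mod_cast this
    omega
  · push Not at h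
    have h3 : (2 : ℕ) • (⊤ : ℕ∞) = ⊤ := by simp
    rw [h, h3] at hord
    exact ENat.natCast_ne_top _ hord.symm

end loc

section global

variable {F : Type u} [Field F] {L : Type*} [Field L] [Algebra (RatFunc F) L]

theorem pen_po (F : Type u) [Field F] (n : ℕ) :
    MP7fA.pen (po F n) 1 = po (RatFunc F) n + C RatFunc.X := by
  unfold MP7fA.pen
  rw [map_po, Polynomial.map_one, mul_one]

theorem po_separable {n : ℕ} (hn : 5 ≤ n) (hn2 : ((n - 2 : ℕ) : F) ≠ 0) :
    (MP7fA.pen (po F n) 1).Separable := by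
  apply pen_separable
  have hQ : ∀ ρ : F, (1 : F[X]).eval ρ ≠ 0 := by intro ρ; simp
  have hder : derivative (po F n) * 1 - po F n * derivative (1 : F[X]) =
      X ^ (n - 3) * ((X - C 1) * (C (n : F) * X - C ((n - 2 : ℕ) : F))) := by
    unfold po
    obtain ⟨j, rfl⟩ : ∃ j, n = j + 3 := ⟨n - 3, by omega⟩
    have e1 : j + 3 - 2 = j + 1 := by omega
    have e2 : j + 3 - 3 = j := by omega
    have e3 : derivative ((X - 1 : F[X]) ^ 2) = 2 * (X - 1) := by
      rw [derivative_pow]
      simp only [Nat.cast_ofNat, map_ofNat, derivative_sub, derivative_X, derivative_one, sub_zero,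
        mul_one]
      norm_num
    rw [e1, e2, derivative_mul, e3, derivative_X_pow, Nat.add_sub_cancel]
    simp only [derivative_one, mul_zero, sub_zero, mul_one, C_1]
    push_cast
    simp only [C_add, C_1, map_natCast, map_ofNat]
    ring
  rw [hder, Polynomial.map_mul, Polynomial.map_pow, Polynomial.map_mul]
  have hcX : IsCoprime (MP7fA.pen (po F n) 1) ((X : F[X]).map (algebraMap F (RatFunc F))) := by
    have := pen_coprime_X_sub_C (po F n) 1 0 (hQ 0)
    rwa [C_0, sub_zero] at this
  refine IsCoprime.mul_right hcX.pow_right (IsCoprime.mul_right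
    (pen_coprime_X_sub_C (po F n) 1 1 (hQ 1)) ?_)
  by_cases hn0 : (n : F) = 0
  · rw [hn0, C_0, zero_mul, zero_sub, ← C_neg, map_C]
    have hc0 : algebraMap F (RatFunc F) (-((n - 2 : ℕ) : F)) ≠ 0 := by
      rw [Ne, map_eq_zero_iff _ (algebraMap F (RatFunc F)).injective, neg_eq_zero]
      exact hn2
    refine ⟨0, C (algebraMap F (RatFunc F) (-((n - 2 : ℕ) : F)))⁻¹, ?_⟩
    rw [zero_mul, zero_add, ← C_mul, inv_mul_cancel₀ hc0, C_1]
  · have : (C (n : F) * X - C ((n - 2 : ℕ) : F)) =
        C (n : F) * (X - C (((n - 2 : ℕ) : F) / n)) := by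
      rw [mul_sub, ← C_mul]
      congr 2
      field_simp
    rw [this, Polynomial.map_mul, map_C]
    have hu : IsUnit (C (algebraMap F (RatFunc F) (n : F))) := by
      apply isUnit_C.mpr
      rw [isUnit_iff_ne_zero, Ne, map_eq_zero_iff _ (algebraMap F (RatFunc F)).injective]
      exact hn0
    rw [isCoprime_mul_unit_left_right hu]
    exact pen_coprime_X_sub_C _ _ _ (hQ _)

theorem po_aut [Normal (RatFunc F) L] {n : ℕ} (hn : 5 ≤ n) (hodd : n % 2 = 1) (y z z' : L)
    (hy : aeval y (MP7fA.pen (po F n) 1) = 0)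
    (hz : aeval z (MP7fA.pen (po F n) 1) = 0)
    (hz' : aeval z' (MP7fA.pen (po F n) 1) = 0) (hzy : z ≠ y) (hzy' : z' ≠ y) :
    ∃ σ : L ≃ₐ[RatFunc F] L, σ y = y ∧ σ z = z' := by
  let _ : Algebra F L := ((algebraMap (RatFunc F) L).comp (algebraMap F (RatFunc F))).toAlgebra
  have : IsScalarTower F (RatFunc F) L := IsScalarTower.of_algebraMap_eq fun _ => rfl
  have hX0 : algebraMap (RatFunc F) L RatFunc.X ≠ 0 := by
    rw [Ne, map_eq_zero_iff _ (algebraMap (RatFunc F) L).injective]
    exact RatFunc.X_ne_zero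
  have hrel : ∀ w : L, aeval w (MP7fA.pen (po F n) 1) = 0 →
      -(w ^ (n - 2) * (w - 1) ^ 2) = algebraMap (RatFunc F) L RatFunc.X := by
    intro w hw
    rw [pen_po] at hw
    unfold po at hw
    simp only [map_add, map_mul, map_pow, map_sub, map_one, aeval_X, aeval_C] at hw
    linear_combination -hw
  have hy' := hrel y hy
  have ht : Transcendental F y := by
    intro halg
    have h4 : IsAlgebraic F (algebraMap (RatFunc F) L RatFunc.X) := by
      rw [← hy']
      exact ((halg.pow _).mul ((halg.sub isAlgebraic_one).pow _)).neg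
    rw [isAlgebraic_algebraMap_iff (algebraMap (RatFunc F) L).injective] at h4
    exact RatFunc.transcendental_X h4
  have hy0 : y ≠ 0 := by
    rintro rfl
    apply hX0
    rw [← hy', zero_pow (by omega), zero_mul, neg_zero]
  have hv : algebraMap (RatFunc F) L RatFunc.X ∈ (subst y ht).fieldRange := by
    rw [← hy']
    have hyT : y ∈ (subst y ht).fieldRange := ⟨RatFunc.X, subst_X _ _⟩
    exact neg_mem (mul_mem (pow_mem hyT _) (pow_mem (sub_mem hyT (one_mem _)) _))
  have key : ∀ w : L, aeval w (MP7fA.pen (po F n) 1) = 0 → w ≠ y →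
      (((oPhi' F (n - 2)).map (algebraMap F[X] (RatFunc F))).map (subst y ht)).eval (w / y) = 0 := by
    intro w hw hwy
    have hw' := hrel w hw
    have hcomp : (subst y ht).comp (algebraMap F[X] (RatFunc F)) =
        (aeval y : F[X] →ₐ[F] L).toRingHom := by
      ext1
      · ext c
        simp only [RingHom.comp_apply]
        exact subst_poly _ _ _
      · simp only [RingHom.comp_apply]
        exact subst_poly _ _ _
    have hCC : ((aeval y : F[X] →ₐ[F] L).toRingHom).comp (C : F →+* F[X]) = algebraMap F L := by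
      ext c
      change aeval y (C c) = _
      rw [aeval_C]
    have hgeo : ∀ (m : ℕ) (u : L), (((geo F m).map (C : F →+* F[X])).map
        (aeval y : F[X] →ₐ[F] L).toRingHom).eval u * (u - 1) = u ^ m - 1 := by
      intro m u
      rw [Polynomial.map_map, hCC]
      have h1 := congrArg (fun p : F[X] => (p.map (algebraMap F L)).eval u)
        (geo_mul (F := F) m)
      simpa using h1
    rw [Polynomial.map_map, hcomp, oPhi', Polynomial.map_add, Polynomial.map_sub,
      Polynomial.map_mul, Polynomial.map_mul, map_C, map_C, eval_add, eval_sub,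
      eval_mul, eval_C, eval_mul, eval_C]
    have hX2 : (aeval y : F[X] →ₐ[F] L).toRingHom (X ^ 2) = y ^ 2 := by
      change aeval y (X ^ 2) = _
      rw [map_pow, aeval_X]
    have h2X : (aeval y : F[X] →ₐ[F] L).toRingHom (2 * X) = 2 * y := by
      change aeval y (2 * X) = _
      rw [map_mul, map_ofNat, aeval_X]
    rw [hX2, h2X]
    have h1 := hgeo (n - 2 + 2) (w / y)
    have h2 := hgeo (n - 2 + 1) (w / y)
    have h3 := hgeo (n - 2) (w / y)
    set A := eval (w / y) (((geo F (n - 2 + 2)).map (C : F →+* F[X])).map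
        (aeval y : F[X] →ₐ[F] L).toRingHom)
    set B := eval (w / y) (((geo F (n - 2 + 1)).map (C : F →+* F[X])).map
        (aeval y : F[X] →ₐ[F] L).toRingHom)
    set D := eval (w / y) (((geo F (n - 2)).map (C : F →+* F[X])).map
        (aeval y : F[X] →ₐ[F] L).toRingHom)
    have hu : w / y - 1 ≠ 0 := by
      intro h
      rw [sub_eq_zero, div_eq_one_iff_eq hy0] at h
      exact hwy h
    have hw2 : w = (w / y) * y := by field_simp
    set u := w / y
    have h3 : y ^ (n - 2) * ((y ^ 2 * A - 2 * y * B + D) * (u - 1)) = 0 := by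
      have h4 : (y ^ 2 * A - 2 * y * B + D) * (u - 1) = y ^ 2 * (u ^ (n - 2 + 2) - 1) -
          2 * y * (u ^ (n - 2 + 1) - 1) + (u ^ (n - 2) - 1) := by
        linear_combination y ^ 2 * h1 - 2 * y * h2 + h3
      rw [h4]
      have h5 : w ^ (n - 2) * (w - 1) ^ 2 = y ^ (n - 2) * (y - 1) ^ 2 := by
        linear_combination hy' - hw'
      rw [hw2, mul_pow] at h5
      linear_combination h5
    rcases mul_eq_zero.mp h3 with h | h
    · exact absurd h (pow_ne_zero _ hy0)
    · exact (mul_eq_zero.mp h).resolve_right hu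
  obtain ⟨σ, h1, h2⟩ := exists_aut_gen y ht hv _
    (oPhi'_irreducible (F := F) (n := n - 2) (by omega)) (z / y) (z' / y)
    (key z hz hzy) (key z' hz' hzy')
  refine ⟨σ, h1, ?_⟩
  rw [map_div₀, h1] at h2
  field_simp at h2
  exact h2

open scoped Classical in
theorem po_swap {n : ℕ} (hn : 5 ≤ n) (hodd : n % 2 = 1) (hn2 : ((n - 2 : ℕ) : F) ≠ 0)
    [Fact (((MP7fA.pen (po F n) 1).map (algebraMap (RatFunc F) L)).Splits)] :
    ∃ σ : (MP7fA.pen (po F n) 1).Gal, (Gal.galActionHom (MP7fA.pen (po F n) 1) L σ).IsSwap := by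
  have hp : (X ^ (n - 2) : (AlgebraicClosure F)[X]).natDegree ≠ 0 := by
    rw [natDegree_X_pow]; omega
  have hj : subK (F := F) (X ^ (n - 2) : (AlgebraicClosure F)[X]) hp RatFunc.X =
      tau (AlgebraicClosure F) ^ (n - 2) := by
    rw [subK_X, Polynomial.coe_pow, Polynomial.coe_X, map_pow]; rfl
  have hmap : (MP7fA.pen (po F n) 1).map (subK (F := F) (X ^ (n - 2) : (AlgebraicClosure F)[X]) hp) =
      po (LaurentSeries (AlgebraicClosure F)) n + C (tau (AlgebraicClosure F) ^ (n - 2)) := by
    rw [pen_po, Polynomial.map_add, map_po, map_C, hj]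
  have hn2' : ((n - 2 : ℕ) : AlgebraicClosure F) ≠ 0 := by
    rw [← map_natCast (algebraMap F (AlgebraicClosure F)), Ne,
      map_eq_zero_iff _ (algebraMap F (AlgebraicClosure F)).injective]
    exact hn2
  obtain ⟨T, hT, hcard⟩ := po_roots (k := AlgebraicClosure F) hn hn2'
  have hPm := po_monic F (n := n) (by omega)
  have hdeg : (1 : F[X]).degree < (po F n).degree := by
    rw [degree_one, degree_eq_natDegree hPm.1.ne_zero, hPm.2]
    exact_mod_cast (by omega : 0 < n)
  refine exists_swap' (subK (F := F) (X ^ (n - 2) : (AlgebraicClosure F)[X]) hp) _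
    (po_separable hn hn2) T ?_ ?_ ?_
  · rw [hmap]; exact hT
  · rw [(pen_monic _ _ hPm.1 hdeg).2, hPm.2]; exact hcard
  · rw [hmap]; exact po_not_splits hn hodd

/-- The full symmetric group. -/
theorem po_gal {n : ℕ} (hn : 5 ≤ n) (hodd : n % 2 = 1) (hn2 : ((n - 2 : ℕ) : F) ≠ 0)
    (y : Fin n → L)
    (hy : (MP7fA.pen (po F n) 1).map (algebraMap (RatFunc F) L) = ∏ i, (X - C (y i)))
    (htop : Algebra.adjoin (RatFunc F) (Set.range y) = ⊤) (σ : Perm (Fin n)) :
    ∃ τ : L ≃ₐ[RatFunc F] L, ∀ i, τ (y i) = y (σ i) := by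
  classical
  have hsep := po_separable (F := F) hn hn2
  have hPm := po_monic F (n := n) (by omega)
  have hdeg : (1 : F[X]).degree < (po F n).degree := by
    rw [degree_one, degree_eq_natDegree hPm.1.ne_zero, hPm.2]
    exact_mod_cast (by omega : 0 < n)
  have hfact : Fact (((MP7fA.pen (po F n) 1).map (algebraMap (RatFunc F) L)).Splits) :=
    ⟨splits_of_prod _ y hy⟩
  have hnorm : Normal (RatFunc F) L := normal_of_prod _ hsep.ne_zero y hy htop
  refine gal_of_surj _ hsep y hy htop ?_ σ
  exact surj_of_swap _ (fun a b c d hab hcd => two_trans_gal _ hsep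
    (by rw [(pen_monic _ _ hPm.1 hdeg).2, hPm.2]; omega) (po_aut hn hodd) a b c d hab hcd)
    (po_swap hn hodd hn2)

end global

end MP7fT
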