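import Pool.Agent.Lib.MP_7f581e_ntA.GadgetO
import Pool.Agent.Lib.MP_7f581e_ntT.OddLoc

/-!
The pencil `X ^ (n - 2) * (X - 1) ^ 2 + v` in odd degree `n`: discriminant, and the gadget.
-/

set_option autoImplicit false

universe u

namespace MP7fT

open Polynomial Equiv MP7f

theorem po_derivative {R : Type*} [CommRing R] {n : ℕ} (hn : 3 ≤ n) :
    derivative (po R n) = X ^ (n - 3) * ((X - C 1) * (C (n : R) * X - C ((n - 2 : ℕ) : R))) := by
  unfold po
  obtain ⟨j, rfl⟩ : ∃ j, n = j + 3 := ⟨n - 3, by omega⟩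
  have e1 : j + 3 - 2 = j + 1 := by omega
  have e2 : j + 3 - 3 = j := by omega
  have e3 : derivative ((X - 1 : R[X]) ^ 2) = 2 * (X - 1) := by
    rw [derivative_pow]
    simp only [Nat.cast_ofNat, map_ofNat, derivative_sub, derivative_X, derivative_one, sub_zero,
      mul_one]
    norm_num
  rw [e1, e2, derivative_mul, e3, derivative_X_pow, Nat.add_sub_cancel]
  simp only [C_1]
  push_cast
  simp only [C_add, C_1, map_natCast, map_ofNat]
  ring

/-- The discriminant. -/
theorem disc_po {Ω : Type*} [Field Ω] (v : Ω) {m : ℕ} (hm : 1 ≤ m)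
    (y : Fin (2 * m + 1) → Ω) (hy : po Ω (2 * m + 1) + C v = ∏ i, (X - C (y i))) :
    vV y ^ 2 = (-1) ^ m * (v ^ (2 * m - 1) * (((2 * m + 1 : ℕ) : Ω) ^ (2 * m + 1) * v +
      4 * ((2 * m - 1 : ℕ) : Ω) ^ (2 * m - 1))) := by
  obtain ⟨j, rfl⟩ : ∃ j, m = j + 1 := ⟨m - 1, by omega⟩
  have hdet := prod_deriv _ y hy
  rw [neg_one_pow_Ioi_odd] at hdet
  have e1 : 2 * (j + 1) + 1 - 3 = 2 * j := by omega
  have e2 : 2 * (j + 1) + 1 - 2 = 2 * j + 1 := by omega
  have e3 : 2 * (j + 1) - 1 = 2 * j + 1 := by omega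
  rw [e3]
  obtain ⟨N, hN⟩ : ∃ N : Ω, N = ((2 * (j + 1) + 1 : ℕ) : Ω) := ⟨_, rfl⟩
  obtain ⟨M, hM⟩ : ∃ M : Ω, M = ((2 * j + 1 : ℕ) : Ω) := ⟨_, rfl⟩
  have hNM : N = M + 2 := by rw [hN, hM]; push_cast; ring
  rw [← hN, ← hM]
  have hder : ∀ i, (derivative (po Ω (2 * (j + 1) + 1) + C v)).eval (y i) =
      y i ^ (2 * j) * ((y i - 1) * (N * y i - M)) := by
    intro i
    rw [derivative_add, derivative_C, add_zero, po_derivative (by omega)]
    simp only [eval_mul, eval_sub, eval_pow, eval_X, eval_C]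
    rw [e1, e2, ← hN, ← hM]
  have hodd : (-1 : Ω) ^ (2 * (j + 1) + 1) = -1 := by rw [pow_succ, pow_mul]; simp
  have h0 : ∏ i, y i = -v := by
    have h1 := prod_eval_neg _ y hy 0
    simp only [sub_zero] at h1
    rw [h1, hodd]
    unfold po
    simp only [eval_add, eval_mul, eval_sub, eval_one, eval_pow, eval_X, eval_C]
    rw [zero_pow (by omega)]; ring
  have h1 : ∏ i, (y i - 1) = -v := by
    rw [prod_eval_neg _ y hy 1, hodd]
    unfold po
    simp only [eval_add, eval_mul, eval_sub, eval_one, eval_pow, eval_X, eval_C]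
    ring
  have h2 : ∏ i, (N * y i - M) = -(N ^ (2 * (j + 1) + 1) * v + 4 * M ^ (2 * j + 1)) := by
    by_cases hN0 : N = 0
    · rw [hN0]
      simp only [zero_mul, zero_sub]
      rw [Finset.prod_const, Finset.card_univ, Fintype.card_fin, zero_pow (by omega), zero_mul,
        zero_add]
      have hM2 : M = -2 := by linear_combination -hNM + hN0
      rw [hM2]
      have : (- -2 : Ω) ^ (2 * (j + 1) + 1) = 2 ^ (2 * j + 1) * 4 := by
        rw [neg_neg]; ring
      rw [this, Odd.neg_pow (by exact ⟨j, rfl⟩)]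
      ring
    · have h3 : ∀ i, N * y i - M = N * (y i - M / N) := by
        intro i; field_simp
      rw [Finset.prod_congr rfl (fun i _ => h3 i), Finset.prod_mul_distrib, Finset.prod_const,
        Finset.card_univ, Fintype.card_fin, prod_eval_neg _ y hy (M / N), hodd]
      unfold po
      simp only [eval_add, eval_mul, eval_sub, eval_one, eval_pow, eval_X, eval_C]
      rw [e2]
      have h4 : N * (M / N - 1) = -2 := by
        rw [mul_sub, mul_div_cancel₀ _ hN0, hNM]; ring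
      have h5 : N * (M / N) = M := mul_div_cancel₀ _ hN0
      have h6 : N ^ (2 * (j + 1) + 1) * ((M / N) ^ (2 * j + 1) * (M / N - 1) ^ 2) =
          4 * M ^ (2 * j + 1) := by
        have : N ^ (2 * (j + 1) + 1) * ((M / N) ^ (2 * j + 1) * (M / N - 1) ^ 2) =
          (N * (M / N)) ^ (2 * j + 1) * (N * (M / N - 1)) ^ 2 := by
          rw [mul_pow, mul_pow, show 2 * (j + 1) + 1 = (2 * j + 1) + 2 by ring, pow_add]; ring
        rw [this, h4, h5]; ring
      linear_combination -h6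
  rw [Finset.prod_congr rfl (fun i _ => hder i), Finset.prod_mul_distrib, Finset.prod_pow,
    Finset.prod_mul_distrib, h0, h1, h2] at hdet
  have hs2 : (-1 : Ω) ^ (j + 1) * (-1 : Ω) ^ (j + 1) = 1 := by
    rw [← mul_pow]; simp
  have hv2 : (-v) ^ (2 * j) = v ^ (2 * j) := by rw [pow_mul, neg_sq, ← pow_mul]
  rw [hv2] at hdet
  linear_combination -(-1) ^ (j + 1) * hdet - vV y ^ 2 * hs2

theorem nonempty_gaoO (m : ℕ) (hm : 2 ≤ m) (K : Type u) [Field K] (h2 : (2 : K) ≠ 0)
    (hn2 : ((2 * m - 1 : ℕ) : K) ≠ 0) : Nonempty (MP7fA.GAo (2 * m + 1) K) := by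
  have hPm := po_monic K (n := 2 * m + 1) (by omega)
  have e2 : 2 * m + 1 - 2 = 2 * m - 1 := by omega
  refine ⟨{
    P := po K (2 * m + 1)
    Q := 1
    a1 := (-1) ^ m * ((2 * m + 1 : ℕ) : K) ^ (2 * m + 1)
    a0 := (-1) ^ m * (4 * ((2 * m - 1 : ℕ) : K) ^ (2 * m - 1))
    b1 := 1
    b0 := 0
    r := 1 / RatFunc.X ^ m
    h2 := h2
    hab := ?_
    hr := ?_
    monic := hPm.1
    deg := hPm.2
    degQ := ?_
    sep := po_separable (by omega) (by rw [e2]; exact hn2)
    sign := ?_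
    gal := ?_ }⟩
  · rw [mul_zero, zero_sub, mul_one]
    refine neg_ne_zero.mpr (mul_ne_zero (pow_ne_zero _ (neg_ne_zero.mpr one_ne_zero))
      (mul_ne_zero ?_ (pow_ne_zero _ hn2)))
    have : (4 : K) = 2 * 2 := by norm_num
    rw [this]; exact mul_ne_zero h2 h2
  · exact one_div_ne_zero (pow_ne_zero _ RatFunc.X_ne_zero)
  · rw [degree_one]; exact_mod_cast (by omega : 0 < 2 * m + 1)
  · intro L _ φ y hinj hy
    rw [pen_po, Polynomial.map_add, map_po, map_C] at hy
    have h := disc_po (φ RatFunc.X) (by omega) y hy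
    have hX : φ RatFunc.X ≠ 0 := by
      rw [Ne, map_eq_zero_iff _ φ.injective]; exact RatFunc.X_ne_zero
    simp only [map_one, one_mul, map_zero, add_zero, map_div₀, map_pow, map_mul, map_neg,
      map_add, map_natCast, map_ofNat]
    set x := φ RatFunc.X with hx
    rw [mul_pow, h]
    have e3 : x ^ (2 * m) = x ^ (2 * m - 1) * x := by rw [← pow_succ]; congr 1; omega
    have e4 : (1 / x ^ m) ^ 2 = 1 / (x ^ (2 * m - 1) * x) := by
      rw [← e3, div_pow, one_pow, ← pow_mul, mul_comm m 2]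
    rw [e4]
    have hx1 : x ^ (2 * m - 1) ≠ 0 := pow_ne_zero _ hX
    field_simp
  · intro F _ _ L _ _ y hy htop σ
    rw [map_po, Polynomial.map_one] at hy
    refine po_gal (by omega) (by omega) ?_ y hy htop σ
    rw [e2, ← map_natCast (algebraMap K F), Ne, map_eq_zero_iff _ (algebraMap K F).injective]
    exact hn2

end MP7fT
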