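import Mathlib

/-!
Permutation groups of roots: a field extension in which a separable polynomial of degree `n` has
at least `n - 2` roots, but does not split, gives a transposition in the Galois group; together
with 2-transitivity the Galois group is the full symmetric group.
-/

set_option autoImplicit false

namespace MP7fT

open Polynomial

open scoped Classical in
/-- Surjectivity from 2-transitivity and a transposition. -/
theorem surj_of_swap {K L : Type*} [Field K] [Field L] [Algebra K L] (f : K[X])
    [Fact ((f.map (algebraMap K L)).Splits)]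
    (h2 : ∀ a b c d : f.rootSet L, a ≠ b → c ≠ d → ∃ σ : f.Gal, σ • a = c ∧ σ • b = d)
    (hs : ∃ σ : f.Gal, (Gal.galActionHom f L σ).IsSwap) :
    Function.Surjective (Gal.galActionHom f L) := by
  have hfin : Finite (f.rootSet L) := inferInstance
  rw [← MonoidHom.range_eq_top]
  obtain ⟨σ, hσ⟩ := hs
  have h2' : MulAction.IsMultiplyPretransitive (Gal.galActionHom f L).range (f.rootSet L) 2 := by
    rw [MulAction.is_two_pretransitive_iff]
    intro a b c d hab hcd
    obtain ⟨τ, h1, h2⟩ := h2 a b c d hab hcd
    refine ⟨⟨Gal.galActionHom f L τ, τ, rfl⟩, ?_, ?_⟩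
    · exact h1
    · exact h2
  have hprim : MulAction.IsPreprimitive (Gal.galActionHom f L).range (f.rootSet L) :=
    MulAction.isPreprimitive_of_is_two_pretransitive h2'
  exact Equiv.Perm.subgroup_eq_top_of_isPreprimitive_of_isSwap_mem hprim _ hσ ⟨σ, rfl⟩

open scoped Classical in
/-- Independence of the field in which the roots are taken. -/
theorem swap_transfer {K L L' : Type*} [Field K] [Field L] [Algebra K L] [Field L'] [Algebra K L']
    (f : K[X]) [Fact ((f.map (algebraMap K L)).Splits)] [Fact ((f.map (algebraMap K L')).Splits)]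
    (hs : ∃ σ : f.Gal, (Gal.galActionHom f L σ).IsSwap) :
    ∃ σ : f.Gal, (Gal.galActionHom f L' σ).IsSwap := by
  obtain ⟨σ, a, b, hab, h⟩ := hs
  let e : f.rootSet L ≃ f.rootSet L' := (Gal.rootsEquivRoots f L).symm.trans
    (Gal.rootsEquivRoots f L')
  refine ⟨σ, e a, e b, fun h' => hab (e.injective h'), ?_⟩
  have key : ∀ x : f.rootSet L, Gal.galActionHom f L' σ (e x) = e (Gal.galActionHom f L σ x) := by
    intro x
    change σ • (e x) = e (σ • x)
    rw [Gal.smul_def, Gal.smul_def f L]
    simp [e]
  ext1 x
  obtain ⟨x, rfl⟩ := e.surjective x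
  rw [key, h]
  simp only [Equiv.swap_apply_def, e.injective.eq_iff]
  split_ifs <;> rfl

open scoped Classical in
/-- A field extension in which `f` has at least `deg f - 2` roots and does not split gives a
transposition. -/
theorem exists_swap {K E : Type*} [Field K] [Field E] [Algebra K E] (f : K[X])
    (hsep : f.Separable) (T : Finset E) (hT : ∀ x ∈ T, aeval x f = 0)
    (hcard : f.natDegree ≤ T.card + 2) (hns : ¬ (f.map (algebraMap K E)).Splits)
    {L : Type*} [Field L] [Algebra K L] [Fact ((f.map (algebraMap K L)).Splits)] :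
    ∃ σ : f.Gal, (Gal.galActionHom f L σ).IsSwap := by
  let Ω := (f.map (algebraMap K E)).SplittingField
  have hsplit : (f.map (algebraMap K Ω)).Splits := by
    rw [IsScalarTower.algebraMap_eq K E Ω, ← Polynomial.map_map]
    exact SplittingField.splits _
  have : Fact ((f.map (algebraMap K Ω)).Splits) := ⟨hsplit⟩
  apply swap_transfer (L := Ω)
  have hsepE : (f.map (algebraMap K E)).Separable := hsep.map
  have : IsGalois E Ω := IsGalois.of_separable_splitting_field hsepE
  have hf0 : f ≠ 0 := hsep.ne_zero
  have hroot : ∀ e : E, aeval e f = 0 → aeval (algebraMap E Ω e) f = 0 := by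
    intro e he
    rw [aeval_algebraMap_apply, he, map_zero]
  -- a root outside `E`
  have hex : ∃ r : Ω, aeval r f = 0 ∧ ∀ e : E, algebraMap E Ω e ≠ r := by
    by_contra hcon
    push Not at hcon
    apply hns
    refine Polynomial.Splits.of_splits_map (algebraMap E Ω) (SplittingField.splits _) ?_
    intro a ha
    rw [mem_roots', IsRoot.def, Polynomial.map_map, ← IsScalarTower.algebraMap_eq,
      eval_map_algebraMap] at ha
    obtain ⟨e, he⟩ := hcon a ha.2
    exact ⟨e, he⟩
  obtain ⟨r, hr, hrE⟩ := hex
  -- an automorphism moving it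
  have hg : ∃ g : Gal(Ω/E), g r ≠ r := by
    by_contra hcon
    push Not at hcon
    obtain ⟨e, he⟩ := (IsGalois.mem_range_algebraMap_iff_fixed r).mpr hcon
    exact hrE e he
  obtain ⟨g, hg⟩ := hg
  have hgroot : ∀ x : Ω, aeval x f = 0 → aeval (g x) f = 0 := by
    intro x hx
    have : aeval (g.restrictScalars K x) f = g.restrictScalars K (aeval x f) :=
      aeval_algHom_apply (g.restrictScalars K) x f
    rw [hx, map_zero] at this
    exact this
  have hgE : ∀ x : Ω, (∀ e : E, algebraMap E Ω e ≠ x) → ∀ e : E, algebraMap E Ω e ≠ g x := by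
    intro x hx e he
    apply hx e
    apply g.injective
    rw [AlgEquiv.commutes, he]
  -- the complement has at most two elements
  have hcount : ∀ x : Ω, aeval x f = 0 → (∀ e : E, algebraMap E Ω e ≠ x) → x = r ∨ x = g r := by
    intro x hx hxE
    by_contra hcon
    push Not at hcon
    have h1 : (T.map ⟨algebraMap E Ω, (algebraMap E Ω).injective⟩) ∪ {x, r, g r} ⊆
        (f.map (algebraMap K Ω)).roots.toFinset := by
      intro z hz
      rw [Multiset.mem_toFinset, mem_roots (map_ne_zero hf0), IsRoot.def, eval_map_algebraMap]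
      rw [Finset.mem_union] at hz
      rcases hz with hz | hz
      · rw [Finset.mem_map] at hz
        obtain ⟨e, he, rfl⟩ := hz
        exact hroot e (hT e he)
      · simp only [Finset.mem_insert, Finset.mem_singleton] at hz
        rcases hz with rfl | rfl | rfl
        · exact hx
        · exact hr
        · exact hgroot r hr
    have h2 := Finset.card_le_card h1
    rw [Finset.card_union_of_disjoint, Finset.card_map] at h2
    · have h3 : ({x, r, g r} : Finset Ω).card = 3 := by
        rw [Finset.card_eq_three]
        exact ⟨x, r, g r, hcon.1, hcon.2, hg.symm, rfl⟩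
      have h4 := (f.map (algebraMap K Ω)).roots.toFinset_card_le
      have h5 := card_roots' (f.map (algebraMap K Ω))
      rw [natDegree_map] at h5
      omega
    · rw [Finset.disjoint_left]
      intro z hz hz'
      rw [Finset.mem_map] at hz
      obtain ⟨e, he, rfl⟩ := hz
      simp only [Finset.mem_insert, Finset.mem_singleton] at hz'
      rcases hz' with h | h | h
      · exact hxE e h
      · exact hrE e h
      · exact hgE r hrE e h
  have hgg : g (g r) = r := by
    rcases hcount (g (g r)) (hgroot _ (hgroot r hr)) (hgE _ (hgE r hrE)) with h | h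
    · exact h
    · exact absurd (g.injective h) hg
  have memR : ∀ x : Ω, aeval x f = 0 → x ∈ f.rootSet Ω := fun x hx =>
    mem_rootSet.mpr ⟨hf0, hx⟩
  refine ⟨Gal.restrict f Ω (g.restrictScalars K), ⟨r, memR r hr⟩, ⟨g r, memR _ (hgroot r hr)⟩,
    fun h => hg (congrArg Subtype.val h).symm, ?_⟩
  ext1 x
  apply Subtype.ext
  rw [Gal.galActionHom_restrict]
  change g (x : Ω) = _
  have hx : aeval (x : Ω) f = 0 := (mem_rootSet.mp x.2).2
  by_cases hxE : ∀ e : E, algebraMap E Ω e ≠ x
  · rcases hcount x hx hxE with h | h
    · have : x = ⟨r, memR r hr⟩ := Subtype.ext h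
      rw [this, Equiv.swap_apply_left]
    · have : x = ⟨g r, memR _ (hgroot r hr)⟩ := Subtype.ext h
      rw [this, Equiv.swap_apply_right]
      exact hgg
  · push Not at hxE
    obtain ⟨e, he⟩ := hxE
    rw [Equiv.swap_apply_of_ne_of_ne]
    · rw [← he, AlgEquiv.commutes]
    · intro h; exact hrE e (by rw [he, h])
    · intro h; exact hgE r hrE e (by rw [he, h])

end MP7fT
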