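import Mathlib

/-!
Automorphisms fixing one root and moving a second root: the general mechanism.
-/

set_option autoImplicit false

namespace MP7fT

open Polynomial

section subst
variable {F L : Type*} [Field F] [Field L] [Algebra (RatFunc F) L] [Algebra F L]
  [IsScalarTower F (RatFunc F) L]

/-- Substitution of a transcendental element for the variable. -/
noncomputable def subst (t : L) (ht : Transcendental F t) : RatFunc F →+* L :=
  IsFractionRing.lift (A := F[X]) (K := RatFunc F) (g := (aeval t : F[X] →ₐ[F] L).toRingHom)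
    (transcendental_iff_injective.mp ht)

omit [Algebra (RatFunc F) L] [IsScalarTower F (RatFunc F) L] in
theorem subst_poly (t : L) (ht : Transcendental F t) (p : F[X]) :
    subst t ht (algebraMap F[X] (RatFunc F) p) = aeval t p :=
  IsFractionRing.lift_algebraMap _ p

omit [Algebra (RatFunc F) L] [IsScalarTower F (RatFunc F) L] in
theorem subst_X (t : L) (ht : Transcendental F t) : subst t ht RatFunc.X = t := by
  rw [← RatFunc.algebraMap_X, subst_poly, aeval_X]

omit [Algebra (RatFunc F) L] [IsScalarTower F (RatFunc F) L] in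
theorem subst_C (t : L) (ht : Transcendental F t) (c : F) :
    subst t ht (RatFunc.C c) = algebraMap F L c := by
  rw [← RatFunc.algebraMap_C, subst_poly, aeval_C]

theorem algebraMap_poly (p : F[X]) :
    algebraMap (RatFunc F) L (algebraMap F[X] (RatFunc F) p) =
      aeval (algebraMap (RatFunc F) L RatFunc.X) p := by
  rw [aeval_algebraMap_apply]
  congr 1
  rw [← RatFunc.algebraMap_X]
  exact (aeval_algebraMap_apply (RatFunc F) (X : F[X]) p ▸ by simp)

theorem mem_subst_range (t : L) (ht : Transcendental F t)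
    (hv : algebraMap (RatFunc F) L RatFunc.X ∈ (subst t ht).fieldRange) (k : RatFunc F) :
    algebraMap (RatFunc F) L k ∈ (subst t ht).fieldRange := by
  have hpoly : ∀ p : F[X], algebraMap (RatFunc F) L (algebraMap F[X] (RatFunc F) p) ∈
      (subst t ht).fieldRange := by
    intro p
    rw [algebraMap_poly]
    induction p using Polynomial.induction_on' with
    | add p q hp hq => rw [map_add]; exact add_mem hp hq
    | monomial n a =>
      rw [aeval_monomial]
      exact mul_mem ⟨RatFunc.C a, subst_C _ _ _⟩ (pow_mem hv _)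
  induction k using RatFunc.induction_on with
  | _ p q hq =>
    rw [map_div₀]
    exact div_mem (hpoly p) (hpoly q)

/-- The image of the substitution as an intermediate field. -/
noncomputable def Tf (t : L) (ht : Transcendental F t)
    (hv : algebraMap (RatFunc F) L RatFunc.X ∈ (subst t ht).fieldRange) :
    IntermediateField (RatFunc F) L :=
  (subst t ht).fieldRange.toIntermediateField (mem_subst_range t ht hv)

noncomputable def tf (t : L) (ht : Transcendental F t)
    (hv : algebraMap (RatFunc F) L RatFunc.X ∈ (subst t ht).fieldRange) :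
    RatFunc F ≃+* Tf t ht hv :=
  RingEquiv.ofBijective
    ((subst t ht).codRestrict (Tf t ht hv) (fun k => ⟨k, rfl⟩))
    ⟨fun _ _ h => (subst t ht).injective (congrArg Subtype.val h),
      fun ⟨_, k, hk⟩ => ⟨k, Subtype.ext hk⟩⟩

theorem exists_aut_gen [Normal (RatFunc F) L] (t : L) (ht : Transcendental F t)
    (hv : algebraMap (RatFunc F) L RatFunc.X ∈ (subst t ht).fieldRange)
    (G : (RatFunc F)[X]) (hG : Irreducible G) (u u' : L)
    (hu : (G.map (subst t ht)).eval u = 0) (hu' : (G.map (subst t ht)).eval u' = 0) :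
    ∃ σ : L ≃ₐ[RatFunc F] L, σ t = t ∧ σ u = u' := by
  have : Normal (Tf t ht hv) L := Normal.tower_top_of_normal (RatFunc F) (Tf t ht hv) L
  have hirr : Irreducible (G.map (tf t ht hv : RatFunc F →+* Tf t ht hv)) :=
    (MulEquiv.irreducible_iff (mapEquiv (tf t ht hv))).mpr hG
  have key : ∀ w : L, (G.map (subst t ht)).eval w = 0 →
      aeval w (G.map (tf t ht hv : RatFunc F →+* Tf t ht hv)) = 0 := by
    intro w hw
    rw [← eval_map_algebraMap, Polynomial.map_map (tf t ht hv : RatFunc F →+* Tf t ht hv)]
    exact hw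
  have h1 : minpoly (Tf t ht hv) u = minpoly (Tf t ht hv) u' := by
    have e1 := minpoly.eq_of_irreducible hirr (key u hu)
    have e2 := minpoly.eq_of_irreducible hirr (key u' hu')
    rw [← e1, ← e2]
  obtain ⟨σ, hσ⟩ := (Normal.minpoly_eq_iff_mem_orbit L).mp h1.symm
  refine ⟨σ.restrictScalars (RatFunc F), ?_, hσ⟩
  exact σ.commutes ⟨t, ⟨RatFunc.X, subst_X _ _⟩⟩

end subst

section perm

theorem two_trans_of {G α : Type*} [Group G] [MulAction G α]
    (h3 : ∀ a b : α, ∃ c : α, c ≠ a ∧ c ≠ b)
    (H : ∀ y z z' : α, z ≠ y → z' ≠ y → ∃ g : G, g • y = y ∧ g • z = z')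
    (a b c d : α) (hab : a ≠ b) (hcd : c ≠ d) : ∃ g : G, g • a = c ∧ g • b = d := by
  obtain ⟨r, hra, hrc⟩ := h3 a c
  obtain ⟨g, -, hg⟩ := H r a c hra.symm hrc.symm
  obtain ⟨h, hh, hh'⟩ := H c (g • b) d (by
    rw [← hg]; intro h; exact hab (smul_left_cancel g h).symm) hcd.symm
  refine ⟨h * g, ?_, ?_⟩
  · rw [mul_smul, hg, hh]
  · rw [mul_smul, hh']

end perm

end MP7fT
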